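import Pool.Agent.Helper672.SIK.Bridge
import Pool.Agent.Helper672.ZFA.Arith

/-!
# Pairing, least numbers, enumerations and a diagonal argument inside a model
-/

namespace Pool.Agent.H408Z.Fac

open Pool.Agent.Helper672.ZFA
open FirstOrder FirstOrder.Language

universe u u₁ u₂ u₃

variable {M : Type u} [L.Structure M] [hM : IsModel M]
variable {α : Type u₁} {β : Type u₂} {γ : Type u₃} [ITy M α] [ITy M β] [ITy M γ]

/-- A pairing function. -/
noncomputable def pr (a b : INat M) : INat M := (a + b) * (a + b) + a

theorem IntF.pr {f g : γ → INat M} (hf : IntF M f) (hg : IntF M g) :
    IntF M (fun c => pr (f c) (g c)) := by
  unfold Fac.pr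
  (repeat' (first | with_reducible exact Int.const _ | with_reducible exact IntF.const _ | with_reducible exact IntF.id | with_reducible exact IntF.fst' | with_reducible exact IntF.snd' | with_reducible assumption | with_reducible apply Int.not | with_reducible apply Int.and | with_reducible apply Int.or | with_reducible apply Int.iff | with_reducible apply Int.ex | with_reducible apply Int.imp | with_reducible apply Int.all | with_reducible apply Int.eq | with_reducible apply Int.ne | with_reducible apply Int.mem | with_reducible apply Int.subset | with_reducible apply Int.ltN | with_reducible apply Int.leN | with_reducible apply Int.fin | with_reducible apply Int.sz | with_reducible apply Int.unique | with_reducible apply IntF.fst | with_reducible apply IntF.snd | with_reducible apply IntF.succ | with_reducible apply IntF.app | with_reducible apply IntF.sep | with_reducible apply IntF.lam | with_reducible apply IntF.the | with_reducible apply IntF.ite | with_reducible apply IntF.insert | with_reducible apply IntF.singleton | with_reducible apply IntF.union | with_reducible apply IntF.isUnion | with_reducible apply IntF.iimage | with_reducible_and_instances apply IntF.add | with_reducible_and_instances apply IntF.mul | with_reducible ((refine IntF.comp₂ ?_ ?_ ?_);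 assumption) | with_reducible ((refine Int.comp₂ ?_ ?_ ?_); assumption) | with_reducible ((refine IntF.comp ?_ ?_); assumption) | with_reducible ((refine Int.comp ?_ ?_); assumption) | with_reducible apply IntF.pair))

theorem pr_aux {a b a' b' d : INat M} (h : a' + b' = a + b + d.succ) : pr a b ≠ pr a' b' := by
  intro h1
  unfold pr at h1
  rw [h, INat.succ_eq] at h1
  have h2 : (a + b) * (a + b) + a + 0 = (a + b) * (a + b) + a +
      ((a + b * 2 + a * d * 2 + b * d * 2 + d * 2 + d * d + a') + 1) := by
    rw [add_zero]
    conv_lhs => rw [h1]
    ring
  have h3 := INat.add_left_cancel' h2
  rw [← INat.succ_eq] at h3
  exact INat.succ_ne_zero _ h3.symm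

theorem pr_inj {a b a' b' : INat M} (h : pr a b = pr a' b') : a = a' ∧ b = b' := by
  have key : a + b = a' + b' := by
    rcases INat.total (a + b) (a' + b') with ⟨c, hc⟩ | ⟨c, hc⟩
    · rcases INat.eq_zero_or_succ c with rfl | ⟨d, rfl⟩
      · rw [hc, add_zero]
      · exact absurd h (pr_aux hc)
    · rcases INat.eq_zero_or_succ c with rfl | ⟨d, rfl⟩
      · rw [hc, add_zero]
      · exact absurd h.symm (pr_aux hc)
  unfold pr at h
  rw [key] at h
  have h1 := INat.add_left_cancel' h
  subst h1
  exact ⟨rfl, INat.add_left_cancel' key⟩

/-- The least natural number with a property. -/
noncomputable def lst (p : INat M → Prop) : INat M := the (fun n => p n ∧ ∀ m, p m → n ≤ m) 0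

theorem lst_spec {p : INat M → Prop} (hp : Int M p) (h : ∃ n, p n) :
    p (lst p) ∧ ∀ m, p m → lst p ≤ m := by
  obtain ⟨n, hn, h1⟩ := INat.exists_least hp h
  exact the_spec (p := fun n => p n ∧ ∀ m, p m → n ≤ m) ⟨n, ⟨hn, h1⟩, fun m hm =>
    le_antisymm (hm.2 n hn) (h1 m hm.1)⟩

theorem IntF.lst {p : γ → INat M → Prop} (hp : Int M (fun q : γ × INat M => p q.1 q.2)) :
    IntF M (fun c => lst (p c)) := by
  unfold Fac.lst
  (repeat' (first | with_reducible exact Int.const _ | with_reducible exact IntF.const _ | with_reducible exact IntF.id | with_reducible exact IntF.fst' | with_reducible exact IntF.snd' | with_reducible assumption | with_reducible apply Int.not | with_reducible apply Int.and | with_reducible apply Int.or | with_reducible apply Int.iff | with_reducible apply Int.ex | with_reducible apply Int.imp | with_reducible apply Int.all | with_reducible apply Int.eq | with_reducible apply Int.ne | with_reducible apply Int.mem | with_reducible apply Int.subset | with_reducible apply Int.ltN | with_reducible apply Int.leN | with_reducible apply Int.fin | with_reducible apply Int.sz | with_reducible apply Int.unique | with_reducible apply IntF.fst | with_reducible apply IntF.snd | with_reducible apply IntF.succ | with_reducible apply IntF.app | with_reducible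 apply IntF.sep | with_reducible apply IntF.lam | with_reducible apply IntF.the | with_reducible apply IntF.ite | with_reducible apply IntF.insert | with_reducible apply IntF.singleton | with_reducible apply IntF.union | with_reducible apply IntF.isUnion | with_reducible apply IntF.iimage | with_reducible_and_instances apply IntF.add | with_reducible_and_instances apply IntF.mul | with_reducible ((refine IntF.comp₂ ?_ ?_ ?_); assumption) | with_reducible ((refine Int.comp₂ ?_ ?_ ?_); assumption) | with_reducible ((refine IntF.comp ?_ ?_); assumption) | with_reducible ((refine Int.comp ?_ ?_); assumption) | with_reducible apply IntF.pair))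

/-- An unbounded internal set of numbers has an internal injective enumeration. -/
theorem exists_enum {U : INat M → Prop} (hU : Int M U) (hub : ∀ k, ∃ m, k ≤ m ∧ U m) :
    ∃ ρ : INat M → INat M, IntF M ρ ∧ Function.Injective ρ ∧ ∀ n, U (ρ n) := by
  have hf : IntF M (fun q : INat M × INat M => lst (fun m => q.2 < m ∧ U m)) := by
    (repeat' (first | with_reducible exact Int.const _ | with_reducible exact IntF.const _ | with_reducible exact IntF.id | with_reducible exact IntF.fst' | with_reducible exact IntF.snd' | with_reducible assumption | with_reducible apply IntF.lst | with_reducible apply Int.not | with_reducible apply Int.and | with_reducible apply Int.or | with_reducible apply Int.iff | with_reducible apply Int.ex | with_reducible apply Int.imp | with_reducible apply Int.all | with_reducible apply Int.eq | with_reducible apply Int.ne | with_reducible apply Int.mem | with_reducible apply Int.subset | with_reducible apply Int.ltN | with_reducible apply Int.leN | with_reducible apply Int.fin | with_reducible apply Int.sz | with_reducible apply Int.unique | with_reducible apply IntF.fst | with_reducible apply IntF.snd | with_reducible apply IntF.succ | with_reducible apply IntF.app | with_reducible apply IntF.sep | with_reducible apply IntF.lam | with_reducible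 apply IntF.the | with_reducible apply IntF.ite | with_reducible apply IntF.insert | with_reducible apply IntF.singleton | with_reducible apply IntF.union | with_reducible apply IntF.isUnion | with_reducible apply IntF.iimage | with_reducible_and_instances apply IntF.add | with_reducible_and_instances apply IntF.mul | with_reducible ((refine IntF.comp₂ ?_ ?_ ?_); assumption) | with_reducible ((refine Int.comp₂ ?_ ?_ ?_); assumption) | with_reducible ((refine IntF.comp ?_ ?_); assumption) | with_reducible ((refine Int.comp ?_ ?_); assumption) | with_reducible apply IntF.pair))
  have hspec : ∀ x : INat M, x < lst (fun m => x < m ∧ U m) ∧ U (lst (fun m => x < m ∧ U m)) := by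
    intro x
    refine (lst_spec (p := fun m => x < m ∧ U m) (by (repeat' (first | with_reducible exact Int.const _ | with_reducible exact IntF.const _ | with_reducible exact IntF.id | with_reducible exact IntF.fst' | with_reducible exact IntF.snd' | with_reducible assumption | with_reducible apply Int.not | with_reducible apply Int.and | with_reducible apply Int.or | with_reducible apply Int.iff | with_reducible apply Int.ex | with_reducible apply Int.imp | with_reducible apply Int.all | with_reducible apply Int.eq | with_reducible apply Int.ne | with_reducible apply Int.mem | with_reducible apply Int.subset | with_reducible apply Int.ltN | with_reducible apply Int.leN | with_reducible apply Int.fin | with_reducible apply Int.sz | with_reducible apply Int.unique | with_reducible apply IntF.fst | with_reducible apply IntF.snd | with_reducible apply IntF.succ | with_reducible apply IntF.app | with_reducible apply IntF.sep | with_reducible apply IntF.lam | with_reducible apply IntF.the | with_reducible apply IntF.ite | with_reducible apply IntF.insert | with_reducible apply IntF.singleton | with_reducible apply IntF.union | with_reducible apply IntF.isUnion | with_reducible apply IntF.iimage | with_reducible_and_instances apply IntF.add | with_reducible_and_instances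 apply IntF.mul | with_reducible ((refine IntF.comp₂ ?_ ?_ ?_); assumption) | with_reducible ((refine Int.comp₂ ?_ ?_ ?_); assumption) | with_reducible ((refine IntF.comp ?_ ?_); assumption) | with_reducible ((refine Int.comp ?_ ?_); assumption) | with_reducible apply IntF.pair))) ?_).1
    obtain ⟨m, h1, h2⟩ := hub x.succ
    exact ⟨m, INat.succ_le_iff.1 h1, h2⟩
  let ρ : INat M → INat M := fun n => irec 0 (fun _ x => lst (fun m => x < m ∧ U m)) n.succ
  have hρ : IntF M ρ := by
    refine IntF.irec (IntF.const _) ?_ (IntF.succ IntF.id)
    (repeat' (first | with_reducible exact Int.const _ | with_reducible exact IntF.const _ | with_reducible exact IntF.id | with_reducible exact IntF.fst' | with_reducible exact IntF.snd' | with_reducible assumption | with_reducible apply IntF.lst | with_reducible apply Int.not | with_reducible apply Int.and | with_reducible apply Int.or | with_reducible apply Int.iff | with_reducible apply Int.ex | with_reducible apply Int.imp | with_reducible apply Int.all | with_reducible apply Int.eq | with_reducible apply Int.ne | with_reducible apply Int.mem | with_reducible apply Int.subset | with_reducible apply Int.ltN | with_reducible apply Int.leN | with_reducible apply Int.fin | with_reducible apply Int.sz | with_reducible apply Int.unique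 | with_reducible apply IntF.fst | with_reducible apply IntF.snd | with_reducible apply IntF.succ | with_reducible apply IntF.app | with_reducible apply IntF.sep | with_reducible apply IntF.lam | with_reducible apply IntF.the | with_reducible apply IntF.ite | with_reducible apply IntF.insert | with_reducible apply IntF.singleton | with_reducible apply IntF.union | with_reducible apply IntF.isUnion | with_reducible apply IntF.iimage | with_reducible_and_instances apply IntF.add | with_reducible_and_instances apply IntF.mul | with_reducible ((refine IntF.comp₂ ?_ ?_ ?_); assumption) | with_reducible ((refine Int.comp₂ ?_ ?_ ?_); assumption) | with_reducible ((refine IntF.comp ?_ ?_); assumption) | with_reducible ((refine Int.comp ?_ ?_); assumption) | with_reducible apply IntF.pair))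
  have hs : ∀ n, ρ n.succ = lst (fun m => ρ n < m ∧ U m) := fun n =>
    irec_succ (f := fun _ x => lst (fun m => x < m ∧ U m)) hf n.succ
  have hmono : ∀ n m, m < n → ρ m < ρ n := by
    refine INat.ind (p := fun n : INat M => ∀ m, m < n → ρ m < ρ n) (by (repeat' (first | with_reducible exact Int.const _ | with_reducible exact IntF.const _ | with_reducible exact IntF.id | with_reducible exact IntF.fst' | with_reducible exact IntF.snd' | with_reducible assumption | with_reducible apply Int.not | with_reducible apply Int.and | with_reducible apply Int.or | with_reducible apply Int.iff | with_reducible apply Int.ex | with_reducible apply Int.imp | with_reducible apply Int.all | with_reducible apply Int.eq | with_reducible apply Int.ne | with_reducible apply Int.mem | with_reducible apply Int.subset | with_reducible apply Int.ltN | with_reducible apply Int.leN | with_reducible apply Int.fin | with_reducible apply Int.sz | with_reducible apply Int.unique | with_reducible apply IntF.fst | with_reducible apply IntF.snd | with_reducible apply IntF.succ | with_reducible apply IntF.app | with_reducible apply IntF.sep | with_reducible apply IntF.lam | with_reducible apply IntF.the | with_reducible apply IntF.ite | with_reducible apply IntF.insert | with_reducible apply IntF.singleton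 | with_reducible apply IntF.union | with_reducible apply IntF.isUnion | with_reducible apply IntF.iimage | with_reducible_and_instances apply IntF.add | with_reducible_and_instances apply IntF.mul | with_reducible ((refine IntF.comp₂ ?_ ?_ ?_); assumption) | with_reducible ((refine Int.comp₂ ?_ ?_ ?_); assumption) | with_reducible ((refine IntF.comp ?_ ?_); assumption) | with_reducible ((refine Int.comp ?_ ?_); assumption) | with_reducible apply IntF.pair))) ?_ ?_
    · intro m hm
      exact absurd hm INat.not_lt_zero
    · intro n ih m hm
      have h1 : ρ n < ρ n.succ := by
        rw [hs]
        exact (hspec _).1
      rcases INat.lt_succ_iff'.1 hm with h | rfl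
      · exact (ih m h).trans h1
      · exact h1
  refine ⟨ρ, hρ, fun m n h => ?_, fun n => ?_⟩
  · rcases lt_trichotomy m n with h1 | h1 | h1
    · exact absurd h (hmono _ _ h1).ne
    · exact h1
    · exact absurd h (hmono _ _ h1).ne'
  · have : ρ n = lst (fun m => irec 0 (fun _ x => lst (fun m => x < m ∧ U m)) n < m ∧ U m) :=
      irec_succ (f := fun _ x => lst (fun m => x < m ∧ U m)) hf n
    rw [this]
    exact (hspec _).2

variable (M α) in
/-- Internally Dedekind infinite types. -/
def DInf : Prop := ∃ f : INat M → α, IntF M f ∧ Function.Injective f

/-- An infinite set with an injection into the numbers contains an injective sequence. -/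
theorem dinf_of_code {S : IPow M α} {c : α → INat M} (hc : IntF M c)
    (hinj : ∀ x y, x ∈ S → y ∈ S → c x = c y → x = y) (hS : ¬ IFin S) : DInf M α := by
  have hne : ∃ a, a ∈ S := by
    by_contra h
    exact hS (IFin.empty.subset fun x hx => absurd ⟨x, hx⟩ h)
  obtain ⟨a, -⟩ := hne
  obtain ⟨ρ, hρ, hρi, hU⟩ := exists_enum (M := M) (U := fun m => ∃ x, x ∈ S ∧ c x = m) (by (repeat' (first | with_reducible exact Int.const _ | with_reducible exact IntF.const _ | with_reducible exact IntF.id | with_reducible exact IntF.fst' | with_reducible exact IntF.snd' | with_reducible assumption | with_reducible apply Int.not | with_reducible apply Int.and | with_reducible apply Int.or | with_reducible apply Int.iff | with_reducible apply Int.ex | with_reducible apply Int.imp | with_reducible apply Int.all | with_reducible apply Int.eq | with_reducible apply Int.ne | with_reducible apply Int.mem | with_reducible apply Int.subset | with_reducible apply Int.ltN | with_reducible apply Int.leN | with_reducible apply Int.fin | with_reducible apply Int.sz | with_reducible apply Int.unique | with_reducible apply IntF.fst | with_reducible apply IntF.snd | with_reducible apply IntF.succ | with_reducible apply IntF.app | with_reducible apply IntF.sep | with_reducible apply IntF.lam | with_reducible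 apply IntF.the | with_reducible apply IntF.ite | with_reducible apply IntF.insert | with_reducible apply IntF.singleton | with_reducible apply IntF.union | with_reducible apply IntF.isUnion | with_reducible apply IntF.iimage | with_reducible_and_instances apply IntF.add | with_reducible_and_instances apply IntF.mul | with_reducible ((refine IntF.comp₂ ?_ ?_ ?_); assumption) | with_reducible ((refine Int.comp₂ ?_ ?_ ?_); assumption) | with_reducible ((refine IntF.comp ?_ ?_); assumption) | with_reducible ((refine Int.comp ?_ ?_); assumption) | with_reducible apply IntF.pair))) (by
    intro k
    by_contra h
    refine hS (Sz.fin (n := k) ⟨⟨c, hc⟩, fun x hx => ?_, hinj⟩)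
    by_contra h1
    exact h ⟨c x, not_lt.1 h1, x, hx, rfl⟩)
  have hu : ∀ n, ∃! x, x ∈ S ∧ c x = ρ n := by
    intro n
    obtain ⟨x, hx, h⟩ := hU n
    exact ⟨x, ⟨hx, h⟩, fun y hy => hinj _ _ hy.1 hx (hy.2.trans h.symm)⟩
  refine ⟨fun n => the (fun x => x ∈ S ∧ c x = ρ n) a, by (repeat' (first | with_reducible exact Int.const _ | with_reducible exact IntF.const _ | with_reducible exact IntF.id | with_reducible exact IntF.fst' | with_reducible exact IntF.snd' | with_reducible assumption | with_reducible apply Int.not | with_reducible apply Int.and | with_reducible apply Int.or | with_reducible apply Int.iff | with_reducible apply Int.ex | with_reducible apply Int.imp | with_reducible apply Int.all | with_reducible apply Int.eq | with_reducible apply Int.ne | with_reducible apply Int.mem | with_reducible apply Int.subset | with_reducible apply Int.ltN | with_reducible apply Int.leN | with_reducible apply Int.fin | with_reducible apply Int.sz | with_reducible apply Int.unique | with_reducible apply IntF.fst | with_reducible apply IntF.snd | with_reducible apply IntF.succ | with_reducible apply IntF.app | with_reducible apply IntF.sep | with_reducible apply IntF.lam | with_reducible apply IntF.the | with_reducible apply IntF.ite | with_reducible apply IntF.insert |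 with_reducible apply IntF.singleton | with_reducible apply IntF.union | with_reducible apply IntF.isUnion | with_reducible apply IntF.iimage | with_reducible_and_instances apply IntF.add | with_reducible_and_instances apply IntF.mul | with_reducible ((refine IntF.comp₂ ?_ ?_ ?_); assumption) | with_reducible ((refine Int.comp₂ ?_ ?_ ?_); assumption) | with_reducible ((refine IntF.comp ?_ ?_); assumption) | with_reducible ((refine Int.comp ?_ ?_); assumption) | with_reducible apply IntF.pair)), fun m n h => ?_⟩
  have h1 := (the_spec (d := a) (hu m)).2
  have h2 := (the_spec (d := a) (hu n)).2
  dsimp only at h
  rw [h, h2] at h1
  exact hρi h1.symm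

/-- A sequence with infinite range gives an injective sequence. -/
theorem dinf_of_seq {y : INat M → α} (hy : IntF M y)
    (hS : ¬ IFin (sep M fun x => ∃ m, y m = x)) : DInf M α := by
  have hi : Int M (fun x => ∃ m, y m = x) := by (repeat' (first | with_reducible exact Int.const _ | with_reducible exact IntF.const _ | with_reducible exact IntF.id | with_reducible exact IntF.fst' | with_reducible exact IntF.snd' | with_reducible assumption | with_reducible apply Int.not | with_reducible apply Int.and | with_reducible apply Int.or | with_reducible apply Int.iff | with_reducible apply Int.ex | with_reducible apply Int.imp | with_reducible apply Int.all | with_reducible apply Int.eq | with_reducible apply Int.ne | with_reducible apply Int.mem | with_reducible apply Int.subset | with_reducible apply Int.ltN | with_reducible apply Int.leN | with_reducible apply Int.fin | with_reducible apply Int.sz | with_reducible apply Int.unique | with_reducible apply IntF.fst | with_reducible apply IntF.snd | with_reducible apply IntF.succ | with_reducible apply IntF.app | with_reducible apply IntF.sep | with_reducible apply IntF.lam | with_reducible apply IntF.the | with_reducible apply IntF.ite | with_reducible apply IntF.insert | with_reducible apply IntF.singleton | with_reducible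 apply IntF.union | with_reducible apply IntF.isUnion | with_reducible apply IntF.iimage | with_reducible_and_instances apply IntF.add | with_reducible_and_instances apply IntF.mul | with_reducible ((refine IntF.comp₂ ?_ ?_ ?_); assumption) | with_reducible ((refine Int.comp₂ ?_ ?_ ?_); assumption) | with_reducible ((refine IntF.comp ?_ ?_); assumption) | with_reducible ((refine Int.comp ?_ ?_); assumption) | with_reducible apply IntF.pair))
  refine dinf_of_code (c := fun x => lst (fun m => y m = x)) (by (repeat' (first | with_reducible exact Int.const _ | with_reducible exact IntF.const _ | with_reducible exact IntF.id | with_reducible exact IntF.fst' | with_reducible exact IntF.snd' | with_reducible assumption | with_reducible apply IntF.lst | with_reducible apply Int.not | with_reducible apply Int.and | with_reducible apply Int.or | with_reducible apply Int.iff | with_reducible apply Int.ex | with_reducible apply Int.imp | with_reducible apply Int.all | with_reducible apply Int.eq | with_reducible apply Int.ne | with_reducible apply Int.mem | with_reducible apply Int.subset | with_reducible apply Int.ltN | with_reducible apply Int.leN | with_reducible apply Int.fin | with_reducible apply Int.sz | with_reducible apply Int.unique | with_reducible apply IntF.fst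 | with_reducible apply IntF.snd | with_reducible apply IntF.succ | with_reducible apply IntF.app | with_reducible apply IntF.sep | with_reducible apply IntF.lam | with_reducible apply IntF.the | with_reducible apply IntF.ite | with_reducible apply IntF.insert | with_reducible apply IntF.singleton | with_reducible apply IntF.union | with_reducible apply IntF.isUnion | with_reducible apply IntF.iimage | with_reducible_and_instances apply IntF.add | with_reducible_and_instances apply IntF.mul | with_reducible ((refine IntF.comp₂ ?_ ?_ ?_); assumption) | with_reducible ((refine Int.comp₂ ?_ ?_ ?_); assumption) | with_reducible ((refine IntF.comp ?_ ?_); assumption) | with_reducible ((refine Int.comp ?_ ?_); assumption) | with_reducible apply IntF.pair))) ?_ hS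
  intro x x' hx hx' h
  rw [mem_sep hi] at hx hx'
  have h1 := (lst_spec (p := fun m => y m = x) (by (repeat' (first | with_reducible exact Int.const _ | with_reducible exact IntF.const _ | with_reducible exact IntF.id | with_reducible exact IntF.fst' | with_reducible exact IntF.snd' | with_reducible assumption | with_reducible apply Int.not | with_reducible apply Int.and | with_reducible apply Int.or | with_reducible apply Int.iff | with_reducible apply Int.ex | with_reducible apply Int.imp | with_reducible apply Int.all | with_reducible apply Int.eq | with_reducible apply Int.ne | with_reducible apply Int.mem | with_reducible apply Int.subset | with_reducible apply Int.ltN | with_reducible apply Int.leN | with_reducible apply Int.fin | with_reducible apply Int.sz | with_reducible apply Int.unique | with_reducible apply IntF.fst | with_reducible apply IntF.snd | with_reducible apply IntF.succ | with_reducible apply IntF.app | with_reducible apply IntF.sep | with_reducible apply IntF.lam | with_reducible apply IntF.the | with_reducible apply IntF.ite | with_reducible apply IntF.insert | with_reducible apply IntF.singleton | with_reducible apply IntF.union | with_reducible apply IntF.isUnion | with_reducible apply IntF.iimage | with_reducible_and_instances apply IntF.add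 | with_reducible_and_instances apply IntF.mul | with_reducible ((refine IntF.comp₂ ?_ ?_ ?_); assumption) | with_reducible ((refine Int.comp₂ ?_ ?_ ?_); assumption) | with_reducible ((refine IntF.comp ?_ ?_); assumption) | with_reducible ((refine Int.comp ?_ ?_); assumption) | with_reducible apply IntF.pair))) hx).1
  have h2 := (lst_spec (p := fun m => y m = x') (by (repeat' (first | with_reducible exact Int.const _ | with_reducible exact IntF.const _ | with_reducible exact IntF.id | with_reducible exact IntF.fst' | with_reducible exact IntF.snd' | with_reducible assumption | with_reducible apply Int.not | with_reducible apply Int.and | with_reducible apply Int.or | with_reducible apply Int.iff | with_reducible apply Int.ex | with_reducible apply Int.imp | with_reducible apply Int.all | with_reducible apply Int.eq | with_reducible apply Int.ne | with_reducible apply Int.mem | with_reducible apply Int.subset | with_reducible apply Int.ltN | with_reducible apply Int.leN | with_reducible apply Int.fin | with_reducible apply Int.sz | with_reducible apply Int.unique | with_reducible apply IntF.fst | with_reducible apply IntF.snd | with_reducible apply IntF.succ | with_reducible apply IntF.app | with_reducible apply IntF.sep | with_reducible apply IntF.lam | with_reducible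 apply IntF.the | with_reducible apply IntF.ite | with_reducible apply IntF.insert | with_reducible apply IntF.singleton | with_reducible apply IntF.union | with_reducible apply IntF.isUnion | with_reducible apply IntF.iimage | with_reducible_and_instances apply IntF.add | with_reducible_and_instances apply IntF.mul | with_reducible ((refine IntF.comp₂ ?_ ?_ ?_); assumption) | with_reducible ((refine Int.comp₂ ?_ ?_ ?_); assumption) | with_reducible ((refine IntF.comp ?_ ?_); assumption) | with_reducible ((refine Int.comp ?_ ?_); assumption) | with_reducible apply IntF.pair))) hx').1
  rw [h, h2] at h1
  exact h1.symm

open Classical in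
/-- A function that avoids the range of every sequence gives an injective sequence. -/
theorem dinf_of_avoid {Φ : IFun M (INat M) α → α} (hΦ : IntF M Φ)
    (hav : ∀ f i, Φ f ≠ f i) (a : α) : DInf M α := by
  let st : INat M → IFun M (INat M) α → IFun M (INat M) α :=
    fun k f => lam M (fun i => if i = k then Φ f else f i)
  have hst : IntF M (fun q : INat M × IFun M (INat M) α => st q.1 q.2) := by
    unfold st
    (repeat' (first | with_reducible exact Int.const _ | with_reducible exact IntF.const _ | with_reducible exact IntF.id | with_reducible exact IntF.fst' | with_reducible exact IntF.snd' | with_reducible assumption | with_reducible apply Int.not | with_reducible apply Int.and | with_reducible apply Int.or | with_reducible apply Int.iff | with_reducible apply Int.ex | with_reducible apply Int.imp | with_reducible apply Int.all | with_reducible apply Int.eq | with_reducible apply Int.ne | with_reducible apply Int.mem | with_reducible apply Int.subset | with_reducible apply Int.ltN | with_reducible apply Int.leN | with_reducible apply Int.fin | with_reducible apply Int.sz | with_reducible apply Int.unique | with_reducible apply IntF.fst | with_reducible apply IntF.snd | with_reducible apply IntF.succ | with_reducible apply IntF.app | with_reducible apply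 IntF.sep | with_reducible apply IntF.lam | with_reducible apply IntF.the | with_reducible apply IntF.ite | with_reducible apply IntF.insert | with_reducible apply IntF.singleton | with_reducible apply IntF.union | with_reducible apply IntF.isUnion | with_reducible apply IntF.iimage | with_reducible_and_instances apply IntF.add | with_reducible_and_instances apply IntF.mul | with_reducible ((refine IntF.comp₂ ?_ ?_ ?_); assumption) | with_reducible ((refine Int.comp₂ ?_ ?_ ?_); assumption) | with_reducible ((refine IntF.comp ?_ ?_); assumption) | with_reducible ((refine Int.comp ?_ ?_); assumption) | with_reducible apply IntF.pair))
  have hst' : ∀ k f i, st k f i = if i = k then Φ f else f i := by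
    intro k f i
    unfold st
    rw [lam_apply (by (repeat' (first | with_reducible exact Int.const _ | with_reducible exact IntF.const _ | with_reducible exact IntF.id | with_reducible exact IntF.fst' | with_reducible exact IntF.snd' | with_reducible assumption | with_reducible apply Int.not | with_reducible apply Int.and | with_reducible apply Int.or | with_reducible apply Int.iff | with_reducible apply Int.ex | with_reducible apply Int.imp | with_reducible apply Int.all | with_reducible apply Int.eq | with_reducible apply Int.ne | with_reducible apply Int.mem | with_reducible apply Int.subset | with_reducible apply Int.ltN | with_reducible apply Int.leN | with_reducible apply Int.fin | with_reducible apply Int.sz | with_reducible apply Int.unique | with_reducible apply IntF.fst | with_reducible apply IntF.snd | with_reducible apply IntF.succ | with_reducible apply IntF.app | with_reducible apply IntF.sep | with_reducible apply IntF.lam | with_reducible apply IntF.the | with_reducible apply IntF.ite | with_reducible apply IntF.insert | with_reducible apply IntF.singleton | with_reducible apply IntF.union | with_reducible apply IntF.isUnion | with_reducible apply IntF.iimage | with_reducible_and_instances apply IntF.add | with_reducible_and_instances apply IntF.mul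 | with_reducible ((refine IntF.comp₂ ?_ ?_ ?_); assumption) | with_reducible ((refine Int.comp₂ ?_ ?_ ?_); assumption) | with_reducible ((refine IntF.comp ?_ ?_); assumption) | with_reducible ((refine Int.comp ?_ ?_); assumption) | with_reducible apply IntF.pair)))]
  let F : INat M → IFun M (INat M) α := fun k => irec ⟨fun _ => a, IntF.const a⟩ st k
  have hF : IntF M F := by
    refine IntF.irec (IntF.const _) ?_ IntF.id
    exact IntF.comp₂ hst (IntF.snd IntF.fst') IntF.snd'
  have hs : ∀ k, F k.succ = st k (F k) := fun k => irec_succ hst k
  have key : ∀ k i, i < k → F k i = Φ (F i) := by
    refine INat.ind (p := fun k : INat M => ∀ i, i < k → F k i = Φ (F i)) (by (repeat' (first | with_reducible exact Int.const _ | with_reducible exact IntF.const _ | with_reducible exact IntF.id | with_reducible exact IntF.fst' | with_reducible exact IntF.snd' | with_reducible assumption | with_reducible apply Int.not | with_reducible apply Int.and | with_reducible apply Int.or | with_reducible apply Int.iff | with_reducible apply Int.ex | with_reducible apply Int.imp | with_reducible apply Int.all | with_reducible apply Int.eq | with_reducible apply Int.ne | with_reducible apply Int.mem | with_reducible apply Int.subset | with_reducible apply Int.ltN | with_reducible apply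 Int.leN | with_reducible apply Int.fin | with_reducible apply Int.sz | with_reducible apply Int.unique | with_reducible apply IntF.fst | with_reducible apply IntF.snd | with_reducible apply IntF.succ | with_reducible apply IntF.app | with_reducible apply IntF.sep | with_reducible apply IntF.lam | with_reducible apply IntF.the | with_reducible apply IntF.ite | with_reducible apply IntF.insert | with_reducible apply IntF.singleton | with_reducible apply IntF.union | with_reducible apply IntF.isUnion | with_reducible apply IntF.iimage | with_reducible_and_instances apply IntF.add | with_reducible_and_instances apply IntF.mul | with_reducible ((refine IntF.comp₂ ?_ ?_ ?_); assumption) | with_reducible ((refine Int.comp₂ ?_ ?_ ?_); assumption) | with_reducible ((refine IntF.comp ?_ ?_); assumption) | with_reducible ((refine Int.comp ?_ ?_); assumption) | with_reducible apply IntF.pair))) ?_ ?_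
    · intro i hi
      exact absurd hi INat.not_lt_zero
    · intro k ih i hi
      rw [hs, hst']
      by_cases h : i = k
      · rw [if_pos h, h]
      · rw [if_neg h]
        exact ih i (lt_of_le_of_ne (INat.lt_succ_iff.1 hi) h)
  refine ⟨fun k => Φ (F k), by (repeat' (first | with_reducible exact Int.const _ | with_reducible exact IntF.const _ | with_reducible exact IntF.id | with_reducible exact IntF.fst' | with_reducible exact IntF.snd' | with_reducible assumption | with_reducible apply Int.not | with_reducible apply Int.and | with_reducible apply Int.or | with_reducible apply Int.iff | with_reducible apply Int.ex | with_reducible apply Int.imp | with_reducible apply Int.all | with_reducible apply Int.eq | with_reducible apply Int.ne | with_reducible apply Int.mem | with_reducible apply Int.subset | with_reducible apply Int.ltN | with_reducible apply Int.leN | with_reducible apply Int.fin | with_reducible apply Int.sz | with_reducible apply Int.unique | with_reducible apply IntF.fst | with_reducible apply IntF.snd | with_reducible apply IntF.succ | with_reducible apply IntF.app | with_reducible apply IntF.sep | with_reducible apply IntF.lam | with_reducible apply IntF.the | with_reducible apply IntF.ite | with_reducible apply IntF.insert | with_reducible apply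 IntF.singleton | with_reducible apply IntF.union | with_reducible apply IntF.isUnion | with_reducible apply IntF.iimage | with_reducible_and_instances apply IntF.add | with_reducible_and_instances apply IntF.mul | with_reducible ((refine IntF.comp₂ ?_ ?_ ?_); assumption) | with_reducible ((refine Int.comp₂ ?_ ?_ ?_); assumption) | with_reducible ((refine IntF.comp ?_ ?_); assumption) | with_reducible ((refine Int.comp ?_ ?_); assumption) | with_reducible apply IntF.pair)), fun m n h => ?_⟩
  dsimp only at h
  rcases lt_trichotomy m n with h1 | h1 | h1
  · exact absurd ((key _ _ h1).trans h).symm (hav _ _)
  · exact h1
  · exact absurd ((key _ _ h1).trans h.symm).symm (hav _ _)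

/-- If the power set of the numbers injects into `ω × α` then `α` is Dedekind infinite. -/
theorem dinf_of_pow {G : IPow M (INat M) → INat M × α} (hG : IntF M G)
    (hinj : Function.Injective G) : DInf M α := by
  let X : IFun M (INat M) α → IPow M (INat M) := fun f =>
    sep M fun m => ∃ n i, pr n i = m ∧ ∃ Z, G Z = (n, f i) ∧ ¬ m ∈ Z
  have hX : IntF M X := by
    unfold X
    (repeat' (first | with_reducible exact Int.const _ | with_reducible exact IntF.const _ | with_reducible exact IntF.id | with_reducible exact IntF.fst' | with_reducible exact IntF.snd' | with_reducible assumption | with_reducible apply IntF.pr | with_reducible apply Int.not | with_reducible apply Int.and | with_reducible apply Int.or | with_reducible apply Int.iff | with_reducible apply Int.ex | with_reducible apply Int.imp | with_reducible apply Int.all | with_reducible apply Int.eq | with_reducible apply Int.ne | with_reducible apply Int.mem | with_reducible apply Int.subset | with_reducible apply Int.ltN | with_reducible apply Int.leN | with_reducible apply Int.fin | with_reducible apply Int.sz | with_reducible apply Int.unique | with_reducible apply IntF.fst | with_reducible apply IntF.snd | with_reducible apply IntF.succ | with_reducible apply IntF.app | with_reducible apply IntF.sep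 | with_reducible apply IntF.lam | with_reducible apply IntF.the | with_reducible apply IntF.ite | with_reducible apply IntF.insert | with_reducible apply IntF.singleton | with_reducible apply IntF.union | with_reducible apply IntF.isUnion | with_reducible apply IntF.iimage | with_reducible_and_instances apply IntF.add | with_reducible_and_instances apply IntF.mul | with_reducible ((refine IntF.comp₂ ?_ ?_ ?_); assumption) | with_reducible ((refine Int.comp₂ ?_ ?_ ?_); assumption) | with_reducible ((refine IntF.comp ?_ ?_); assumption) | with_reducible ((refine Int.comp ?_ ?_); assumption) | with_reducible apply IntF.pair))
  have hX' : ∀ f m, m ∈ X f ↔ ∃ n i, pr n i = m ∧ ∃ Z, G Z = (n, f i) ∧ ¬ m ∈ Z := by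
    intro f m
    unfold X
    rw [mem_sep (by (repeat' (first | with_reducible exact Int.const _ | with_reducible exact IntF.const _ | with_reducible exact IntF.id | with_reducible exact IntF.fst' | with_reducible exact IntF.snd' | with_reducible assumption | with_reducible apply IntF.pr | with_reducible apply Int.not | with_reducible apply Int.and | with_reducible apply Int.or | with_reducible apply Int.iff | with_reducible apply Int.ex | with_reducible apply Int.imp | with_reducible apply Int.all | with_reducible apply Int.eq | with_reducible apply Int.ne | with_reducible apply Int.mem | with_reducible apply Int.subset | with_reducible apply Int.ltN | with_reducible apply Int.leN | with_reducible apply Int.fin | with_reducible apply Int.sz | with_reducible apply Int.unique | with_reducible apply IntF.fst | with_reducible apply IntF.snd | with_reducible apply IntF.succ | with_reducible apply IntF.app | with_reducible apply IntF.sep | with_reducible apply IntF.lam | with_reducible apply IntF.the | with_reducible apply IntF.ite | with_reducible apply IntF.insert | with_reducible apply IntF.singleton | with_reducible apply IntF.union | with_reducible apply IntF.isUnion | with_reducible apply IntF.iimage | with_reducible_and_instances apply IntF.add | with_reducible_and_instances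 apply IntF.mul | with_reducible ((refine IntF.comp₂ ?_ ?_ ?_); assumption) | with_reducible ((refine Int.comp₂ ?_ ?_ ?_); assumption) | with_reducible ((refine IntF.comp ?_ ?_); assumption) | with_reducible ((refine Int.comp ?_ ?_); assumption) | with_reducible apply IntF.pair)))]
  clear_value X
  refine dinf_of_avoid (Φ := fun f => (G (X f)).2) (by (repeat' (first | with_reducible exact Int.const _ | with_reducible exact IntF.const _ | with_reducible exact IntF.id | with_reducible exact IntF.fst' | with_reducible exact IntF.snd' | with_reducible assumption | with_reducible apply Int.not | with_reducible apply Int.and | with_reducible apply Int.or | with_reducible apply Int.iff | with_reducible apply Int.ex | with_reducible apply Int.imp | with_reducible apply Int.all | with_reducible apply Int.eq | with_reducible apply Int.ne | with_reducible apply Int.mem | with_reducible apply Int.subset | with_reducible apply Int.ltN | with_reducible apply Int.leN | with_reducible apply Int.fin | with_reducible apply Int.sz | with_reducible apply Int.unique | with_reducible apply IntF.fst | with_reducible apply IntF.snd | with_reducible apply IntF.succ | with_reducible apply IntF.app | with_reducible apply IntF.sep | with_reducible apply IntF.lam | with_reducible apply IntF.the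 | with_reducible apply IntF.ite | with_reducible apply IntF.insert | with_reducible apply IntF.singleton | with_reducible apply IntF.union | with_reducible apply IntF.isUnion | with_reducible apply IntF.iimage | with_reducible_and_instances apply IntF.add | with_reducible_and_instances apply IntF.mul | with_reducible ((refine IntF.comp₂ ?_ ?_ ?_); assumption) | with_reducible ((refine Int.comp₂ ?_ ?_ ?_); assumption) | with_reducible ((refine IntF.comp ?_ ?_); assumption) | with_reducible ((refine Int.comp ?_ ?_); assumption) | with_reducible apply IntF.pair))) ?_ (G ∅).2
  intro f i h
  have h1 : G (X f) = ((G (X f)).1, f i) := Prod.ext rfl h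
  by_cases h2 : pr (G (X f)).1 i ∈ X f
  · obtain ⟨n, i', h3, Z, h4, h5⟩ := (hX' f _).1 h2
    obtain ⟨rfl, rfl⟩ := pr_inj h3
    rw [← h1] at h4
    rw [hinj h4] at h5
    exact h5 h2
  · exact h2 ((hX' f _).2 ⟨_, i, rfl, X f, h1, h2⟩)

end Pool.Agent.H408Z.Fac
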