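import Pool.Agent.H408Z.Fac.A

/-!
# Closures under an injection of pairs, and periodic points
-/

namespace Pool.Agent.H408Z.Fac

open Pool.Agent.Helper672.ZFA
open FirstOrder FirstOrder.Language

universe u u₁ u₂ u₃

variable {M : Type u} [L.Structure M] [hM : IsModel M]
variable {α : Type u₁} {β : Type u₂} {γ : Type u₃} [ITy M α] [ITy M β] [ITy M γ]

section closure

variable (j : IFun M (α × α) (INat M × α))

/-- One step of the closure: apply `j`, or one of the two inverses of `j`. -/
def St (n : INat M) (u u' z : α) : Prop :=
  (n = pr 0 0 ∧ z = (j (u, u')).2) ∨ (∃ w k, n = pr (INat.succ 0) k ∧ j (z, w) = (k, u)) ∨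
    (∃ w k, n = pr (INat.succ (INat.succ 0)) k ∧ j (w, z) = (k, u))

theorem Int.St {n : γ → INat M} {u u' z : γ → α} (hn : IntF M n) (hu : IntF M u)
    (hu' : IntF M u') (hz : IntF M z) : Int M (fun c => St j (n c) (u c) (u' c) (z c)) := by
  unfold Fac.St
  (repeat' (first | with_reducible exact Int.const _ | with_reducible exact IntF.const _ | with_reducible exact IntF.id | with_reducible exact IntF.fst' | with_reducible exact IntF.snd' | with_reducible assumption | with_reducible apply IntF.pr | with_reducible apply Int.not | with_reducible apply Int.and | with_reducible apply Int.or | with_reducible apply Int.iff | with_reducible apply Int.ex | with_reducible apply Int.imp | with_reducible apply Int.all | with_reducible apply Int.eq | with_reducible apply Int.ne | with_reducible apply Int.mem | with_reducible apply Int.subset | with_reducible apply Int.ltN | with_reducible apply Int.leN | with_reducible apply Int.fin | with_reducible apply Int.sz | with_reducible apply Int.unique | with_reducible apply IntF.fst | with_reducible apply IntF.snd | with_reducible apply IntF.succ | with_reducible apply IntF.app | with_reducible apply IntF.sep | with_reducible apply IntF.lam | with_reducible apply IntF.the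 | with_reducible apply IntF.ite | with_reducible apply IntF.insert | with_reducible apply IntF.singleton | with_reducible apply IntF.union | with_reducible apply IntF.isUnion | with_reducible apply IntF.iimage | with_reducible_and_instances apply IntF.add | with_reducible_and_instances apply IntF.mul | with_reducible ((refine IntF.comp₂ ?_ ?_ ?_); assumption) | with_reducible ((refine Int.comp₂ ?_ ?_ ?_); assumption) | with_reducible ((refine IntF.comp ?_ ?_); assumption) | with_reducible ((refine Int.comp ?_ ?_); assumption) | with_reducible apply IntF.pair))

variable {j} in
theorem St.unique (hj : Function.Injective j) {n : INat M} {u u' z z' : α} (h : St j n u u' z)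
    (h' : St j n u u' z') : z = z' := by
  have n01 : (0 : INat M) ≠ INat.succ 0 := (INat.succ_ne_zero _).symm
  have n02 : (0 : INat M) ≠ INat.succ (INat.succ 0) := (INat.succ_ne_zero _).symm
  have n12 : (INat.succ 0 : INat M) ≠ INat.succ (INat.succ 0) := fun h => n01 (INat.succ_inj h)
  rcases h with ⟨h1, h2⟩ | ⟨w, k, h1, h2⟩ | ⟨w, k, h1, h2⟩ <;>
    rcases h' with ⟨h3, h4⟩ | ⟨w', k', h3, h4⟩ | ⟨w', k', h3, h4⟩ <;>
    have h5 := pr_inj (h1.symm.trans h3)
  · rw [h2, h4]
  · exact absurd h5.1 n01
  · exact absurd h5.1 n02
  · exact absurd h5.1.symm n01
  · rw [← h5.2, ← h2] at h4
    exact (congrArg Prod.fst (hj h4)).symm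
  · exact absurd h5.1 n12
  · exact absurd h5.1.symm n02
  · exact absurd h5.1.symm n12
  · rw [← h5.2, ← h2] at h4
    exact (congrArg Prod.snd (hj h4)).symm

/-- Closed sets of labelled points. -/
def Cl (e y : α) (S : IPow M (INat M × α)) : Prop :=
  (0, y) ∈ S ∧ (INat.succ 0, e) ∈ S ∧ ∀ i u i' u' n z, (i, u) ∈ S → (i', u') ∈ S →
    St j n u u' z → (INat.succ (INat.succ (pr n (pr i i'))), z) ∈ S

theorem Int.Cl {e y : γ → α} {S : γ → IPow M (INat M × α)} (he : IntF M e) (hy : IntF M y)
    (hS : IntF M S) : Int M (fun c => Cl j (e c) (y c) (S c)) := by
  unfold Fac.Cl
  (repeat' (first | with_reducible exact Int.const _ | with_reducible exact IntF.const _ | with_reducible exact IntF.id | with_reducible exact IntF.fst' | with_reducible exact IntF.snd' | with_reducible assumption | with_reducible apply IntF.pr | with_reducible apply Int.St | with_reducible apply Int.not | with_reducible apply Int.and | with_reducible apply Int.or | with_reducible apply Int.iff | with_reducible apply Int.ex | with_reducible apply Int.imp | with_reducible apply Int.all | with_reducible apply Int.eq | with_reducible apply Int.ne | with_reducible apply Int.mem | with_reducible apply Int.subset | with_reducible apply Int.ltN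 | with_reducible apply Int.leN | with_reducible apply Int.fin | with_reducible apply Int.sz | with_reducible apply Int.unique | with_reducible apply IntF.fst | with_reducible apply IntF.snd | with_reducible apply IntF.succ | with_reducible apply IntF.app | with_reducible apply IntF.sep | with_reducible apply IntF.lam | with_reducible apply IntF.the | with_reducible apply IntF.ite | with_reducible apply IntF.insert | with_reducible apply IntF.singleton | with_reducible apply IntF.union | with_reducible apply IntF.isUnion | with_reducible apply IntF.iimage | with_reducible_and_instances apply IntF.add | with_reducible_and_instances apply IntF.mul | with_reducible ((refine IntF.comp₂ ?_ ?_ ?_); assumption) | with_reducible ((refine Int.comp₂ ?_ ?_ ?_); assumption) | with_reducible ((refine IntF.comp ?_ ?_); assumption) | with_reducible ((refine Int.comp ?_ ?_); assumption) | with_reducible apply IntF.pair))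

/-- The point `x` has the label `m` in the closure of `e` and `y`. -/
def Lb (e y : α) (m : INat M) (x : α) : Prop := ∀ S, Cl j e y S → (m, x) ∈ S

theorem Int.Lb {e y x : γ → α} {m : γ → INat M} (he : IntF M e) (hy : IntF M y)
    (hm : IntF M m) (hx : IntF M x) : Int M (fun c => Lb j (e c) (y c) (m c) (x c)) := by
  unfold Fac.Lb
  (repeat' (first | with_reducible exact Int.const _ | with_reducible exact IntF.const _ | with_reducible exact IntF.id | with_reducible exact IntF.fst' | with_reducible exact IntF.snd' | with_reducible assumption | with_reducible apply Int.Cl | with_reducible apply Int.not | with_reducible apply Int.and | with_reducible apply Int.or | with_reducible apply Int.iff | with_reducible apply Int.ex | with_reducible apply Int.imp | with_reducible apply Int.all | with_reducible apply Int.eq | with_reducible apply Int.ne | with_reducible apply Int.mem | with_reducible apply Int.subset | with_reducible apply Int.ltN | with_reducible apply Int.leN | with_reducible apply Int.fin | with_reducible apply Int.sz | with_reducible apply Int.unique | with_reducible apply IntF.fst | with_reducible apply IntF.snd | with_reducible apply IntF.succ | with_reducible apply IntF.app | with_reducible apply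 IntF.sep | with_reducible apply IntF.lam | with_reducible apply IntF.the | with_reducible apply IntF.ite | with_reducible apply IntF.insert | with_reducible apply IntF.singleton | with_reducible apply IntF.union | with_reducible apply IntF.isUnion | with_reducible apply IntF.iimage | with_reducible_and_instances apply IntF.add | with_reducible_and_instances apply IntF.mul | with_reducible ((refine IntF.comp₂ ?_ ?_ ?_); assumption) | with_reducible ((refine Int.comp₂ ?_ ?_ ?_); assumption) | with_reducible ((refine IntF.comp ?_ ?_); assumption) | with_reducible ((refine Int.comp ?_ ?_); assumption) | with_reducible apply IntF.pair))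

theorem lb_y (e y : α) : Lb j e y 0 y := fun _ h => h.1

theorem lb_e (e y : α) : Lb j e y (INat.succ 0) e := fun _ h => h.2.1

variable {j} in
theorem Lb.step {e y u u' z : α} {i i' n : INat M} (h : Lb j e y i u) (h' : Lb j e y i' u')
    (hs : St j n u u' z) : Lb j e y (INat.succ (INat.succ (pr n (pr i i')))) z :=
  fun S hS => hS.2.2 _ _ _ _ _ _ (h S hS) (h' S hS) hs

variable {j} in
theorem Lb.ind {e y : α} {p : INat M × α → Prop} (hp : Int M p) (h0 : p (0, y))
    (h1 : p (INat.succ 0, e)) (h2 : ∀ i u i' u' n z, p (i, u) → p (i', u') → St j n u u' z →
      p (INat.succ (INat.succ (pr n (pr i i'))), z)) {m : INat M} {x : α} (h : Lb j e y m x) :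
    p (m, x) := h ⟨p, hp⟩ ⟨h0, h1, h2⟩

variable {j} in
theorem Lb.inv {e y x : α} {m : INat M} (h : Lb j e y m x) :
    (m = 0 ∧ x = y) ∨ (m = INat.succ 0 ∧ x = e) ∨ ∃ i u i' u' n, Lb j e y i u ∧ Lb j e y i' u' ∧
      St j n u u' x ∧ m = INat.succ (INat.succ (pr n (pr i i'))) := by
  have key := Lb.ind (p := fun q => Lb j e y q.1 q.2 ∧ ((q.1 = 0 ∧ q.2 = y) ∨
    (q.1 = INat.succ 0 ∧ q.2 = e) ∨ ∃ i u i' u' n, Lb j e y i u ∧ Lb j e y i' u' ∧
      St j n u u' q.2 ∧ q.1 = INat.succ (INat.succ (pr n (pr i i')))))
    (by (repeat' (first | with_reducible exact Int.const _ | with_reducible exact IntF.const _ | with_reducible exact IntF.id | with_reducible exact IntF.fst' | with_reducible exact IntF.snd' | with_reducible assumption | with_reducible apply IntF.pr | with_reducible apply Int.St | with_reducible apply Int.Lb | with_reducible apply Int.not | with_reducible apply Int.and | with_reducible apply Int.or | with_reducible apply Int.iff | with_reducible apply Int.ex | with_reducible apply Int.imp | with_reducible apply Int.all | with_reducible apply Int.eq | with_reducible apply Int.ne | with_reducible apply Int.mem | with_reducible apply Int.subset | with_reducible apply Int.ltN | with_reducible apply Int.leN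 | with_reducible apply Int.fin | with_reducible apply Int.sz | with_reducible apply Int.unique | with_reducible apply IntF.fst | with_reducible apply IntF.snd | with_reducible apply IntF.succ | with_reducible apply IntF.app | with_reducible apply IntF.sep | with_reducible apply IntF.lam | with_reducible apply IntF.the | with_reducible apply IntF.ite | with_reducible apply IntF.insert | with_reducible apply IntF.singleton | with_reducible apply IntF.union | with_reducible apply IntF.isUnion | with_reducible apply IntF.iimage | with_reducible_and_instances apply IntF.add | with_reducible_and_instances apply IntF.mul | with_reducible ((refine IntF.comp₂ ?_ ?_ ?_); assumption) | with_reducible ((refine Int.comp₂ ?_ ?_ ?_); assumption) | with_reducible ((refine IntF.comp ?_ ?_); assumption) | with_reducible ((refine Int.comp ?_ ?_); assumption) | with_reducible apply IntF.pair))) ⟨lb_y j e y, Or.inl ⟨rfl, rfl⟩⟩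
    ⟨lb_e j e y, Or.inr (Or.inl ⟨rfl, rfl⟩)⟩ (fun i u i' u' n z h1 h2 h3 =>
      ⟨h1.1.step h2.1 h3, Or.inr (Or.inr ⟨i, u, i', u', n, h1.1, h2.1, h3, rfl⟩)⟩) h
  exact key.2

variable {j} in
theorem Lb.unique (hj : Function.Injective j) {e y x x' : α} {m : INat M} (h : Lb j e y m x)
    (h' : Lb j e y m x') : x' = x := by
  have key := Lb.ind (p := fun q => Lb j e y q.1 q.2 ∧ ∀ x', Lb j e y q.1 x' → x' = q.2)
    (by (repeat' (first | with_reducible exact Int.const _ | with_reducible exact IntF.const _ | with_reducible exact IntF.id | with_reducible exact IntF.fst' | with_reducible exact IntF.snd' | with_reducible assumption | with_reducible apply Int.Lb | with_reducible apply Int.not | with_reducible apply Int.and | with_reducible apply Int.or | with_reducible apply Int.iff | with_reducible apply Int.ex | with_reducible apply Int.imp | with_reducible apply Int.all | with_reducible apply Int.eq | with_reducible apply Int.ne | with_reducible apply Int.mem | with_reducible apply Int.subset | with_reducible apply Int.ltN | with_reducible apply Int.leN | with_reducible apply Int.fin | with_reducible apply Int.sz | with_reducible apply Int.unique | with_reducible apply IntF.fst | with_reducible apply IntF.snd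 | with_reducible apply IntF.succ | with_reducible apply IntF.app | with_reducible apply IntF.sep | with_reducible apply IntF.lam | with_reducible apply IntF.the | with_reducible apply IntF.ite | with_reducible apply IntF.insert | with_reducible apply IntF.singleton | with_reducible apply IntF.union | with_reducible apply IntF.isUnion | with_reducible apply IntF.iimage | with_reducible_and_instances apply IntF.add | with_reducible_and_instances apply IntF.mul | with_reducible ((refine IntF.comp₂ ?_ ?_ ?_); assumption) | with_reducible ((refine Int.comp₂ ?_ ?_ ?_); assumption) | with_reducible ((refine IntF.comp ?_ ?_); assumption) | with_reducible ((refine Int.comp ?_ ?_); assumption) | with_reducible apply IntF.pair))) ⟨lb_y j e y, ?_⟩ ⟨lb_e j e y, ?_⟩ ?_ h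
  · exact key.2 x' h'
  · intro z hz
    rcases hz.inv with ⟨-, h1⟩ | ⟨h1, -⟩ | ⟨i, u, i', u', n, -, -, -, h1⟩
    · exact h1
    · exact absurd h1.symm (INat.succ_ne_zero _)
    · exact absurd h1.symm (INat.succ_ne_zero _)
  · intro z hz
    rcases hz.inv with ⟨h1, -⟩ | ⟨-, h1⟩ | ⟨i, u, i', u', n, -, -, -, h1⟩
    · exact absurd h1 (INat.succ_ne_zero _)
    · exact h1
    · exact absurd (INat.succ_inj h1).symm (INat.succ_ne_zero _)
  · intro i u i' u' n z h1 h2 h3
    refine ⟨h1.1.step h2.1 h3, fun w hw => ?_⟩
    rcases hw.inv with ⟨h4, -⟩ | ⟨h4, -⟩ | ⟨k, v, k', v', n', h5, h6, h7, h4⟩
    · exact absurd h4 (INat.succ_ne_zero _)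
    · exact absurd (INat.succ_inj h4) (INat.succ_ne_zero _)
    · obtain ⟨rfl, h8⟩ := pr_inj (INat.succ_inj (INat.succ_inj h4))
      obtain ⟨rfl, rfl⟩ := pr_inj h8
      have h9 : v = u := h1.2 v h5
      have h10 : v' = u' := h2.2 v' h6
      subst h9 h10
      exact St.unique hj h7 h3

/-- The closure of `e` and `y`. -/
noncomputable def Dc (e y : α) : IPow M α := sep M fun x => ∃ m, Lb j e y m x

theorem IntF.Dc {e y : γ → α} (he : IntF M e) (hy : IntF M y) :
    IntF M (fun c => Dc j (e c) (y c)) := by
  unfold Fac.Dc
  (repeat' (first | with_reducible exact Int.const _ | with_reducible exact IntF.const _ | with_reducible exact IntF.id | with_reducible exact IntF.fst' | with_reducible exact IntF.snd' | with_reducible assumption | with_reducible apply Int.Lb | with_reducible apply Int.not | with_reducible apply Int.and | with_reducible apply Int.or | with_reducible apply Int.iff | with_reducible apply Int.ex | with_reducible apply Int.imp | with_reducible apply Int.all | with_reducible apply Int.eq | with_reducible apply Int.ne | with_reducible apply Int.mem | with_reducible apply Int.subset | with_reducible apply Int.ltN | with_reducible apply Int.leN | with_reducible apply Int.fin | with_reducible apply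 Int.sz | with_reducible apply Int.unique | with_reducible apply IntF.fst | with_reducible apply IntF.snd | with_reducible apply IntF.succ | with_reducible apply IntF.app | with_reducible apply IntF.sep | with_reducible apply IntF.lam | with_reducible apply IntF.the | with_reducible apply IntF.ite | with_reducible apply IntF.insert | with_reducible apply IntF.singleton | with_reducible apply IntF.union | with_reducible apply IntF.isUnion | with_reducible apply IntF.iimage | with_reducible_and_instances apply IntF.add | with_reducible_and_instances apply IntF.mul | with_reducible ((refine IntF.comp₂ ?_ ?_ ?_); assumption) | with_reducible ((refine Int.comp₂ ?_ ?_ ?_); assumption) | with_reducible ((refine IntF.comp ?_ ?_); assumption) | with_reducible ((refine Int.comp ?_ ?_); assumption) | with_reducible apply IntF.pair))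

variable {j} in
theorem mem_Dc {e y x : α} : x ∈ Dc j e y ↔ ∃ m, Lb j e y m x := by
  unfold Dc
  rw [mem_sep (by (repeat' (first | with_reducible exact Int.const _ | with_reducible exact IntF.const _ | with_reducible exact IntF.id | with_reducible exact IntF.fst' | with_reducible exact IntF.snd' | with_reducible assumption | with_reducible apply Int.Lb | with_reducible apply Int.not | with_reducible apply Int.and | with_reducible apply Int.or | with_reducible apply Int.iff | with_reducible apply Int.ex | with_reducible apply Int.imp | with_reducible apply Int.all | with_reducible apply Int.eq | with_reducible apply Int.ne | with_reducible apply Int.mem | with_reducible apply Int.subset | with_reducible apply Int.ltN | with_reducible apply Int.leN | with_reducible apply Int.fin | with_reducible apply Int.sz | with_reducible apply Int.unique | with_reducible apply IntF.fst | with_reducible apply IntF.snd | with_reducible apply IntF.succ | with_reducible apply IntF.app | with_reducible apply IntF.sep | with_reducible apply IntF.lam | with_reducible apply IntF.the | with_reducible apply IntF.ite | with_reducible apply IntF.insert | with_reducible apply IntF.singleton | with_reducible apply IntF.union | with_reducible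 apply IntF.isUnion | with_reducible apply IntF.iimage | with_reducible_and_instances apply IntF.add | with_reducible_and_instances apply IntF.mul | with_reducible ((refine IntF.comp₂ ?_ ?_ ?_); assumption) | with_reducible ((refine Int.comp₂ ?_ ?_ ?_); assumption) | with_reducible ((refine IntF.comp ?_ ?_); assumption) | with_reducible ((refine Int.comp ?_ ?_); assumption) | with_reducible apply IntF.pair)))]

/-- Closed sets of points. -/
def ClS (P : IPow M α) : Prop := ∀ n u u' z, u ∈ P → u' ∈ P → St j n u u' z → z ∈ P

theorem Int.ClS {P : γ → IPow M α} (hP : IntF M P) : Int M (fun c => ClS j (P c)) := by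
  unfold Fac.ClS
  (repeat' (first | with_reducible exact Int.const _ | with_reducible exact IntF.const _ | with_reducible exact IntF.id | with_reducible exact IntF.fst' | with_reducible exact IntF.snd' | with_reducible assumption | with_reducible apply Int.St | with_reducible apply Int.not | with_reducible apply Int.and | with_reducible apply Int.or | with_reducible apply Int.iff | with_reducible apply Int.ex | with_reducible apply Int.imp | with_reducible apply Int.all | with_reducible apply Int.eq | with_reducible apply Int.ne | with_reducible apply Int.mem | with_reducible apply Int.subset | with_reducible apply Int.ltN | with_reducible apply Int.leN | with_reducible apply Int.fin | with_reducible apply Int.sz | with_reducible apply Int.unique | with_reducible apply IntF.fst | with_reducible apply IntF.snd | with_reducible apply IntF.succ | with_reducible apply IntF.app | with_reducible apply IntF.sep | with_reducible apply IntF.lam | with_reducible apply IntF.the | with_reducible apply IntF.ite | with_reducible apply IntF.insert | with_reducible apply IntF.singleton | with_reducible apply IntF.union | with_reducible apply IntF.isUnion | with_reducible apply IntF.iimage | with_reducible_and_instances apply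 IntF.add | with_reducible_and_instances apply IntF.mul | with_reducible ((refine IntF.comp₂ ?_ ?_ ?_); assumption) | with_reducible ((refine Int.comp₂ ?_ ?_ ?_); assumption) | with_reducible ((refine IntF.comp ?_ ?_); assumption) | with_reducible ((refine Int.comp ?_ ?_); assumption) | with_reducible apply IntF.pair))

theorem right_mem_Dc (e y : α) : y ∈ Dc j e y := mem_Dc.2 ⟨_, lb_y j e y⟩

theorem left_mem_Dc (e y : α) : e ∈ Dc j e y := mem_Dc.2 ⟨_, lb_e j e y⟩

theorem clS_Dc (e y : α) : ClS j (Dc j e y) := by
  intro n u u' z h1 h2 h3
  obtain ⟨i, hi⟩ := mem_Dc.1 h1
  obtain ⟨i', hi'⟩ := mem_Dc.1 h2
  exact mem_Dc.2 ⟨_, hi.step hi' h3⟩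

variable {j} in
theorem Dc_subset {e y : α} {P : IPow M α} (hP : ClS j P) (he : e ∈ P) (hy : y ∈ P) :
    Dc j e y ⊆ P := by
  intro x hx
  obtain ⟨m, hm⟩ := mem_Dc.1 hx
  exact Lb.ind (p := fun q => q.2 ∈ P) (by (repeat' (first | with_reducible exact Int.const _ | with_reducible exact IntF.const _ | with_reducible exact IntF.id | with_reducible exact IntF.fst' | with_reducible exact IntF.snd' | with_reducible assumption | with_reducible apply Int.not | with_reducible apply Int.and | with_reducible apply Int.or | with_reducible apply Int.iff | with_reducible apply Int.ex | with_reducible apply Int.imp | with_reducible apply Int.all | with_reducible apply Int.eq | with_reducible apply Int.ne | with_reducible apply Int.mem | with_reducible apply Int.subset | with_reducible apply Int.ltN | with_reducible apply Int.leN | with_reducible apply Int.fin | with_reducible apply Int.sz | with_reducible apply Int.unique | with_reducible apply IntF.fst | with_reducible apply IntF.snd | with_reducible apply IntF.succ | with_reducible apply IntF.app | with_reducible apply IntF.sep | with_reducible apply IntF.lam | with_reducible apply IntF.the | with_reducible apply IntF.ite | with_reducible apply IntF.insert | with_reducible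 apply IntF.singleton | with_reducible apply IntF.union | with_reducible apply IntF.isUnion | with_reducible apply IntF.iimage | with_reducible_and_instances apply IntF.add | with_reducible_and_instances apply IntF.mul | with_reducible ((refine IntF.comp₂ ?_ ?_ ?_); assumption) | with_reducible ((refine Int.comp₂ ?_ ?_ ?_); assumption) | with_reducible ((refine IntF.comp ?_ ?_); assumption) | with_reducible ((refine Int.comp ?_ ?_); assumption) | with_reducible apply IntF.pair))) hy he
    (fun i u i' u' n z h1 h2 h3 => hP n u u' z h1 h2 h3) hm

variable {j} in
theorem ClS.app {P : IPow M α} (hP : ClS j P) {u u' : α} (hu : u ∈ P) (hu' : u' ∈ P) :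
    (j (u, u')).2 ∈ P := hP _ u u' _ hu hu' (Or.inl ⟨rfl, rfl⟩)

variable {j} in
theorem ClS.left {P : IPow M α} (hP : ClS j P) {u u' : α} (h : (j (u, u')).2 ∈ P) : u ∈ P :=
  hP _ _ _ u h h (Or.inr (Or.inl ⟨u', (j (u, u')).1, rfl, rfl⟩))

variable {j} in
theorem ClS.right {P : IPow M α} (hP : ClS j P) {u u' : α} (h : (j (u, u')).2 ∈ P) : u' ∈ P :=
  hP _ _ _ u' h h (Or.inr (Or.inr ⟨u, (j (u, u')).1, rfl, rfl⟩))

/-- The least label of a point. -/
noncomputable def idx (e y x : α) : INat M := lst fun m => Lb j e y m x

theorem IntF.idx {e y x : γ → α} (he : IntF M e) (hy : IntF M y) (hx : IntF M x) :
    IntF M (fun c => idx j (e c) (y c) (x c)) := by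
  unfold Fac.idx
  (repeat' (first | with_reducible exact Int.const _ | with_reducible exact IntF.const _ | with_reducible exact IntF.id | with_reducible exact IntF.fst' | with_reducible exact IntF.snd' | with_reducible assumption | with_reducible apply IntF.lst | with_reducible apply Int.Lb | with_reducible apply Int.not | with_reducible apply Int.and | with_reducible apply Int.or | with_reducible apply Int.iff | with_reducible apply Int.ex | with_reducible apply Int.imp | with_reducible apply Int.all | with_reducible apply Int.eq | with_reducible apply Int.ne | with_reducible apply Int.mem | with_reducible apply Int.subset | with_reducible apply Int.ltN | with_reducible apply Int.leN | with_reducible apply Int.fin | with_reducible apply Int.sz | with_reducible apply Int.unique | with_reducible apply IntF.fst | with_reducible apply IntF.snd | with_reducible apply IntF.succ | with_reducible apply IntF.app | with_reducible apply IntF.sep | with_reducible apply IntF.lam | with_reducible apply IntF.the | with_reducible apply IntF.ite | with_reducible apply IntF.insert | with_reducible apply IntF.singleton | with_reducible apply IntF.union | with_reducible apply IntF.isUnion | with_reducible apply IntF.iimage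 | with_reducible_and_instances apply IntF.add | with_reducible_and_instances apply IntF.mul | with_reducible ((refine IntF.comp₂ ?_ ?_ ?_); assumption) | with_reducible ((refine Int.comp₂ ?_ ?_ ?_); assumption) | with_reducible ((refine IntF.comp ?_ ?_); assumption) | with_reducible ((refine Int.comp ?_ ?_); assumption) | with_reducible apply IntF.pair))

variable {j} in
theorem idx_inj (hj : Function.Injective j) {e y x x' : α} (hx : x ∈ Dc j e y)
    (hx' : x' ∈ Dc j e y) (h : idx j e y x = idx j e y x') : x = x' := by
  have h1 : Lb j e y (idx j e y x) x :=
    (lst_spec (p := fun m => Lb j e y m x) (by (repeat' (first | with_reducible exact Int.const _ | with_reducible exact IntF.const _ | with_reducible exact IntF.id | with_reducible exact IntF.fst' | with_reducible exact IntF.snd' | with_reducible assumption | with_reducible apply Int.Lb | with_reducible apply Int.not | with_reducible apply Int.and | with_reducible apply Int.or | with_reducible apply Int.iff | with_reducible apply Int.ex | with_reducible apply Int.imp | with_reducible apply Int.all | with_reducible apply Int.eq | with_reducible apply Int.ne | with_reducible apply Int.mem | with_reducible apply Int.subset | with_reducible apply Int.ltN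 | with_reducible apply Int.leN | with_reducible apply Int.fin | with_reducible apply Int.sz | with_reducible apply Int.unique | with_reducible apply IntF.fst | with_reducible apply IntF.snd | with_reducible apply IntF.succ | with_reducible apply IntF.app | with_reducible apply IntF.sep | with_reducible apply IntF.lam | with_reducible apply IntF.the | with_reducible apply IntF.ite | with_reducible apply IntF.insert | with_reducible apply IntF.singleton | with_reducible apply IntF.union | with_reducible apply IntF.isUnion | with_reducible apply IntF.iimage | with_reducible_and_instances apply IntF.add | with_reducible_and_instances apply IntF.mul | with_reducible ((refine IntF.comp₂ ?_ ?_ ?_); assumption) | with_reducible ((refine Int.comp₂ ?_ ?_ ?_); assumption) | with_reducible ((refine IntF.comp ?_ ?_); assumption) | with_reducible ((refine Int.comp ?_ ?_); assumption) | with_reducible apply IntF.pair))) (mem_Dc.1 hx)).1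
  have h2 : Lb j e y (idx j e y x') x' :=
    (lst_spec (p := fun m => Lb j e y m x') (by (repeat' (first | with_reducible exact Int.const _ | with_reducible exact IntF.const _ | with_reducible exact IntF.id | with_reducible exact IntF.fst' | with_reducible exact IntF.snd' | with_reducible assumption | with_reducible apply Int.Lb | with_reducible apply Int.not | with_reducible apply Int.and | with_reducible apply Int.or | with_reducible apply Int.iff | with_reducible apply Int.ex | with_reducible apply Int.imp | with_reducible apply Int.all | with_reducible apply Int.eq | with_reducible apply Int.ne | with_reducible apply Int.mem | with_reducible apply Int.subset | with_reducible apply Int.ltN | with_reducible apply Int.leN | with_reducible apply Int.fin | with_reducible apply Int.sz | with_reducible apply Int.unique | with_reducible apply IntF.fst | with_reducible apply IntF.snd | with_reducible apply IntF.succ | with_reducible apply IntF.app | with_reducible apply IntF.sep | with_reducible apply IntF.lam | with_reducible apply IntF.the | with_reducible apply IntF.ite | with_reducible apply IntF.insert | with_reducible apply IntF.singleton | with_reducible apply IntF.union | with_reducible apply IntF.isUnion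 | with_reducible apply IntF.iimage | with_reducible_and_instances apply IntF.add | with_reducible_and_instances apply IntF.mul | with_reducible ((refine IntF.comp₂ ?_ ?_ ?_); assumption) | with_reducible ((refine Int.comp₂ ?_ ?_ ?_); assumption) | with_reducible ((refine IntF.comp ?_ ?_); assumption) | with_reducible ((refine Int.comp ?_ ?_); assumption) | with_reducible apply IntF.pair))) (mem_Dc.1 hx')).1
  rw [← h] at h2
  exact h2.unique hj h1

variable {j} in
theorem fin_Dc (hj : Function.Injective j) (hD : ¬ DInf M α) (e y : α) : IFin (Dc j e y) := by
  by_contra h
  exact hD (dinf_of_code (c := fun x => idx j e y x) (by (repeat' (first | with_reducible exact Int.const _ | with_reducible exact IntF.const _ | with_reducible exact IntF.id | with_reducible exact IntF.fst' | with_reducible exact IntF.snd' | with_reducible assumption | with_reducible apply IntF.idx | with_reducible apply Int.not | with_reducible apply Int.and | with_reducible apply Int.or | with_reducible apply Int.iff | with_reducible apply Int.ex | with_reducible apply Int.imp | with_reducible apply Int.all | with_reducible apply Int.eq | with_reducible apply Int.ne | with_reducible apply Int.mem | with_reducible apply Int.subset | with_reducible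 apply Int.ltN | with_reducible apply Int.leN | with_reducible apply Int.fin | with_reducible apply Int.sz | with_reducible apply Int.unique | with_reducible apply IntF.fst | with_reducible apply IntF.snd | with_reducible apply IntF.succ | with_reducible apply IntF.app | with_reducible apply IntF.sep | with_reducible apply IntF.lam | with_reducible apply IntF.the | with_reducible apply IntF.ite | with_reducible apply IntF.insert | with_reducible apply IntF.singleton | with_reducible apply IntF.union | with_reducible apply IntF.isUnion | with_reducible apply IntF.iimage | with_reducible_and_instances apply IntF.add | with_reducible_and_instances apply IntF.mul | with_reducible ((refine IntF.comp₂ ?_ ?_ ?_); assumption) | with_reducible ((refine Int.comp₂ ?_ ?_ ?_); assumption) | with_reducible ((refine IntF.comp ?_ ?_); assumption) | with_reducible ((refine Int.comp ?_ ?_); assumption) | with_reducible apply IntF.pair)))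
    (fun x x' hx hx' => idx_inj hj hx hx') h)

/-- The class of `x` over `e` is trivial. -/
def Triv (e x : α) : Prop := ∀ x', Dc j e x' = Dc j e x → x' = x

theorem Int.Triv {e x : γ → α} (he : IntF M e) (hx : IntF M x) :
    Int M (fun c => Triv j (e c) (x c)) := by
  unfold Fac.Triv
  (repeat' (first | with_reducible exact Int.const _ | with_reducible exact IntF.const _ | with_reducible exact IntF.id | with_reducible exact IntF.fst' | with_reducible exact IntF.snd' | with_reducible assumption | with_reducible apply IntF.Dc | with_reducible apply Int.not | with_reducible apply Int.and | with_reducible apply Int.or | with_reducible apply Int.iff | with_reducible apply Int.ex | with_reducible apply Int.imp | with_reducible apply Int.all | with_reducible apply Int.eq | with_reducible apply Int.ne | with_reducible apply Int.mem | with_reducible apply Int.subset | with_reducible apply Int.ltN | with_reducible apply Int.leN | with_reducible apply Int.fin | with_reducible apply Int.sz | with_reducible apply Int.unique | with_reducible apply IntF.fst | with_reducible apply IntF.snd | with_reducible apply IntF.succ | with_reducible apply IntF.app | with_reducible apply IntF.sep | with_reducible apply IntF.lam | with_reducible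 apply IntF.the | with_reducible apply IntF.ite | with_reducible apply IntF.insert | with_reducible apply IntF.singleton | with_reducible apply IntF.union | with_reducible apply IntF.isUnion | with_reducible apply IntF.iimage | with_reducible_and_instances apply IntF.add | with_reducible_and_instances apply IntF.mul | with_reducible ((refine IntF.comp₂ ?_ ?_ ?_); assumption) | with_reducible ((refine Int.comp₂ ?_ ?_ ?_); assumption) | with_reducible ((refine IntF.comp ?_ ?_); assumption) | with_reducible ((refine Int.comp ?_ ?_); assumption) | with_reducible apply IntF.pair))

variable {j} in
theorem Triv.mem {e x : α} (h : Triv j e x) : e ∈ Dc j x x := by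
  have h1 : (j (e, x)).2 = x := by
    refine h _ (subset_antisymm' ?_ ?_)
    · exact Dc_subset (clS_Dc j e x) (left_mem_Dc j e x)
        ((clS_Dc j e x).app (left_mem_Dc j e x) (right_mem_Dc j e x))
    · exact Dc_subset (clS_Dc j e _) (left_mem_Dc j e _)
        ((clS_Dc j e _).right (right_mem_Dc j e _))
  refine (clS_Dc j x x).left (u' := x) ?_
  rw [h1]
  exact right_mem_Dc j x x

/-- `y` generates the closure of `X`. -/
def Gen (X : IPow M α) (y : α) : Prop := X ⊆ Dc j y y ∧ ∀ P, ClS j P → X ⊆ P → y ∈ P

theorem Int.Gen {X : γ → IPow M α} {y : γ → α} (hX : IntF M X) (hy : IntF M y) :
    Int M (fun c => Gen j (X c) (y c)) := by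
  unfold Fac.Gen
  (repeat' (first | with_reducible exact Int.const _ | with_reducible exact IntF.const _ | with_reducible exact IntF.id | with_reducible exact IntF.fst' | with_reducible exact IntF.snd' | with_reducible assumption | with_reducible apply IntF.Dc | with_reducible apply Int.ClS | with_reducible apply Int.not | with_reducible apply Int.and | with_reducible apply Int.or | with_reducible apply Int.iff | with_reducible apply Int.ex | with_reducible apply Int.imp | with_reducible apply Int.all | with_reducible apply Int.eq | with_reducible apply Int.ne | with_reducible apply Int.mem | with_reducible apply Int.subset | with_reducible apply Int.ltN | with_reducible apply Int.leN | with_reducible apply Int.fin | with_reducible apply Int.sz | with_reducible apply Int.unique | with_reducible apply IntF.fst | with_reducible apply IntF.snd | with_reducible apply IntF.succ | with_reducible apply IntF.app | with_reducible apply IntF.sep | with_reducible apply IntF.lam | with_reducible apply IntF.the | with_reducible apply IntF.ite | with_reducible apply IntF.insert | with_reducible apply IntF.singleton | with_reducible apply IntF.union | with_reducible apply IntF.isUnion | with_reducible apply IntF.iimage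 | with_reducible_and_instances apply IntF.add | with_reducible_and_instances apply IntF.mul | with_reducible ((refine IntF.comp₂ ?_ ?_ ?_); assumption) | with_reducible ((refine Int.comp₂ ?_ ?_ ?_); assumption) | with_reducible ((refine IntF.comp ?_ ?_); assumption) | with_reducible ((refine Int.comp ?_ ?_); assumption) | with_reducible apply IntF.pair))

theorem exists_gen (a : α) {X : IPow M α} (hX : IFin X) : ∃ y, Gen j (insert a X) y := by
  refine IFin.ind (p := fun X : IPow M α => ∃ y, Gen j (insert a X) y) (by (repeat' (first | with_reducible exact Int.const _ | with_reducible exact IntF.const _ | with_reducible exact IntF.id | with_reducible exact IntF.fst' | with_reducible exact IntF.snd' | with_reducible assumption | with_reducible apply Int.Gen | with_reducible apply Int.not | with_reducible apply Int.and | with_reducible apply Int.or | with_reducible apply Int.iff | with_reducible apply Int.ex | with_reducible apply Int.imp | with_reducible apply Int.all | with_reducible apply Int.eq | with_reducible apply Int.ne | with_reducible apply Int.mem | with_reducible apply Int.subset | with_reducible apply Int.ltN | with_reducible apply Int.leN | with_reducible apply Int.fin | with_reducible apply Int.sz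 | with_reducible apply Int.unique | with_reducible apply IntF.fst | with_reducible apply IntF.snd | with_reducible apply IntF.succ | with_reducible apply IntF.app | with_reducible apply IntF.sep | with_reducible apply IntF.lam | with_reducible apply IntF.the | with_reducible apply IntF.ite | with_reducible apply IntF.insert | with_reducible apply IntF.singleton | with_reducible apply IntF.union | with_reducible apply IntF.isUnion | with_reducible apply IntF.iimage | with_reducible_and_instances apply IntF.add | with_reducible_and_instances apply IntF.mul | with_reducible ((refine IntF.comp₂ ?_ ?_ ?_); assumption) | with_reducible ((refine Int.comp₂ ?_ ?_ ?_); assumption) | with_reducible ((refine IntF.comp ?_ ?_); assumption) | with_reducible ((refine Int.comp ?_ ?_); assumption) | with_reducible apply IntF.pair))) ?_ ?_ X hX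
  · refine ⟨a, fun x hx => ?_, fun P _ hP => hP a (by simp)⟩
    have : x = a := by simpa using hx
    rw [this]
    exact right_mem_Dc j a a
  · rintro s b - - ⟨y, h1, h2⟩
    have h3 := right_mem_Dc j (j (b, y)).2 (j (b, y)).2
    have h4 := clS_Dc j (j (b, y)).2 (j (b, y)).2
    refine ⟨(j (b, y)).2, fun x hx => ?_, fun P hP hP' => ?_⟩
    · have h5 : Dc j y y ⊆ Dc j (j (b, y)).2 (j (b, y)).2 :=
        Dc_subset h4 (h4.right h3) (h4.right h3)
      rw [mem_insert, mem_insert] at hx
      rcases hx with rfl | rfl | hx
      · exact h5 _ (h1 _ (by simp))
      · exact h4.left h3
      · exact h5 _ (h1 _ (by simp [hx]))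
    · refine hP.app (hP' _ (by simp)) (h2 P hP fun x hx => hP' x ?_)
      rw [mem_insert] at hx
      rcases hx with rfl | hx
      · simp
      · simp [hx]

theorem Sz.mono' {m n : INat M} {s : IPow M α} (h : Sz m s) (hmn : m ≤ n) : Sz n s := by
  obtain ⟨f, h1, h2⟩ := h
  exact ⟨f, fun x hx => (h1 x hx).trans_le hmn, h2⟩

theorem exists_big (hI : ¬ IFin (iuniv M α)) (m : INat M) :
    ∃ X : IPow M α, IFin X ∧ ¬ Sz m X := by
  have hne : ∀ X : IPow M α, IFin X → ∃ a, ¬ a ∈ X := by
    intro X hX
    by_contra h
    push Not at h
    exact hI (hX.subset fun x _ => h x)
  refine INat.ind (p := fun m : INat M => ∃ X : IPow M α, IFin X ∧ ¬ Sz m X) (by (repeat' (first | with_reducible exact Int.const _ | with_reducible exact IntF.const _ | with_reducible exact IntF.id | with_reducible exact IntF.fst' | with_reducible exact IntF.snd' | with_reducible assumption | with_reducible apply Int.not | with_reducible apply Int.and | with_reducible apply Int.or | with_reducible apply Int.iff | with_reducible apply Int.ex | with_reducible apply Int.imp | with_reducible apply Int.all | with_reducible apply Int.eq | with_reducible apply Int.ne | with_reducible apply Int.mem | with_reducible apply Int.subset | with_reducible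 apply Int.ltN | with_reducible apply Int.leN | with_reducible apply Int.fin | with_reducible apply Int.sz | with_reducible apply Int.unique | with_reducible apply IntF.fst | with_reducible apply IntF.snd | with_reducible apply IntF.succ | with_reducible apply IntF.app | with_reducible apply IntF.sep | with_reducible apply IntF.lam | with_reducible apply IntF.the | with_reducible apply IntF.ite | with_reducible apply IntF.insert | with_reducible apply IntF.singleton | with_reducible apply IntF.union | with_reducible apply IntF.isUnion | with_reducible apply IntF.iimage | with_reducible_and_instances apply IntF.add | with_reducible_and_instances apply IntF.mul | with_reducible ((refine IntF.comp₂ ?_ ?_ ?_); assumption) | with_reducible ((refine Int.comp₂ ?_ ?_ ?_); assumption) | with_reducible ((refine IntF.comp ?_ ?_); assumption) | with_reducible ((refine Int.comp ?_ ?_); assumption) | with_reducible apply IntF.pair))) ?_ ?_ m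
  · obtain ⟨a, -⟩ := hne ∅ IFin.empty
    exact ⟨{a}, IFin.singleton a, fun h => h.zero (x := a) (by simp)⟩
  · rintro n ⟨X, hX, h⟩
    obtain ⟨a, ha⟩ := hne X hX
    refine ⟨insert a X, hX.insert a, fun h1 => h ?_⟩
    refine (h1.erase (r := a) (by simp)).subset fun x hx => ?_
    rw [mem_sdiff, mem_singleton, mem_insert]
    exact ⟨Or.inr hx, fun h2 => ha (h2 ▸ hx)⟩

variable {j} in
/-- If large classes are trivial, then the type is Dedekind infinite. -/
theorem caseB (hj : Function.Injective j) (hI : ¬ IFin (iuniv M α))
    (h : ∀ e, ∃ m, ∀ x, ¬ Sz m (Dc j e x) → Triv j e x) : DInf M α := by
  by_contra hD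
  let T : INat M → IPow M α := fun m => sep M fun e => ∀ x, ¬ Sz m (Dc j e x) → Triv j e x
  have hT : IntF M T := by
    unfold T
    (repeat' (first | with_reducible exact Int.const _ | with_reducible exact IntF.const _ | with_reducible exact IntF.id | with_reducible exact IntF.fst' | with_reducible exact IntF.snd' | with_reducible assumption | with_reducible apply IntF.Dc | with_reducible apply Int.Triv | with_reducible apply Int.not | with_reducible apply Int.and | with_reducible apply Int.or | with_reducible apply Int.iff | with_reducible apply Int.ex | with_reducible apply Int.imp | with_reducible apply Int.all | with_reducible apply Int.eq | with_reducible apply Int.ne | with_reducible apply Int.mem | with_reducible apply Int.subset | with_reducible apply Int.ltN | with_reducible apply Int.leN | with_reducible apply Int.fin | with_reducible apply Int.sz | with_reducible apply Int.unique | with_reducible apply IntF.fst | with_reducible apply IntF.snd | with_reducible apply IntF.succ | with_reducible apply IntF.app | with_reducible apply IntF.sep | with_reducible apply IntF.lam | with_reducible apply IntF.the | with_reducible apply IntF.ite | with_reducible apply IntF.insert | with_reducible apply IntF.singleton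 | with_reducible apply IntF.union | with_reducible apply IntF.isUnion | with_reducible apply IntF.iimage | with_reducible_and_instances apply IntF.add | with_reducible_and_instances apply IntF.mul | with_reducible ((refine IntF.comp₂ ?_ ?_ ?_); assumption) | with_reducible ((refine Int.comp₂ ?_ ?_ ?_); assumption) | with_reducible ((refine IntF.comp ?_ ?_); assumption) | with_reducible ((refine Int.comp ?_ ?_); assumption) | with_reducible apply IntF.pair))
  have hT' : ∀ m e, e ∈ T m ↔ ∀ x, ¬ Sz m (Dc j e x) → Triv j e x := by
    intro m e
    unfold T
    rw [mem_sep (by (repeat' (first | with_reducible exact Int.const _ | with_reducible exact IntF.const _ | with_reducible exact IntF.id | with_reducible exact IntF.fst' | with_reducible exact IntF.snd' | with_reducible assumption | with_reducible apply IntF.Dc | with_reducible apply Int.Triv | with_reducible apply Int.not | with_reducible apply Int.and | with_reducible apply Int.or | with_reducible apply Int.iff | with_reducible apply Int.ex | with_reducible apply Int.imp | with_reducible apply Int.all | with_reducible apply Int.eq | with_reducible apply Int.ne | with_reducible apply Int.mem | with_reducible apply Int.subset | with_reducible apply Int.ltN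 | with_reducible apply Int.leN | with_reducible apply Int.fin | with_reducible apply Int.sz | with_reducible apply Int.unique | with_reducible apply IntF.fst | with_reducible apply IntF.snd | with_reducible apply IntF.succ | with_reducible apply IntF.app | with_reducible apply IntF.sep | with_reducible apply IntF.lam | with_reducible apply IntF.the | with_reducible apply IntF.ite | with_reducible apply IntF.insert | with_reducible apply IntF.singleton | with_reducible apply IntF.union | with_reducible apply IntF.isUnion | with_reducible apply IntF.iimage | with_reducible_and_instances apply IntF.add | with_reducible_and_instances apply IntF.mul | with_reducible ((refine IntF.comp₂ ?_ ?_ ?_); assumption) | with_reducible ((refine Int.comp₂ ?_ ?_ ?_); assumption) | with_reducible ((refine IntF.comp ?_ ?_); assumption) | with_reducible ((refine Int.comp ?_ ?_); assumption) | with_reducible apply IntF.pair)))]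
  clear_value T
  obtain ⟨e₀, -⟩ : ∃ a : α, True := by
    by_contra h1
    exact hI (IFin.empty.subset fun x _ => absurd ⟨x, trivial⟩ h1)
  have hsub : ∀ e y, Dc j y y ⊆ Dc j e y := fun e y =>
    Dc_subset (clS_Dc j e y) (right_mem_Dc j e y) (right_mem_Dc j e y)
  have hTfin : ∀ m, IFin (T m) := by
    intro m
    obtain ⟨X, hX, h1⟩ := exists_big hI m
    obtain ⟨y, h2, -⟩ := exists_gen j e₀ hX
    refine (fin_Dc hj hD y y).subset fun e he => ?_
    refine ((hT' m e).1 he y fun h3 => h1 (h3.subset fun x hx => ?_)).mem
    exact hsub e y x (h2 x (by simp [hx]))
  let Y : INat M → α := fun m => the (fun y => Gen j (insert e₀ (T m)) y) e₀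
  have hY : IntF M Y := by
    unfold Y
    (repeat' (first | with_reducible exact Int.const _ | with_reducible exact IntF.const _ | with_reducible exact IntF.id | with_reducible exact IntF.fst' | with_reducible exact IntF.snd' | with_reducible assumption | with_reducible apply Int.Gen | with_reducible apply Int.not | with_reducible apply Int.and | with_reducible apply Int.or | with_reducible apply Int.iff | with_reducible apply Int.ex | with_reducible apply Int.imp | with_reducible apply Int.all | with_reducible apply Int.eq | with_reducible apply Int.ne | with_reducible apply Int.mem | with_reducible apply Int.subset | with_reducible apply Int.ltN | with_reducible apply Int.leN | with_reducible apply Int.fin | with_reducible apply Int.sz | with_reducible apply Int.unique | with_reducible apply IntF.fst | with_reducible apply IntF.snd | with_reducible apply IntF.succ | with_reducible apply IntF.app | with_reducible apply IntF.sep | with_reducible apply IntF.lam | with_reducible apply IntF.the | with_reducible apply IntF.ite | with_reducible apply IntF.insert | with_reducible apply IntF.singleton | with_reducible apply IntF.union | with_reducible apply IntF.isUnion | with_reducible apply IntF.iimage | with_reducible_and_instances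 apply IntF.add | with_reducible_and_instances apply IntF.mul | with_reducible ((refine IntF.comp₂ ?_ ?_ ?_); assumption) | with_reducible ((refine Int.comp₂ ?_ ?_ ?_); assumption) | with_reducible ((refine IntF.comp ?_ ?_); assumption) | with_reducible ((refine Int.comp ?_ ?_); assumption) | with_reducible apply IntF.pair))
  have hY' : ∀ m, Y m = the (fun y => Gen j (insert e₀ (T m)) y) e₀ := fun _ => rfl
  clear_value Y
  refine hD (dinf_of_seq hY fun hfin => ?_)
  have hi : Int M (fun x => ∃ m, Y m = x) := by (repeat' (first | with_reducible exact Int.const _ | with_reducible exact IntF.const _ | with_reducible exact IntF.id | with_reducible exact IntF.fst' | with_reducible exact IntF.snd' | with_reducible assumption | with_reducible apply Int.not | with_reducible apply Int.and | with_reducible apply Int.or | with_reducible apply Int.iff | with_reducible apply Int.ex | with_reducible apply Int.imp | with_reducible apply Int.all | with_reducible apply Int.eq | with_reducible apply Int.ne | with_reducible apply Int.mem | with_reducible apply Int.subset | with_reducible apply Int.ltN | with_reducible apply Int.leN | with_reducible apply Int.fin | with_reducible apply Int.sz | with_reducible apply Int.unique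 | with_reducible apply IntF.fst | with_reducible apply IntF.snd | with_reducible apply IntF.succ | with_reducible apply IntF.app | with_reducible apply IntF.sep | with_reducible apply IntF.lam | with_reducible apply IntF.the | with_reducible apply IntF.ite | with_reducible apply IntF.insert | with_reducible apply IntF.singleton | with_reducible apply IntF.union | with_reducible apply IntF.isUnion | with_reducible apply IntF.iimage | with_reducible_and_instances apply IntF.add | with_reducible_and_instances apply IntF.mul | with_reducible ((refine IntF.comp₂ ?_ ?_ ?_); assumption) | with_reducible ((refine Int.comp₂ ?_ ?_ ?_); assumption) | with_reducible ((refine IntF.comp ?_ ?_); assumption) | with_reducible ((refine Int.comp ?_ ?_); assumption) | with_reducible apply IntF.pair))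
  have hDf : IntF M (fun y : α => Dc j y y) := by (repeat' (first | with_reducible exact Int.const _ | with_reducible exact IntF.const _ | with_reducible exact IntF.id | with_reducible exact IntF.fst' | with_reducible exact IntF.snd' | with_reducible assumption | with_reducible apply IntF.Dc | with_reducible apply Int.not | with_reducible apply Int.and | with_reducible apply Int.or | with_reducible apply Int.iff | with_reducible apply Int.ex | with_reducible apply Int.imp | with_reducible apply Int.all | with_reducible apply Int.eq | with_reducible apply Int.ne | with_reducible apply Int.mem | with_reducible apply Int.subset | with_reducible apply Int.ltN | with_reducible apply Int.leN | with_reducible apply Int.fin | with_reducible apply Int.sz | with_reducible apply Int.unique | with_reducible apply IntF.fst | with_reducible apply IntF.snd | with_reducible apply IntF.succ | with_reducible apply IntF.app | with_reducible apply IntF.sep | with_reducible apply IntF.lam | with_reducible apply IntF.the | with_reducible apply IntF.ite | with_reducible apply IntF.insert | with_reducible apply IntF.singleton | with_reducible apply IntF.union | with_reducible apply IntF.isUnion | with_reducible apply IntF.iimage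 | with_reducible_and_instances apply IntF.add | with_reducible_and_instances apply IntF.mul | with_reducible ((refine IntF.comp₂ ?_ ?_ ?_); assumption) | with_reducible ((refine Int.comp₂ ?_ ?_ ?_); assumption) | with_reducible ((refine IntF.comp ?_ ?_); assumption) | with_reducible ((refine Int.comp ?_ ?_); assumption) | with_reducible apply IntF.pair))
  have hU : IFin (isUnion (iimage (fun y : α => Dc j y y) (sep M fun x => ∃ m, Y m = x))) := by
    refine (hfin.image hDf).isUnion fun s hs => ?_
    obtain ⟨y, -, rfl⟩ := (mem_iimage hDf).1 hs
    exact fin_Dc hj hD y y
  obtain ⟨k, hk⟩ := hU.sz
  obtain ⟨N₀, hN₀⟩ := h e₀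
  obtain ⟨X, hX, hXb⟩ := exists_big hI (max k N₀)
  obtain ⟨m, hm⟩ := IFin.exists_bound (r := fun (e : α) (m : INat M) => e ∈ T m) (by (repeat' (first | with_reducible exact Int.const _ | with_reducible exact IntF.const _ | with_reducible exact IntF.id | with_reducible exact IntF.fst' | with_reducible exact IntF.snd' | with_reducible assumption | with_reducible apply Int.not | with_reducible apply Int.and | with_reducible apply Int.or | with_reducible apply Int.iff | with_reducible apply Int.ex | with_reducible apply Int.imp | with_reducible apply Int.all | with_reducible apply Int.eq | with_reducible apply Int.ne | with_reducible apply Int.mem | with_reducible apply Int.subset | with_reducible apply Int.ltN | with_reducible apply Int.leN | with_reducible apply Int.fin | with_reducible apply Int.sz | with_reducible apply Int.unique | with_reducible apply IntF.fst | with_reducible apply IntF.snd | with_reducible apply IntF.succ | with_reducible apply IntF.app | with_reducible apply IntF.sep | with_reducible apply IntF.lam | with_reducible apply IntF.the | with_reducible apply IntF.ite | with_reducible apply IntF.insert | with_reducible apply IntF.singleton | with_reducible apply IntF.union | with_reducible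 apply IntF.isUnion | with_reducible apply IntF.iimage | with_reducible_and_instances apply IntF.add | with_reducible_and_instances apply IntF.mul | with_reducible ((refine IntF.comp₂ ?_ ?_ ?_); assumption) | with_reducible ((refine Int.comp₂ ?_ ?_ ?_); assumption) | with_reducible ((refine IntF.comp ?_ ?_); assumption) | with_reducible ((refine Int.comp ?_ ?_); assumption) | with_reducible apply IntF.pair)))
    (fun b c => ⟨max b c, fun e he => by
      rw [hT']
      intro x hx
      rcases he with he | he
      · exact (hT' _ _).1 he x fun h1 => hx (Sz.mono' h1 (le_max_left _ _))
      · exact (hT' _ _).1 he x fun h1 => hx (Sz.mono' h1 (le_max_right _ _))⟩) ⟨0⟩ hX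
    (fun e _ => by
      obtain ⟨m, hm⟩ := h e
      exact ⟨m, (hT' _ _).2 hm⟩)
  obtain ⟨y, hy⟩ := exists_gen j e₀ (hTfin m)
  have hXy : X ⊆ Dc j y y := fun x hx => hy.1 x (by simp [hm x hx])
  have huniq : ∃! y, Gen j (insert e₀ (T m)) y := by
    refine ⟨y, hy, fun y' hy' => ?_⟩
    refine hN₀ y (fun h1 => hXb (Sz.mono' (h1.subset fun x hx => hsub _ _ x (hXy x hx))
      (le_max_right _ _))) y' (subset_antisymm' ?_ ?_)
    · refine Dc_subset (clS_Dc j _ _) (left_mem_Dc j _ _) ?_
      exact hy'.2 _ (clS_Dc j _ _) fun x hx => hsub _ _ x (hy.1 x hx)
    · refine Dc_subset (clS_Dc j _ _) (left_mem_Dc j _ _) ?_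
      exact hy.2 _ (clS_Dc j _ _) fun x hx => hsub _ _ x (hy'.1 x hx)
  have hYm : Y m = y := (hY' m).trans (the_eq huniq hy)
  refine hXb (Sz.mono' (hk.subset fun x hx => ?_) (le_max_left _ _))
  rw [mem_isUnion]
  exact ⟨Dc j y y, (mem_iimage hDf).2 ⟨y, (mem_sep hi).2 ⟨m, hYm⟩, rfl⟩, hXy x hx⟩

end closure

end Pool.Agent.H408Z.Fac
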