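import Pool.Agent.H408Z.Fac.B

/-!
# Periodic points, and the main argument
-/

namespace Pool.Agent.H408Z.Fac

open Pool.Agent.Helper672.ZFA
open FirstOrder FirstOrder.Language

universe u u₁ u₂ u₃

variable {M : Type u} [L.Structure M] [hM : IsModel M]
variable {α : Type u₁} {β : Type u₂} {γ : Type u₃} [ITy M α] [ITy M β] [ITy M γ]

section per

variable (s : IFun M α α)

/-- Iteration. -/
noncomputable def it (n : INat M) (z : α) : α := irec z (fun _ u => s u) n

theorem IntF.it {n : γ → INat M} {z : γ → α} (hn : IntF M n) (hz : IntF M z) :
    IntF M (fun c => it s (n c) (z c)) := by
  unfold Fac.it
  refine IntF.irec hz ?_ hn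
  (repeat' (first | with_reducible exact Int.const _ | with_reducible exact IntF.const _ | with_reducible exact IntF.id | with_reducible exact IntF.fst' | with_reducible exact IntF.snd' | with_reducible assumption | with_reducible apply Int.not | with_reducible apply Int.and | with_reducible apply Int.or | with_reducible apply Int.iff | with_reducible apply Int.ex | with_reducible apply Int.imp | with_reducible apply Int.all | with_reducible apply Int.eq | with_reducible apply Int.ne | with_reducible apply Int.mem | with_reducible apply Int.subset | with_reducible apply Int.ltN | with_reducible apply Int.leN | with_reducible apply Int.fin | with_reducible apply Int.sz | with_reducible apply Int.unique | with_reducible apply IntF.fst | with_reducible apply IntF.snd | with_reducible apply IntF.succ | with_reducible apply IntF.app | with_reducible apply IntF.sep | with_reducible apply IntF.lam | with_reducible apply IntF.the | with_reducible apply IntF.ite | with_reducible apply IntF.insert | with_reducible apply IntF.singleton | with_reducible apply IntF.union | with_reducible apply IntF.isUnion | with_reducible apply IntF.iimage | with_reducible_and_instances apply IntF.add | with_reducible_and_instances apply IntF.mul | with_reducible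 ((refine IntF.comp₂ ?_ ?_ ?_); assumption) | with_reducible ((refine Int.comp₂ ?_ ?_ ?_); assumption) | with_reducible ((refine IntF.comp ?_ ?_); assumption) | with_reducible ((refine Int.comp ?_ ?_); assumption) | with_reducible apply IntF.pair))

theorem it_zero (z : α) : it s 0 z = z := irec_zero (f := fun _ u => s u) (by (repeat' (first | with_reducible exact Int.const _ | with_reducible exact IntF.const _ | with_reducible exact IntF.id | with_reducible exact IntF.fst' | with_reducible exact IntF.snd' | with_reducible assumption | with_reducible apply Int.not | with_reducible apply Int.and | with_reducible apply Int.or | with_reducible apply Int.iff | with_reducible apply Int.ex | with_reducible apply Int.imp | with_reducible apply Int.all | with_reducible apply Int.eq | with_reducible apply Int.ne | with_reducible apply Int.mem | with_reducible apply Int.subset | with_reducible apply Int.ltN | with_reducible apply Int.leN | with_reducible apply Int.fin | with_reducible apply Int.sz | with_reducible apply Int.unique | with_reducible apply IntF.fst | with_reducible apply IntF.snd | with_reducible apply IntF.succ | with_reducible apply IntF.app | with_reducible apply IntF.sep | with_reducible apply IntF.lam | with_reducible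 apply IntF.the | with_reducible apply IntF.ite | with_reducible apply IntF.insert | with_reducible apply IntF.singleton | with_reducible apply IntF.union | with_reducible apply IntF.isUnion | with_reducible apply IntF.iimage | with_reducible_and_instances apply IntF.add | with_reducible_and_instances apply IntF.mul | with_reducible ((refine IntF.comp₂ ?_ ?_ ?_); assumption) | with_reducible ((refine Int.comp₂ ?_ ?_ ?_); assumption) | with_reducible ((refine IntF.comp ?_ ?_); assumption) | with_reducible ((refine Int.comp ?_ ?_); assumption) | with_reducible apply IntF.pair)))

theorem it_succ (n : INat M) (z : α) : it s n.succ z = s (it s n z) :=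
  irec_succ (f := fun _ u => s u) (by (repeat' (first | with_reducible exact Int.const _ | with_reducible exact IntF.const _ | with_reducible exact IntF.id | with_reducible exact IntF.fst' | with_reducible exact IntF.snd' | with_reducible assumption | with_reducible apply Int.not | with_reducible apply Int.and | with_reducible apply Int.or | with_reducible apply Int.iff | with_reducible apply Int.ex | with_reducible apply Int.imp | with_reducible apply Int.all | with_reducible apply Int.eq | with_reducible apply Int.ne | with_reducible apply Int.mem | with_reducible apply Int.subset | with_reducible apply Int.ltN | with_reducible apply Int.leN | with_reducible apply Int.fin | with_reducible apply Int.sz | with_reducible apply Int.unique | with_reducible apply IntF.fst | with_reducible apply IntF.snd | with_reducible apply IntF.succ | with_reducible apply IntF.app | with_reducible apply IntF.sep | with_reducible apply IntF.lam | with_reducible apply IntF.the | with_reducible apply IntF.ite | with_reducible apply IntF.insert | with_reducible apply IntF.singleton | with_reducible apply IntF.union | with_reducible apply IntF.isUnion | with_reducible apply IntF.iimage | with_reducible_and_instances apply IntF.add | with_reducible_and_instances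 apply IntF.mul | with_reducible ((refine IntF.comp₂ ?_ ?_ ?_); assumption) | with_reducible ((refine Int.comp₂ ?_ ?_ ?_); assumption) | with_reducible ((refine IntF.comp ?_ ?_); assumption) | with_reducible ((refine Int.comp ?_ ?_); assumption) | with_reducible apply IntF.pair))) n

theorem it_comm (n : INat M) (z : α) : it s n (s z) = s (it s n z) := by
  refine INat.ind (p := fun n : INat M => it s n (s z) = s (it s n z)) (by (repeat' (first | with_reducible exact Int.const _ | with_reducible exact IntF.const _ | with_reducible exact IntF.id | with_reducible exact IntF.fst' | with_reducible exact IntF.snd' | with_reducible assumption | with_reducible apply IntF.it | with_reducible apply Int.not | with_reducible apply Int.and | with_reducible apply Int.or | with_reducible apply Int.iff | with_reducible apply Int.ex | with_reducible apply Int.imp | with_reducible apply Int.all | with_reducible apply Int.eq | with_reducible apply Int.ne | with_reducible apply Int.mem | with_reducible apply Int.subset | with_reducible apply Int.ltN | with_reducible apply Int.leN | with_reducible apply Int.fin | with_reducible apply Int.sz | with_reducible apply Int.unique | with_reducible apply IntF.fst | with_reducible apply IntF.snd | with_reducible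 apply IntF.succ | with_reducible apply IntF.app | with_reducible apply IntF.sep | with_reducible apply IntF.lam | with_reducible apply IntF.the | with_reducible apply IntF.ite | with_reducible apply IntF.insert | with_reducible apply IntF.singleton | with_reducible apply IntF.union | with_reducible apply IntF.isUnion | with_reducible apply IntF.iimage | with_reducible_and_instances apply IntF.add | with_reducible_and_instances apply IntF.mul | with_reducible ((refine IntF.comp₂ ?_ ?_ ?_); assumption) | with_reducible ((refine Int.comp₂ ?_ ?_ ?_); assumption) | with_reducible ((refine IntF.comp ?_ ?_); assumption) | with_reducible ((refine Int.comp ?_ ?_); assumption) | with_reducible apply IntF.pair))) ?_ ?_ n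
  · rw [it_zero, it_zero]
  · intro n ih
    rw [it_succ, it_succ, ih]

/-- Periodic points. -/
def Per (y : α) : Prop := ∃ n : INat M, it s n.succ y = y

theorem Int.Per {y : γ → α} (hy : IntF M y) : Int M (fun c => Per s (y c)) := by
  unfold Fac.Per
  (repeat' (first | with_reducible exact Int.const _ | with_reducible exact IntF.const _ | with_reducible exact IntF.id | with_reducible exact IntF.fst' | with_reducible exact IntF.snd' | with_reducible assumption | with_reducible apply IntF.it | with_reducible apply Int.not | with_reducible apply Int.and | with_reducible apply Int.or | with_reducible apply Int.iff | with_reducible apply Int.ex | with_reducible apply Int.imp | with_reducible apply Int.all | with_reducible apply Int.eq | with_reducible apply Int.ne | with_reducible apply Int.mem | with_reducible apply Int.subset | with_reducible apply Int.ltN | with_reducible apply Int.leN | with_reducible apply Int.fin | with_reducible apply Int.sz | with_reducible apply Int.unique | with_reducible apply IntF.fst | with_reducible apply IntF.snd | with_reducible apply IntF.succ | with_reducible apply IntF.app | with_reducible apply IntF.sep | with_reducible apply IntF.lam | with_reducible apply IntF.the | with_reducible apply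 IntF.ite | with_reducible apply IntF.insert | with_reducible apply IntF.singleton | with_reducible apply IntF.union | with_reducible apply IntF.isUnion | with_reducible apply IntF.iimage | with_reducible_and_instances apply IntF.add | with_reducible_and_instances apply IntF.mul | with_reducible ((refine IntF.comp₂ ?_ ?_ ?_); assumption) | with_reducible ((refine Int.comp₂ ?_ ?_ ?_); assumption) | with_reducible ((refine IntF.comp ?_ ?_); assumption) | with_reducible ((refine Int.comp ?_ ?_); assumption) | with_reducible apply IntF.pair))

variable {s} in
theorem Per.app {y : α} (h : Per s y) : Per s (s y) := by
  obtain ⟨n, hn⟩ := h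
  exact ⟨n, by rw [it_comm, hn]⟩

variable {s} in
theorem Per.surj {y : α} (h : Per s y) : ∃ z, Per s z ∧ s z = y := by
  have h1 : ∀ n, Per s (it s n y) := by
    refine INat.ind (p := fun n : INat M => Per s (it s n y)) (by (repeat' (first | with_reducible exact Int.const _ | with_reducible exact IntF.const _ | with_reducible exact IntF.id | with_reducible exact IntF.fst' | with_reducible exact IntF.snd' | with_reducible assumption | with_reducible apply IntF.it | with_reducible apply Int.Per | with_reducible apply Int.not | with_reducible apply Int.and | with_reducible apply Int.or | with_reducible apply Int.iff | with_reducible apply Int.ex | with_reducible apply Int.imp | with_reducible apply Int.all | with_reducible apply Int.eq | with_reducible apply Int.ne | with_reducible apply Int.mem | with_reducible apply Int.subset | with_reducible apply Int.ltN | with_reducible apply Int.leN | with_reducible apply Int.fin | with_reducible apply Int.sz | with_reducible apply Int.unique | with_reducible apply IntF.fst | with_reducible apply IntF.snd | with_reducible apply IntF.succ | with_reducible apply IntF.app | with_reducible apply IntF.sep | with_reducible apply IntF.lam | with_reducible apply IntF.the | with_reducible apply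 IntF.ite | with_reducible apply IntF.insert | with_reducible apply IntF.singleton | with_reducible apply IntF.union | with_reducible apply IntF.isUnion | with_reducible apply IntF.iimage | with_reducible_and_instances apply IntF.add | with_reducible_and_instances apply IntF.mul | with_reducible ((refine IntF.comp₂ ?_ ?_ ?_); assumption) | with_reducible ((refine Int.comp₂ ?_ ?_ ?_); assumption) | with_reducible ((refine IntF.comp ?_ ?_); assumption) | with_reducible ((refine Int.comp ?_ ?_); assumption) | with_reducible apply IntF.pair))) ?_ ?_
    · rwa [it_zero]
    · intro n ih
      rw [it_succ]
      exact ih.app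
  obtain ⟨n, hn⟩ := h
  exact ⟨it s n y, h1 n, by rw [← it_succ, hn]⟩

theorem per_aux {y y' w : α} {n : INat M} (h1 : s y = w) (h2 : it s n w = y)
    (h3 : ∀ m, it s m w = y' → n ≤ m) (h4 : ∃ m, it s m w = y') : y' = y := by
  have key : ∀ k, ∃ m, m ≤ n ∧ it s k w = it s m w := by
    refine INat.ind (p := fun k : INat M => ∃ m, m ≤ n ∧ it s k w = it s m w)
      (by (repeat' (first | with_reducible exact Int.const _ | with_reducible exact IntF.const _ | with_reducible exact IntF.id | with_reducible exact IntF.fst' | with_reducible exact IntF.snd' | with_reducible assumption | with_reducible apply IntF.it | with_reducible apply Int.not | with_reducible apply Int.and | with_reducible apply Int.or | with_reducible apply Int.iff | with_reducible apply Int.ex | with_reducible apply Int.imp | with_reducible apply Int.all | with_reducible apply Int.eq | with_reducible apply Int.ne | with_reducible apply Int.mem | with_reducible apply Int.subset | with_reducible apply Int.ltN | with_reducible apply Int.leN | with_reducible apply Int.fin | with_reducible apply Int.sz | with_reducible apply Int.unique | with_reducible apply IntF.fst | with_reducible apply IntF.snd | with_reducible apply IntF.succ | with_reducible apply IntF.app |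 with_reducible apply IntF.sep | with_reducible apply IntF.lam | with_reducible apply IntF.the | with_reducible apply IntF.ite | with_reducible apply IntF.insert | with_reducible apply IntF.singleton | with_reducible apply IntF.union | with_reducible apply IntF.isUnion | with_reducible apply IntF.iimage | with_reducible_and_instances apply IntF.add | with_reducible_and_instances apply IntF.mul | with_reducible ((refine IntF.comp₂ ?_ ?_ ?_); assumption) | with_reducible ((refine Int.comp₂ ?_ ?_ ?_); assumption) | with_reducible ((refine IntF.comp ?_ ?_); assumption) | with_reducible ((refine Int.comp ?_ ?_); assumption) | with_reducible apply IntF.pair))) ⟨0, INat.zero_le n, rfl⟩ ?_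
    rintro k ⟨m, hm, h5⟩
    rcases hm.lt_or_eq with hm | rfl
    · exact ⟨m.succ, INat.succ_le_iff.2 hm, by rw [it_succ, it_succ, h5]⟩
    · exact ⟨0, INat.zero_le _, by rw [it_succ, h5, h2, h1, it_zero]⟩
  obtain ⟨k, hk⟩ := h4
  obtain ⟨m, hm, h5⟩ := key k
  rw [hk] at h5
  have h6 : m = n := le_antisymm hm (h3 m h5.symm)
  rw [h5, h6, h2]

variable {s} in
theorem Per.inj {y y' : α} (h : Per s y) (h' : Per s y') (hs : s y = s y') : y = y' := by
  have h1 : ∃ n, it s n (s y) = y := by
    obtain ⟨n, hn⟩ := h
    exact ⟨n, by rw [it_comm, ← it_succ, hn]⟩
  have h2 : ∃ n, it s n (s y) = y' := by
    obtain ⟨n, hn⟩ := h'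
    exact ⟨n, by rw [hs, it_comm, ← it_succ, hn]⟩
  obtain ⟨n, hn, h3⟩ := INat.exists_least
    (p := fun n : INat M => it s n (s y) = y ∨ it s n (s y) = y') (by (repeat' (first | with_reducible exact Int.const _ | with_reducible exact IntF.const _ | with_reducible exact IntF.id | with_reducible exact IntF.fst' | with_reducible exact IntF.snd' | with_reducible assumption | with_reducible apply IntF.it | with_reducible apply Int.not | with_reducible apply Int.and | with_reducible apply Int.or | with_reducible apply Int.iff | with_reducible apply Int.ex | with_reducible apply Int.imp | with_reducible apply Int.all | with_reducible apply Int.eq | with_reducible apply Int.ne | with_reducible apply Int.mem | with_reducible apply Int.subset | with_reducible apply Int.ltN | with_reducible apply Int.leN | with_reducible apply Int.fin | with_reducible apply Int.sz | with_reducible apply Int.unique | with_reducible apply IntF.fst | with_reducible apply IntF.snd | with_reducible apply IntF.succ | with_reducible apply IntF.app | with_reducible apply IntF.sep | with_reducible apply IntF.lam | with_reducible apply IntF.the | with_reducible apply IntF.ite | with_reducible apply IntF.insert | with_reducible apply IntF.singleton | with_reducible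 apply IntF.union | with_reducible apply IntF.isUnion | with_reducible apply IntF.iimage | with_reducible_and_instances apply IntF.add | with_reducible_and_instances apply IntF.mul | with_reducible ((refine IntF.comp₂ ?_ ?_ ?_); assumption) | with_reducible ((refine Int.comp₂ ?_ ?_ ?_); assumption) | with_reducible ((refine IntF.comp ?_ ?_); assumption) | with_reducible ((refine Int.comp ?_ ?_); assumption) | with_reducible apply IntF.pair)))
    (h1.imp fun _ h => Or.inl h)
  rcases hn with hn | hn
  · exact (per_aux s rfl hn (fun m hm => h3 m (Or.inr hm)) h2).symm
  · exact per_aux s hs.symm hn (fun m hm => h3 m (Or.inl hm)) h1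

theorem exists_per {C : IPow M α} (hC : IFin C) (hne : ∃ x, x ∈ C)
    (hs : ∀ x, x ∈ C → s x ∈ C) : ∃ y, y ∈ C ∧ Per s y := by
  obtain ⟨z, hz, h⟩ := IFin.exists_min
    (lt := fun a b : α => (∀ n, ∃ m, it s n a = it s m b) ∧ ¬ ∀ n, ∃ m, it s n b = it s m a)
    (by (repeat' (first | with_reducible exact Int.const _ | with_reducible exact IntF.const _ | with_reducible exact IntF.id | with_reducible exact IntF.fst' | with_reducible exact IntF.snd' | with_reducible assumption | with_reducible apply IntF.it | with_reducible apply Int.not | with_reducible apply Int.and | with_reducible apply Int.or | with_reducible apply Int.iff | with_reducible apply Int.ex | with_reducible apply Int.imp | with_reducible apply Int.all | with_reducible apply Int.eq | with_reducible apply Int.ne | with_reducible apply Int.mem | with_reducible apply Int.subset | with_reducible apply Int.ltN | with_reducible apply Int.leN | with_reducible apply Int.fin | with_reducible apply Int.sz | with_reducible apply Int.unique | with_reducible apply IntF.fst | with_reducible apply IntF.snd | with_reducible apply IntF.succ | with_reducible apply IntF.app | with_reducible apply IntF.sep | with_reducible apply IntF.lam | with_reducible apply IntF.the | with_reducible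 apply IntF.ite | with_reducible apply IntF.insert | with_reducible apply IntF.singleton | with_reducible apply IntF.union | with_reducible apply IntF.isUnion | with_reducible apply IntF.iimage | with_reducible_and_instances apply IntF.add | with_reducible_and_instances apply IntF.mul | with_reducible ((refine IntF.comp₂ ?_ ?_ ?_); assumption) | with_reducible ((refine Int.comp₂ ?_ ?_ ?_); assumption) | with_reducible ((refine IntF.comp ?_ ?_); assumption) | with_reducible ((refine Int.comp ?_ ?_); assumption) | with_reducible apply IntF.pair))) (fun a h => h.2 h.1) (fun a b c h1 h2 => ⟨fun n => by
      obtain ⟨m, hm⟩ := h1.1 n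
      obtain ⟨k, hk⟩ := h2.1 m
      exact ⟨k, hm.trans hk⟩, fun h3 => h2.2 fun n => by
      obtain ⟨m, hm⟩ := h3 n
      obtain ⟨k, hk⟩ := h1.1 m
      exact ⟨k, hm.trans hk⟩⟩) hC hne
  refine ⟨z, hz, ?_⟩
  by_contra h1
  refine h (s z) (hs z hz) ⟨fun n => ⟨n.succ, by rw [it_comm, it_succ]⟩, fun h2 => h1 ?_⟩
  obtain ⟨m, hm⟩ := h2 0
  rw [it_zero, it_comm, ← it_succ] at hm
  exact ⟨m, hm.symm⟩

open Classical in
/-- Many permutations from a map with many finite invariant sets without fixed points. -/
theorem exists_perms {r : α → INat M} (hr : IntF M r) (hrs : ∀ y, r (s y) = r y)
    (hub : ∀ k, ∃ y, k ≤ r y ∧ Per s y ∧ s y ≠ y) :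
    ∃ P : IPow M (INat M) → IFun M α α, IntF M P ∧ Function.Injective P ∧
      ∀ Z, Function.Bijective (P Z) := by
  obtain ⟨ρ, hρ, hρi, hU⟩ := exists_enum (M := M)
    (U := fun m => ∃ y, r y = m ∧ Per s y ∧ s y ≠ y) (by (repeat' (first | with_reducible exact Int.const _ | with_reducible exact IntF.const _ | with_reducible exact IntF.id | with_reducible exact IntF.fst' | with_reducible exact IntF.snd' | with_reducible assumption | with_reducible apply Int.Per | with_reducible apply Int.not | with_reducible apply Int.and | with_reducible apply Int.or | with_reducible apply Int.iff | with_reducible apply Int.ex | with_reducible apply Int.imp | with_reducible apply Int.all | with_reducible apply Int.eq | with_reducible apply Int.ne | with_reducible apply Int.mem | with_reducible apply Int.subset | with_reducible apply Int.ltN | with_reducible apply Int.leN | with_reducible apply Int.fin | with_reducible apply Int.sz | with_reducible apply Int.unique | with_reducible apply IntF.fst | with_reducible apply IntF.snd | with_reducible apply IntF.succ | with_reducible apply IntF.app | with_reducible apply IntF.sep | with_reducible apply IntF.lam | with_reducible apply IntF.the | with_reducible apply IntF.ite | with_reducible apply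 IntF.insert | with_reducible apply IntF.singleton | with_reducible apply IntF.union | with_reducible apply IntF.isUnion | with_reducible apply IntF.iimage | with_reducible_and_instances apply IntF.add | with_reducible_and_instances apply IntF.mul | with_reducible ((refine IntF.comp₂ ?_ ?_ ?_); assumption) | with_reducible ((refine Int.comp₂ ?_ ?_ ?_); assumption) | with_reducible ((refine IntF.comp ?_ ?_); assumption) | with_reducible ((refine Int.comp ?_ ?_); assumption) | with_reducible apply IntF.pair))) (fun k => by
      obtain ⟨y, h1, h2⟩ := hub k
      exact ⟨r y, h1, y, rfl, h2⟩)
  let P : IPow M (INat M) → IFun M α α := fun Z =>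
    lam M fun y => if Per s y ∧ ∃ n, n ∈ Z ∧ ρ n = r y then s y else y
  have hP : IntF M P := by
    unfold P
    (repeat' (first | with_reducible exact Int.const _ | with_reducible exact IntF.const _ | with_reducible exact IntF.id | with_reducible exact IntF.fst' | with_reducible exact IntF.snd' | with_reducible assumption | with_reducible apply Int.Per | with_reducible apply Int.not | with_reducible apply Int.and | with_reducible apply Int.or | with_reducible apply Int.iff | with_reducible apply Int.ex | with_reducible apply Int.imp | with_reducible apply Int.all | with_reducible apply Int.eq | with_reducible apply Int.ne | with_reducible apply Int.mem | with_reducible apply Int.subset | with_reducible apply Int.ltN | with_reducible apply Int.leN | with_reducible apply Int.fin | with_reducible apply Int.sz | with_reducible apply Int.unique | with_reducible apply IntF.fst | with_reducible apply IntF.snd | with_reducible apply IntF.succ | with_reducible apply IntF.app | with_reducible apply IntF.sep | with_reducible apply IntF.lam | with_reducible apply IntF.the | with_reducible apply IntF.ite | with_reducible apply IntF.insert | with_reducible apply IntF.singleton | with_reducible apply IntF.union | with_reducible apply IntF.isUnion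 | with_reducible apply IntF.iimage | with_reducible_and_instances apply IntF.add | with_reducible_and_instances apply IntF.mul | with_reducible ((refine IntF.comp₂ ?_ ?_ ?_); assumption) | with_reducible ((refine Int.comp₂ ?_ ?_ ?_); assumption) | with_reducible ((refine IntF.comp ?_ ?_); assumption) | with_reducible ((refine Int.comp ?_ ?_); assumption) | with_reducible apply IntF.pair))
  have hP' : ∀ Z y, P Z y = if Per s y ∧ ∃ n, n ∈ Z ∧ ρ n = r y then s y else y := by
    intro Z y
    unfold P
    rw [lam_apply (by (repeat' (first | with_reducible exact Int.const _ | with_reducible exact IntF.const _ | with_reducible exact IntF.id | with_reducible exact IntF.fst' | with_reducible exact IntF.snd' | with_reducible assumption | with_reducible apply Int.Per | with_reducible apply Int.not | with_reducible apply Int.and | with_reducible apply Int.or | with_reducible apply Int.iff | with_reducible apply Int.ex | with_reducible apply Int.imp | with_reducible apply Int.all | with_reducible apply Int.eq | with_reducible apply Int.ne | with_reducible apply Int.mem | with_reducible apply Int.subset | with_reducible apply Int.ltN | with_reducible apply Int.leN | with_reducible apply Int.fin | with_reducible apply Int.sz | with_reducible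 apply Int.unique | with_reducible apply IntF.fst | with_reducible apply IntF.snd | with_reducible apply IntF.succ | with_reducible apply IntF.app | with_reducible apply IntF.sep | with_reducible apply IntF.lam | with_reducible apply IntF.the | with_reducible apply IntF.ite | with_reducible apply IntF.insert | with_reducible apply IntF.singleton | with_reducible apply IntF.union | with_reducible apply IntF.isUnion | with_reducible apply IntF.iimage | with_reducible_and_instances apply IntF.add | with_reducible_and_instances apply IntF.mul | with_reducible ((refine IntF.comp₂ ?_ ?_ ?_); assumption) | with_reducible ((refine Int.comp₂ ?_ ?_ ?_); assumption) | with_reducible ((refine IntF.comp ?_ ?_); assumption) | with_reducible ((refine Int.comp ?_ ?_); assumption) | with_reducible apply IntF.pair)))]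
  clear_value P
  have hsub : ∀ Z Z', P Z = P Z' → ∀ n, n ∈ Z → n ∈ Z' := by
    intro Z Z' h n hn
    obtain ⟨y, h1, h2, h3⟩ := hU n
    have h4 : P Z y = s y := by
      rw [hP', if_pos ⟨h2, n, hn, h1.symm⟩]
    rw [h, hP'] at h4
    by_contra h5
    rw [if_neg] at h4
    · exact h3 h4.symm
    · rintro ⟨-, n', h6, h7⟩
      rw [h1] at h7
      exact h5 (hρi h7 ▸ h6)
  refine ⟨P, hP, fun Z Z' h => IPow.ext' fun n => ⟨hsub _ _ h n, hsub _ _ h.symm n⟩,
    fun Z => ⟨fun y y' h => ?_, fun y => ?_⟩⟩
  · rw [hP', hP'] at h
    by_cases h1 : Per s y ∧ ∃ n, n ∈ Z ∧ ρ n = r y <;>
      by_cases h2 : Per s y' ∧ ∃ n, n ∈ Z ∧ ρ n = r y'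
    · rw [if_pos h1, if_pos h2] at h
      exact h1.1.inj h2.1 h
    · rw [if_pos h1, if_neg h2] at h
      refine absurd ⟨h ▸ h1.1.app, ?_⟩ h2
      rw [← h, hrs]
      exact h1.2
    · rw [if_neg h1, if_pos h2] at h
      refine absurd ⟨h.symm ▸ h2.1.app, ?_⟩ h1
      rw [h, hrs]
      exact h2.2
    · rwa [if_neg h1, if_neg h2] at h
  · by_cases h1 : Per s y ∧ ∃ n, n ∈ Z ∧ ρ n = r y
    · obtain ⟨z, h2, h3⟩ := h1.1.surj
      refine ⟨z, ?_⟩
      rw [hP', if_pos, h3]
      refine ⟨h2, ?_⟩
      rw [← hrs z, h3]
      exact h1.2
    · exact ⟨y, by rw [hP', if_neg h1]⟩

end per

/-- If there are large nontrivial classes, then there are many permutations. -/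
theorem caseA {j : IFun M (α × α) (INat M × α)} (hj : Function.Injective j) (hD : ¬ DInf M α)
    (e : α) (h : ∀ m, ∃ x, ¬ Sz m (Dc j e x) ∧ ¬ Triv j e x) :
    ∃ P : IPow M (INat M) → IFun M α α, IntF M P ∧ Function.Injective P ∧
      ∀ Z, Function.Bijective (P Z) := by
  let q : α → α → Prop := fun y x => (x ≠ y ∧ Dc j e x = Dc j e y) ∧
    ∀ x', x' ≠ y ∧ Dc j e x' = Dc j e y → idx j e y x ≤ idx j e y x'
  have hq : Int M (fun c : α × α => q c.1 c.2) := by
    unfold q
    (repeat' (first | with_reducible exact Int.const _ | with_reducible exact IntF.const _ | with_reducible exact IntF.id | with_reducible exact IntF.fst' | with_reducible exact IntF.snd' | with_reducible assumption | with_reducible apply IntF.Dc | with_reducible apply IntF.idx | with_reducible apply Int.not | with_reducible apply Int.and | with_reducible apply Int.or | with_reducible apply Int.iff | with_reducible apply Int.ex | with_reducible apply Int.imp | with_reducible apply Int.all | with_reducible apply Int.eq | with_reducible apply Int.ne | with_reducible apply Int.mem | with_reducible apply Int.subset | with_reducible apply Int.ltN | with_reducible apply Int.leN | with_reducible apply Int.fin | with_reducible apply Int.sz | with_reducible apply Int.unique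 | with_reducible apply IntF.fst | with_reducible apply IntF.snd | with_reducible apply IntF.succ | with_reducible apply IntF.app | with_reducible apply IntF.sep | with_reducible apply IntF.lam | with_reducible apply IntF.the | with_reducible apply IntF.ite | with_reducible apply IntF.insert | with_reducible apply IntF.singleton | with_reducible apply IntF.union | with_reducible apply IntF.isUnion | with_reducible apply IntF.iimage | with_reducible_and_instances apply IntF.add | with_reducible_and_instances apply IntF.mul | with_reducible ((refine IntF.comp₂ ?_ ?_ ?_); assumption) | with_reducible ((refine Int.comp₂ ?_ ?_ ?_); assumption) | with_reducible ((refine IntF.comp ?_ ?_); assumption) | with_reducible ((refine Int.comp ?_ ?_); assumption) | with_reducible apply IntF.pair))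
  have hqu : ∀ y, ¬ Triv j e y → ∃! x, q y x := by
    intro y hy
    unfold Triv at hy
    push Not at hy
    obtain ⟨x, h1, h2⟩ := hy
    obtain ⟨m, ⟨z, h3, h4⟩, h5⟩ := INat.exists_least
      (p := fun m : INat M => ∃ z, (z ≠ y ∧ Dc j e z = Dc j e y) ∧ idx j e y z = m)
      (by (repeat' (first | with_reducible exact Int.const _ | with_reducible exact IntF.const _ | with_reducible exact IntF.id | with_reducible exact IntF.fst' | with_reducible exact IntF.snd' | with_reducible assumption | with_reducible apply IntF.Dc | with_reducible apply IntF.idx | with_reducible apply Int.not | with_reducible apply Int.and | with_reducible apply Int.or | with_reducible apply Int.iff | with_reducible apply Int.ex | with_reducible apply Int.imp | with_reducible apply Int.all | with_reducible apply Int.eq | with_reducible apply Int.ne | with_reducible apply Int.mem | with_reducible apply Int.subset | with_reducible apply Int.ltN | with_reducible apply Int.leN | with_reducible apply Int.fin | with_reducible apply Int.sz | with_reducible apply Int.unique | with_reducible apply IntF.fst | with_reducible apply IntF.snd | with_reducible apply IntF.succ | with_reducible apply IntF.app | with_reducible apply IntF.sep | with_reducible apply IntF.lam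 | with_reducible apply IntF.the | with_reducible apply IntF.ite | with_reducible apply IntF.insert | with_reducible apply IntF.singleton | with_reducible apply IntF.union | with_reducible apply IntF.isUnion | with_reducible apply IntF.iimage | with_reducible_and_instances apply IntF.add | with_reducible_and_instances apply IntF.mul | with_reducible ((refine IntF.comp₂ ?_ ?_ ?_); assumption) | with_reducible ((refine Int.comp₂ ?_ ?_ ?_); assumption) | with_reducible ((refine IntF.comp ?_ ?_); assumption) | with_reducible ((refine Int.comp ?_ ?_); assumption) | with_reducible apply IntF.pair))) ⟨_, x, ⟨h2, h1⟩, rfl⟩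
    have h6 : q y z := ⟨h3, fun x' hx' => h4 ▸ h5 _ ⟨x', hx', rfl⟩⟩
    refine ⟨z, h6, fun w hw => ?_⟩
    refine idx_inj hj (e := e) (y := y) ?_ ?_ (le_antisymm (hw.2 z h3) (h6.2 w hw.1))
    · rw [← hw.1.2]
      exact right_mem_Dc j e w
    · rw [← h3.2]
      exact right_mem_Dc j e z
  have hqD : ∀ y x, q y x → x ≠ y ∧ Dc j e x = Dc j e y := fun y x h => h.1
  clear_value q
  have hs : IntF M (fun y => the (q y) y) := by (repeat' (first | with_reducible exact Int.const _ | with_reducible exact IntF.const _ | with_reducible exact IntF.id | with_reducible exact IntF.fst' | with_reducible exact IntF.snd' | with_reducible assumption | with_reducible apply Int.not | with_reducible apply Int.and | with_reducible apply Int.or | with_reducible apply Int.iff | with_reducible apply Int.ex | with_reducible apply Int.imp | with_reducible apply Int.all | with_reducible apply Int.eq | with_reducible apply Int.ne | with_reducible apply Int.mem | with_reducible apply Int.subset | with_reducible apply Int.ltN | with_reducible apply Int.leN | with_reducible apply Int.fin | with_reducible apply Int.sz | with_reducible apply Int.unique | with_reducible apply IntF.fst | with_reducible apply IntF.snd | with_reducible apply IntF.succ | with_reducible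 apply IntF.app | with_reducible apply IntF.sep | with_reducible apply IntF.lam | with_reducible apply IntF.the | with_reducible apply IntF.ite | with_reducible apply IntF.insert | with_reducible apply IntF.singleton | with_reducible apply IntF.union | with_reducible apply IntF.isUnion | with_reducible apply IntF.iimage | with_reducible_and_instances apply IntF.add | with_reducible_and_instances apply IntF.mul | with_reducible ((refine IntF.comp₂ ?_ ?_ ?_); assumption) | with_reducible ((refine Int.comp₂ ?_ ?_ ?_); assumption) | with_reducible ((refine IntF.comp ?_ ?_); assumption) | with_reducible ((refine Int.comp ?_ ?_); assumption) | with_reducible apply IntF.pair))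
  let s : IFun M α α := ⟨fun y => the (q y) y, hs⟩
  have hs1 : ∀ y, Dc j e (s y) = Dc j e y := by
    intro y
    by_cases h1 : ∃! x, q y x
    · exact (hqD _ _ (the_spec h1)).2
    · change Dc j e (the (q y) y) = _
      unfold the
      rw [dif_neg h1]
  have hs2 : ∀ y, ¬ Triv j e y → s y ≠ y := fun y hy => (hqD _ _ (the_spec (hqu y hy))).1
  clear_value s
  refine exists_perms s (r := fun y => lst fun m => Sz m (Dc j e y))
    (by (repeat' (first | with_reducible exact Int.const _ | with_reducible exact IntF.const _ | with_reducible exact IntF.id | with_reducible exact IntF.fst' | with_reducible exact IntF.snd' | with_reducible assumption | with_reducible apply IntF.lst | with_reducible apply IntF.Dc | with_reducible apply Int.not | with_reducible apply Int.and | with_reducible apply Int.or | with_reducible apply Int.iff | with_reducible apply Int.ex | with_reducible apply Int.imp | with_reducible apply Int.all | with_reducible apply Int.eq | with_reducible apply Int.ne | with_reducible apply Int.mem | with_reducible apply Int.subset | with_reducible apply Int.ltN | with_reducible apply Int.leN | with_reducible apply Int.fin | with_reducible apply Int.sz | with_reducible apply Int.unique | with_reducible apply IntF.fst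 | with_reducible apply IntF.snd | with_reducible apply IntF.succ | with_reducible apply IntF.app | with_reducible apply IntF.sep | with_reducible apply IntF.lam | with_reducible apply IntF.the | with_reducible apply IntF.ite | with_reducible apply IntF.insert | with_reducible apply IntF.singleton | with_reducible apply IntF.union | with_reducible apply IntF.isUnion | with_reducible apply IntF.iimage | with_reducible_and_instances apply IntF.add | with_reducible_and_instances apply IntF.mul | with_reducible ((refine IntF.comp₂ ?_ ?_ ?_); assumption) | with_reducible ((refine Int.comp₂ ?_ ?_ ?_); assumption) | with_reducible ((refine IntF.comp ?_ ?_); assumption) | with_reducible ((refine Int.comp ?_ ?_); assumption) | with_reducible apply IntF.pair))) (fun y => by simp only [hs1]) fun k => ?_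
  obtain ⟨x, h1, h2⟩ := h k
  have hi : Int M (fun y => Dc j e y = Dc j e x) := by (repeat' (first | with_reducible exact Int.const _ | with_reducible exact IntF.const _ | with_reducible exact IntF.id | with_reducible exact IntF.fst' | with_reducible exact IntF.snd' | with_reducible assumption | with_reducible apply IntF.Dc | with_reducible apply Int.not | with_reducible apply Int.and | with_reducible apply Int.or | with_reducible apply Int.iff | with_reducible apply Int.ex | with_reducible apply Int.imp | with_reducible apply Int.all | with_reducible apply Int.eq | with_reducible apply Int.ne | with_reducible apply Int.mem | with_reducible apply Int.subset | with_reducible apply Int.ltN | with_reducible apply Int.leN | with_reducible apply Int.fin | with_reducible apply Int.sz | with_reducible apply Int.unique | with_reducible apply IntF.fst | with_reducible apply IntF.snd | with_reducible apply IntF.succ | with_reducible apply IntF.app | with_reducible apply IntF.sep | with_reducible apply IntF.lam | with_reducible apply IntF.the | with_reducible apply IntF.ite | with_reducible apply IntF.insert | with_reducible apply IntF.singleton | with_reducible apply IntF.union | with_reducible apply IntF.isUnion | with_reducible apply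 IntF.iimage | with_reducible_and_instances apply IntF.add | with_reducible_and_instances apply IntF.mul | with_reducible ((refine IntF.comp₂ ?_ ?_ ?_); assumption) | with_reducible ((refine Int.comp₂ ?_ ?_ ?_); assumption) | with_reducible ((refine IntF.comp ?_ ?_); assumption) | with_reducible ((refine Int.comp ?_ ?_); assumption) | with_reducible apply IntF.pair))
  obtain ⟨y, h3, h4⟩ := exists_per s (C := sep M fun y => Dc j e y = Dc j e x)
    ((fin_Dc hj hD e x).subset fun y hy => by
      rw [mem_sep hi] at hy
      rw [← hy]
      exact right_mem_Dc j e y) ⟨x, (mem_sep hi).2 rfl⟩ (fun y hy => by
      rw [mem_sep hi] at hy ⊢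
      rw [hs1, hy])
  rw [mem_sep hi] at h3
  refine ⟨y, ?_, h4, hs2 y fun h5 => h2 fun x' hx' => ?_⟩
  · by_contra h5
    have h6 := (lst_spec (p := fun m => Sz m (Dc j e y)) (by (repeat' (first | with_reducible exact Int.const _ | with_reducible exact IntF.const _ | with_reducible exact IntF.id | with_reducible exact IntF.fst' | with_reducible exact IntF.snd' | with_reducible assumption | with_reducible apply Int.not | with_reducible apply Int.and | with_reducible apply Int.or | with_reducible apply Int.iff | with_reducible apply Int.ex | with_reducible apply Int.imp | with_reducible apply Int.all | with_reducible apply Int.eq | with_reducible apply Int.ne | with_reducible apply Int.mem | with_reducible apply Int.subset | with_reducible apply Int.ltN | with_reducible apply Int.leN | with_reducible apply Int.fin | with_reducible apply Int.sz | with_reducible apply Int.unique | with_reducible apply IntF.fst | with_reducible apply IntF.snd | with_reducible apply IntF.succ | with_reducible apply IntF.app | with_reducible apply IntF.sep | with_reducible apply IntF.lam | with_reducible apply IntF.the | with_reducible apply IntF.ite | with_reducible apply IntF.insert | with_reducible apply IntF.singleton | with_reducible apply IntF.union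 | with_reducible apply IntF.isUnion | with_reducible apply IntF.iimage | with_reducible_and_instances apply IntF.add | with_reducible_and_instances apply IntF.mul | with_reducible ((refine IntF.comp₂ ?_ ?_ ?_); assumption) | with_reducible ((refine Int.comp₂ ?_ ?_ ?_); assumption) | with_reducible ((refine IntF.comp ?_ ?_); assumption) | with_reducible ((refine Int.comp ?_ ?_); assumption) | with_reducible apply IntF.pair))) (fin_Dc hj hD e y).sz).1
    rw [← h3] at h1
    exact h1 (Sz.mono' h6 (not_le.1 h5).le)
  · rw [h5 x' (hx'.trans h3.symm), h5 x h3.symm]

open Classical in
/-- Transpositions. -/
noncomputable def sw (a b : α) : IFun M α α :=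
  lam M fun z => if z = a then b else if z = b then a else z

theorem IntF.sw {a b : γ → α} (ha : IntF M a) (hb : IntF M b) :
    IntF M (fun c => (sw (a c) (b c) : IFun M α α)) := by
  unfold Fac.sw
  (repeat' (first | with_reducible exact Int.const _ | with_reducible exact IntF.const _ | with_reducible exact IntF.id | with_reducible exact IntF.fst' | with_reducible exact IntF.snd' | with_reducible assumption | with_reducible apply Int.not | with_reducible apply Int.and | with_reducible apply Int.or | with_reducible apply Int.iff | with_reducible apply Int.ex | with_reducible apply Int.imp | with_reducible apply Int.all | with_reducible apply Int.eq | with_reducible apply Int.ne | with_reducible apply Int.mem | with_reducible apply Int.subset | with_reducible apply Int.ltN | with_reducible apply Int.leN | with_reducible apply Int.fin | with_reducible apply Int.sz | with_reducible apply Int.unique | with_reducible apply IntF.fst | with_reducible apply IntF.snd | with_reducible apply IntF.succ | with_reducible apply IntF.app | with_reducible apply IntF.sep | with_reducible apply IntF.lam | with_reducible apply IntF.the | with_reducible apply IntF.ite | with_reducible apply IntF.insert | with_reducible apply IntF.singleton |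 with_reducible apply IntF.union | with_reducible apply IntF.isUnion | with_reducible apply IntF.iimage | with_reducible_and_instances apply IntF.add | with_reducible_and_instances apply IntF.mul | with_reducible ((refine IntF.comp₂ ?_ ?_ ?_); assumption) | with_reducible ((refine Int.comp₂ ?_ ?_ ?_); assumption) | with_reducible ((refine IntF.comp ?_ ?_); assumption) | with_reducible ((refine Int.comp ?_ ?_); assumption) | with_reducible apply IntF.pair))

open Classical in
theorem sw_apply (a b z : α) : (sw a b : IFun M α α) z = Equiv.swap a b z := by
  unfold sw
  rw [lam_apply (by (repeat' (first | with_reducible exact Int.const _ | with_reducible exact IntF.const _ | with_reducible exact IntF.id | with_reducible exact IntF.fst' | with_reducible exact IntF.snd' | with_reducible assumption | with_reducible apply Int.not | with_reducible apply Int.and | with_reducible apply Int.or | with_reducible apply Int.iff | with_reducible apply Int.ex | with_reducible apply Int.imp | with_reducible apply Int.all | with_reducible apply Int.eq | with_reducible apply Int.ne | with_reducible apply Int.mem | with_reducible apply Int.subset | with_reducible apply Int.ltN | with_reducible apply Int.leN | with_reducible apply Int.fin | with_reducible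 apply Int.sz | with_reducible apply Int.unique | with_reducible apply IntF.fst | with_reducible apply IntF.snd | with_reducible apply IntF.succ | with_reducible apply IntF.app | with_reducible apply IntF.sep | with_reducible apply IntF.lam | with_reducible apply IntF.the | with_reducible apply IntF.ite | with_reducible apply IntF.insert | with_reducible apply IntF.singleton | with_reducible apply IntF.union | with_reducible apply IntF.isUnion | with_reducible apply IntF.iimage | with_reducible_and_instances apply IntF.add | with_reducible_and_instances apply IntF.mul | with_reducible ((refine IntF.comp₂ ?_ ?_ ?_); assumption) | with_reducible ((refine Int.comp₂ ?_ ?_ ?_); assumption) | with_reducible ((refine IntF.comp ?_ ?_); assumption) | with_reducible ((refine Int.comp ?_ ?_); assumption) | with_reducible apply IntF.pair))), Equiv.swap_apply_def]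

open Classical in
theorem sw_bij (a b : α) : Function.Bijective (sw a b : IFun M α α) := by
  have : ((sw a b : IFun M α α) : α → α) = Equiv.swap a b := funext (sw_apply a b)
  rw [this]
  exact (Equiv.swap a b).bijective

open Classical in
/-- The main argument: if the permutations of an infinite type inject into `ω × α`, then `α` is
Dedekind infinite. -/
theorem dinf_of_perm {F : IFun M α α → INat M × α} (hF : IntF M F)
    (hinj : ∀ f g : IFun M α α, Function.Bijective f → Function.Bijective g → F f = F g → f = g)
    (hI : ¬ IFin (iuniv M α)) : DInf M α := by
  by_contra hD
  obtain ⟨b, -⟩ : ∃ a : α, True := by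
    by_contra h1
    exact hI (IFin.empty.subset fun x _ => absurd ⟨x, trivial⟩ h1)
  let tg : α × α → INat M := fun q =>
    if q.2 = b then 0 else if q.1 = q.2 then INat.succ 0 else INat.succ (INat.succ 0)
  let pm : α × α → IFun M α α := fun q =>
    if q.2 = b ∨ q.1 = q.2 then sw b q.1
    else lam M fun z => (sw b q.1 : IFun M α α) ((sw b q.2 : IFun M α α) z)
  have htg : IntF M tg := by
    unfold tg
    (repeat' (first | with_reducible exact Int.const _ | with_reducible exact IntF.const _ | with_reducible exact IntF.id | with_reducible exact IntF.fst' | with_reducible exact IntF.snd' | with_reducible assumption | with_reducible apply Int.not | with_reducible apply Int.and | with_reducible apply Int.or | with_reducible apply Int.iff | with_reducible apply Int.ex | with_reducible apply Int.imp | with_reducible apply Int.all | with_reducible apply Int.eq | with_reducible apply Int.ne | with_reducible apply Int.mem | with_reducible apply Int.subset | with_reducible apply Int.ltN | with_reducible apply Int.leN | with_reducible apply Int.fin | with_reducible apply Int.sz | with_reducible apply Int.unique | with_reducible apply IntF.fst | with_reducible apply IntF.snd | with_reducible apply IntF.succ | with_reducible apply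 IntF.app | with_reducible apply IntF.sep | with_reducible apply IntF.lam | with_reducible apply IntF.the | with_reducible apply IntF.ite | with_reducible apply IntF.insert | with_reducible apply IntF.singleton | with_reducible apply IntF.union | with_reducible apply IntF.isUnion | with_reducible apply IntF.iimage | with_reducible_and_instances apply IntF.add | with_reducible_and_instances apply IntF.mul | with_reducible ((refine IntF.comp₂ ?_ ?_ ?_); assumption) | with_reducible ((refine Int.comp₂ ?_ ?_ ?_); assumption) | with_reducible ((refine IntF.comp ?_ ?_); assumption) | with_reducible ((refine Int.comp ?_ ?_); assumption) | with_reducible apply IntF.pair))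
  have hpm : IntF M pm := by
    unfold pm
    (repeat' (first | with_reducible exact Int.const _ | with_reducible exact IntF.const _ | with_reducible exact IntF.id | with_reducible exact IntF.fst' | with_reducible exact IntF.snd' | with_reducible assumption | with_reducible apply IntF.sw | with_reducible apply Int.not | with_reducible apply Int.and | with_reducible apply Int.or | with_reducible apply Int.iff | with_reducible apply Int.ex | with_reducible apply Int.imp | with_reducible apply Int.all | with_reducible apply Int.eq | with_reducible apply Int.ne | with_reducible apply Int.mem | with_reducible apply Int.subset | with_reducible apply Int.ltN | with_reducible apply Int.leN | with_reducible apply Int.fin | with_reducible apply Int.sz | with_reducible apply Int.unique | with_reducible apply IntF.fst | with_reducible apply IntF.snd | with_reducible apply IntF.succ | with_reducible apply IntF.app | with_reducible apply IntF.sep | with_reducible apply IntF.lam | with_reducible apply IntF.the | with_reducible apply IntF.ite | with_reducible apply IntF.insert | with_reducible apply IntF.singleton | with_reducible apply IntF.union | with_reducible apply IntF.isUnion | with_reducible apply IntF.iimage | with_reducible_and_instances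 apply IntF.add | with_reducible_and_instances apply IntF.mul | with_reducible ((refine IntF.comp₂ ?_ ?_ ?_); assumption) | with_reducible ((refine Int.comp₂ ?_ ?_ ?_); assumption) | with_reducible ((refine IntF.comp ?_ ?_); assumption) | with_reducible ((refine Int.comp ?_ ?_); assumption) | with_reducible apply IntF.pair))
  have hpm1 : ∀ q : α × α, q.2 = b ∨ q.1 = q.2 → pm q = sw b q.1 := fun q h => if_pos h
  have hpm2 : ∀ q : α × α, ¬ (q.2 = b ∨ q.1 = q.2) → ∀ z,
      pm q z = Equiv.swap b q.1 (Equiv.swap b q.2 z) := by
    intro q h z
    have : pm q = lam M fun z => (sw b q.1 : IFun M α α) ((sw b q.2 : IFun M α α) z) := if_neg h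
    rw [this, lam_apply (by (repeat' (first | with_reducible exact Int.const _ | with_reducible exact IntF.const _ | with_reducible exact IntF.id | with_reducible exact IntF.fst' | with_reducible exact IntF.snd' | with_reducible assumption | with_reducible apply Int.not | with_reducible apply Int.and | with_reducible apply Int.or | with_reducible apply Int.iff | with_reducible apply Int.ex | with_reducible apply Int.imp | with_reducible apply Int.all | with_reducible apply Int.eq | with_reducible apply Int.ne | with_reducible apply Int.mem | with_reducible apply Int.subset | with_reducible apply Int.ltN | with_reducible apply Int.leN | with_reducible apply Int.fin | with_reducible apply Int.sz | with_reducible apply Int.unique | with_reducible apply IntF.fst | with_reducible apply IntF.snd | with_reducible apply IntF.succ | with_reducible apply IntF.app | with_reducible apply IntF.sep | with_reducible apply IntF.lam | with_reducible apply IntF.the | with_reducible apply IntF.ite | with_reducible apply IntF.insert | with_reducible apply IntF.singleton | with_reducible apply IntF.union | with_reducible apply IntF.isUnion | with_reducible apply IntF.iimage | with_reducible_and_instances apply IntF.add | with_reducible_and_instances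 apply IntF.mul | with_reducible ((refine IntF.comp₂ ?_ ?_ ?_); assumption) | with_reducible ((refine Int.comp₂ ?_ ?_ ?_); assumption) | with_reducible ((refine IntF.comp ?_ ?_); assumption) | with_reducible ((refine Int.comp ?_ ?_); assumption) | with_reducible apply IntF.pair))), sw_apply, sw_apply]
  have hbij : ∀ q, Function.Bijective (pm q) := by
    intro q
    by_cases h : q.2 = b ∨ q.1 = q.2
    · rw [hpm1 q h]
      exact sw_bij _ _
    · have : (pm q : α → α) = (Equiv.swap b q.2).trans (Equiv.swap b q.1) := funext (hpm2 q h)
      rw [this]
      exact Equiv.bijective _
  have n01 : (0 : INat M) ≠ INat.succ 0 := (INat.succ_ne_zero _).symm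
  have n02 : (0 : INat M) ≠ INat.succ (INat.succ 0) := (INat.succ_ne_zero _).symm
  have n12 : (INat.succ 0 : INat M) ≠ INat.succ (INat.succ 0) := fun h => n01 (INat.succ_inj h)
  have hkey : ∀ q q' : α × α, tg q = tg q' → pm q = pm q' → q = q' := by
    rintro ⟨x, y⟩ ⟨x', y'⟩ h1 h2
    have e1 : (y = b ∨ x = y) → (y' = b ∨ x' = y') → x = x' := by
      intro h3 h4
      rw [hpm1 (x, y) h3, hpm1 (x', y') h4] at h2
      have h5 := congrArg (fun f : IFun M α α => f b) h2
      simpa only [sw_apply, Equiv.swap_apply_left] using h5
    unfold tg at h1
    dsimp only at h1
    by_cases a1 : y = b <;> by_cases a2 : y' = b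
    · rw [e1 (Or.inl a1) (Or.inl a2), a1, a2]
    · rw [if_pos a1, if_neg a2] at h1
      split_ifs at h1
      · exact absurd h1 n01
      · exact absurd h1 n02
    · rw [if_neg a1, if_pos a2] at h1
      split_ifs at h1
      · exact absurd h1.symm n01
      · exact absurd h1.symm n02
    · rw [if_neg a1, if_neg a2] at h1
      by_cases a3 : x = y <;> by_cases a4 : x' = y'
      · have := e1 (Or.inr a3) (Or.inr a4)
        rw [← a3, ← a4, this]
      · rw [if_pos a3, if_neg a4] at h1
        exact absurd h1 n12
      · rw [if_neg a3, if_pos a4] at h1
        exact absurd h1.symm n12
      · have c1 := hpm2 (x, y) (not_or.2 ⟨a1, a3⟩)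
        have c2 := hpm2 (x', y') (not_or.2 ⟨a2, a4⟩)
        have d1 : pm (x, y) b = y := by
          rw [c1, Equiv.swap_apply_left, Equiv.swap_apply_of_ne_of_ne a1 (Ne.symm a3)]
        have d2 : pm (x', y') b = y' := by
          rw [c2, Equiv.swap_apply_left, Equiv.swap_apply_of_ne_of_ne a2 (Ne.symm a4)]
        have d3 : pm (x, y) y = x := by
          rw [c1, Equiv.swap_apply_right, Equiv.swap_apply_left]
        have d4 : pm (x', y') y' = x' := by
          rw [c2, Equiv.swap_apply_right, Equiv.swap_apply_left]
        rw [h2] at d1 d3
        have d5 : y = y' := d1.symm.trans d2
        subst d5
        rw [← d3, d4]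
  clear_value tg pm
  have hj0 : IntF M (fun q : α × α => (pr (tg q) (F (pm q)).1, (F (pm q)).2)) := by
    refine IntF.pair ?_ ?_
    · (repeat' (first | with_reducible exact Int.const _ | with_reducible exact IntF.const _ | with_reducible exact IntF.id | with_reducible exact IntF.fst' | with_reducible exact IntF.snd' | with_reducible assumption | with_reducible apply IntF.pr | with_reducible apply Int.not | with_reducible apply Int.and | with_reducible apply Int.or | with_reducible apply Int.iff | with_reducible apply Int.ex | with_reducible apply Int.imp | with_reducible apply Int.all | with_reducible apply Int.eq | with_reducible apply Int.ne | with_reducible apply Int.mem | with_reducible apply Int.subset | with_reducible apply Int.ltN | with_reducible apply Int.leN | with_reducible apply Int.fin | with_reducible apply Int.sz | with_reducible apply Int.unique | with_reducible apply IntF.fst | with_reducible apply IntF.snd | with_reducible apply IntF.succ | with_reducible apply IntF.app | with_reducible apply IntF.sep | with_reducible apply IntF.lam | with_reducible apply IntF.the | with_reducible apply IntF.ite | with_reducible apply IntF.insert | with_reducible apply IntF.singleton | with_reducible apply IntF.union |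 with_reducible apply IntF.isUnion | with_reducible apply IntF.iimage | with_reducible_and_instances apply IntF.add | with_reducible_and_instances apply IntF.mul | with_reducible ((refine IntF.comp₂ ?_ ?_ ?_); assumption) | with_reducible ((refine Int.comp₂ ?_ ?_ ?_); assumption) | with_reducible ((refine IntF.comp ?_ ?_); assumption) | with_reducible ((refine Int.comp ?_ ?_); assumption) | with_reducible apply IntF.pair))
    · (repeat' (first | with_reducible exact Int.const _ | with_reducible exact IntF.const _ | with_reducible exact IntF.id | with_reducible exact IntF.fst' | with_reducible exact IntF.snd' | with_reducible assumption | with_reducible apply Int.not | with_reducible apply Int.and | with_reducible apply Int.or | with_reducible apply Int.iff | with_reducible apply Int.ex | with_reducible apply Int.imp | with_reducible apply Int.all | with_reducible apply Int.eq | with_reducible apply Int.ne | with_reducible apply Int.mem | with_reducible apply Int.subset | with_reducible apply Int.ltN | with_reducible apply Int.leN | with_reducible apply Int.fin | with_reducible apply Int.sz | with_reducible apply Int.unique | with_reducible apply IntF.fst | with_reducible apply IntF.snd | with_reducible apply IntF.succ | with_reducible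 apply IntF.app | with_reducible apply IntF.sep | with_reducible apply IntF.lam | with_reducible apply IntF.the | with_reducible apply IntF.ite | with_reducible apply IntF.insert | with_reducible apply IntF.singleton | with_reducible apply IntF.union | with_reducible apply IntF.isUnion | with_reducible apply IntF.iimage | with_reducible_and_instances apply IntF.add | with_reducible_and_instances apply IntF.mul | with_reducible ((refine IntF.comp₂ ?_ ?_ ?_); assumption) | with_reducible ((refine Int.comp₂ ?_ ?_ ?_); assumption) | with_reducible ((refine IntF.comp ?_ ?_); assumption) | with_reducible ((refine Int.comp ?_ ?_); assumption) | with_reducible apply IntF.pair))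
  let j : IFun M (α × α) (INat M × α) := ⟨_, hj0⟩
  have hj : Function.Injective j := by
    intro q q' h
    have h1 := pr_inj (congrArg Prod.fst h)
    have h2 : (j q).2 = (j q').2 := congrArg Prod.snd h
    exact hkey q q' h1.1 (hinj _ _ (hbij q) (hbij q') (Prod.ext h1.2 h2))
  by_cases hc : ∀ e, ∃ m, ∀ x, ¬ Sz m (Dc j e x) → Triv j e x
  · exact hD (caseB hj hI hc)
  · push Not at hc
    obtain ⟨e, he⟩ := hc
    obtain ⟨P, hP, hPi, hPb⟩ := caseA hj hD e he
    exact hD (dinf_of_pow (G := fun Z => F (P Z)) (hF.comp hP)
      fun Z Z' h => hPi (hinj _ _ (hPb Z) (hPb Z') h))

open Classical in
/-- If `α` is Dedekind infinite, then `ω × α` injects into the permutations of `α`. -/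
theorem perm_of_dinf (h : DInf M α) :
    ∃ Ψ : INat M × α → IFun M α α, IntF M Ψ ∧ Function.Injective Ψ ∧
      ∀ q, Function.Bijective (Ψ q) := by
  obtain ⟨a, ha, hai⟩ := h
  have n01 : (0 : INat M) ≠ INat.succ 0 := (INat.succ_ne_zero _).symm
  let l : α → α := fun x => the (fun z => ∃ i, a i = x ∧ z = a (pr 0 i)) x
  have hl : IntF M l := by
    unfold l
    (repeat' (first | with_reducible exact Int.const _ | with_reducible exact IntF.const _ | with_reducible exact IntF.id | with_reducible exact IntF.fst' | with_reducible exact IntF.snd' | with_reducible assumption | with_reducible apply IntF.pr | with_reducible apply Int.not | with_reducible apply Int.and | with_reducible apply Int.or | with_reducible apply Int.iff | with_reducible apply Int.ex | with_reducible apply Int.imp | with_reducible apply Int.all | with_reducible apply Int.eq | with_reducible apply Int.ne | with_reducible apply Int.mem | with_reducible apply Int.subset | with_reducible apply Int.ltN | with_reducible apply Int.leN | with_reducible apply Int.fin | with_reducible apply Int.sz | with_reducible apply Int.unique | with_reducible apply IntF.fst | with_reducible apply IntF.snd | with_reducible apply IntF.succ | with_reducible apply IntF.app | with_reducible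 apply IntF.sep | with_reducible apply IntF.lam | with_reducible apply IntF.the | with_reducible apply IntF.ite | with_reducible apply IntF.insert | with_reducible apply IntF.singleton | with_reducible apply IntF.union | with_reducible apply IntF.isUnion | with_reducible apply IntF.iimage | with_reducible_and_instances apply IntF.add | with_reducible_and_instances apply IntF.mul | with_reducible ((refine IntF.comp₂ ?_ ?_ ?_); assumption) | with_reducible ((refine Int.comp₂ ?_ ?_ ?_); assumption) | with_reducible ((refine IntF.comp ?_ ?_); assumption) | with_reducible ((refine Int.comp ?_ ?_); assumption) | with_reducible apply IntF.pair))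
  have hl1 : ∀ i, l (a i) = a (pr 0 i) := by
    intro i
    refine the_eq ⟨a (pr 0 i), ⟨i, rfl, rfl⟩, ?_⟩ ⟨i, rfl, rfl⟩
    rintro z ⟨i', h1, rfl⟩
    rw [hai h1]
  have hl2 : ∀ x, (¬ ∃ i, a i = x) → l x = x := by
    intro x hx
    unfold l the
    rw [dif_neg]
    rintro ⟨z, ⟨i, h1, -⟩, -⟩
    exact hx ⟨i, h1⟩
  clear_value l
  have hli : Function.Injective l := by
    intro x y h
    by_cases h1 : ∃ i, a i = x <;> by_cases h2 : ∃ i, a i = y
    · obtain ⟨i, rfl⟩ := h1
      obtain ⟨i', rfl⟩ := h2
      rw [hl1, hl1] at h
      rw [(pr_inj (hai h)).2]
    · obtain ⟨i, rfl⟩ := h1
      rw [hl1, hl2 y h2] at h
      exact absurd ⟨_, h⟩ h2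
    · obtain ⟨i, rfl⟩ := h2
      rw [hl1, hl2 x h1] at h
      exact absurd ⟨_, h.symm⟩ h1
    · rwa [hl2 x h1, hl2 y h2] at h
  have hlr : ∀ x n, l x ≠ a (pr (INat.succ 0) n) := by
    intro x n h
    by_cases h1 : ∃ i, a i = x
    · obtain ⟨i, rfl⟩ := h1
      rw [hl1] at h
      exact n01 (pr_inj (hai h)).1
    · rw [hl2 x h1] at h
      exact h1 ⟨_, h.symm⟩
  refine ⟨fun q => sw (l q.2) (a (pr (INat.succ 0) q.1)), by (repeat' (first | with_reducible exact Int.const _ | with_reducible exact IntF.const _ | with_reducible exact IntF.id | with_reducible exact IntF.fst' | with_reducible exact IntF.snd' | with_reducible assumption | with_reducible apply IntF.sw | with_reducible apply IntF.pr | with_reducible apply Int.not | with_reducible apply Int.and | with_reducible apply Int.or | with_reducible apply Int.iff | with_reducible apply Int.ex | with_reducible apply Int.imp | with_reducible apply Int.all | with_reducible apply Int.eq | with_reducible apply Int.ne | with_reducible apply Int.mem | with_reducible apply Int.subset | with_reducible apply Int.ltN | with_reducible apply Int.leN | with_reducible apply Int.fin | with_reducible apply Int.sz | with_reducible apply Int.unique | with_reducible apply IntF.fst | with_reducible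 apply IntF.snd | with_reducible apply IntF.succ | with_reducible apply IntF.app | with_reducible apply IntF.sep | with_reducible apply IntF.lam | with_reducible apply IntF.the | with_reducible apply IntF.ite | with_reducible apply IntF.insert | with_reducible apply IntF.singleton | with_reducible apply IntF.union | with_reducible apply IntF.isUnion | with_reducible apply IntF.iimage | with_reducible_and_instances apply IntF.add | with_reducible_and_instances apply IntF.mul | with_reducible ((refine IntF.comp₂ ?_ ?_ ?_); assumption) | with_reducible ((refine Int.comp₂ ?_ ?_ ?_); assumption) | with_reducible ((refine IntF.comp ?_ ?_); assumption) | with_reducible ((refine Int.comp ?_ ?_); assumption) | with_reducible apply IntF.pair)), ?_,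
    fun q => sw_bij _ _⟩
  rintro ⟨n, x⟩ ⟨n', x'⟩ h
  have h1 := congrArg (fun f : IFun M α α => f (l x)) h
  simp only [sw_apply, Equiv.swap_apply_left] at h1
  by_cases h2 : l x = l x'
  · rw [h2, Equiv.swap_apply_left] at h1
    rw [hli h2, (pr_inj (hai h1)).2]
  · rw [Equiv.swap_apply_of_ne_of_ne h2 (hlr _ _)] at h1
    exact absurd h1.symm (hlr _ _)

end Pool.Agent.H408Z.Fac
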