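import Pool.Agent.Helper672.SIK.Plain

/-!
# Cardinal comparison inside a model of set theory

All notions below are first order: they only quantify over the elements of the structure `M`.
-/

namespace Pool.Agent.H408Z.Fac.Card

open Pool.Agent.Helper672.Plain

universe u

variable {M : Type u} [LSet.Structure M]

/-- The ordered pair `(x, y)` is an element of `f`. -/
def Maps (f x y : M) : Prop := ∃ p, IsOrdPair p x y ∧ Mem p f

/-- `f` is a function from `a` to `b`: a set of pairs in `a × b` such that every `x` in `a` has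
exactly one value. -/
def IsFun (f a b : M) : Prop :=
  (∀ p, Mem p f → ∃ x y, Mem x a ∧ Mem y b ∧ IsOrdPair p x y) ∧
    ∀ x, Mem x a → ∃! y, Maps f x y

/-- `f` is an injection from `a` to `b`. -/
def IsInj (f a b : M) : Prop := IsFun f a b ∧ ∀ x x' y, Maps f x y → Maps f x' y → x = x'

/-- `f` is a bijection from `a` onto `b`. -/
def IsBij (f a b : M) : Prop := IsInj f a b ∧ ∀ y, Mem y b → ∃ x, Maps f x y

/-- `|a| ≤ |b|`: there is an injection from `a` to `b`. -/
def CardLe (a b : M) : Prop := ∃ f, IsInj f a b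

/-- `|a| < |b|`: `|a| ≤ |b|` and not `|b| ≤ |a|`. -/
def CardLt (a b : M) : Prop := CardLe a b ∧ ¬ CardLe b a

/-- `i` is inductive: it contains the empty set and with every `n` the set `n ∪ {n}`. -/
def IsInductive (i : M) : Prop :=
  (∃ e, Mem e i ∧ ∀ z, ¬ Mem z e) ∧ ∀ n, Mem n i → ∃ s, Mem s i ∧ ∀ z, Mem z s ↔ Mem z n ∨ z = n

/-- `w` is `ω`, the intersection of all inductive sets. -/
def IsOmega (w : M) : Prop := ∀ n, Mem n w ↔ ∀ i, IsInductive i → Mem n i

/-- `p` is the cartesian product `a × b`. -/
def IsProd (p a b : M) : Prop := ∀ z, Mem z p ↔ ∃ x y, Mem x a ∧ Mem y b ∧ IsOrdPair z x y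

/-- `s` is `Sym(a)`, the set of all bijections from `a` onto `a`. -/
def IsSym (s a : M) : Prop := ∀ f, Mem f s ↔ IsBij f a a

/-- `a` is infinite: it is not in bijection with any natural number (element of `w = ω`). -/
def IsInfinite (w a : M) : Prop := ¬ ∃ n f, Mem n w ∧ IsBij f a n

end Pool.Agent.H408Z.Fac.Card
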