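import Pool.Agent.H408Z.Fac.C
import Pool.Agent.H408Z.Fac.Defs

/-!
# From internal types to the elements of the model
-/

namespace Pool.Agent.H408Z.Fac

open Pool.Agent.Helper672.ZFA
open FirstOrder FirstOrder.Language

universe u u₁ u₂ u₃

section

variable {M : Type u} [L.Structure M] [hM : IsModel M]
variable {α : Type u₁} {β : Type u₂} {γ : Type u₃} [ITy M α] [ITy M β] [ITy M γ]

theorem mem_code_fun {g : IFun M α β} {z : M} :
    Mem z (code (M := M) g) ↔ ∃ x, z = op (code x) (code (g x)) := by
  refine (mem_code_pow (s := g.graph) (z := z)).trans ⟨?_, ?_⟩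
  · rintro ⟨⟨x, y⟩, h1, rfl⟩
    have h2 : g x = y := h1
    exact ⟨x, by rw [h2]; rfl⟩
  · rintro ⟨x, rfl⟩
    exact ⟨(x, g x), rfl, rfl⟩

theorem mem_nat (n : INat M) : ∀ z : M, Mem z n.val → ∃ m : INat M, m.val = z := by
  refine INat.ind (p := fun n : INat M => ∀ z : M, Mem z n.val → ∃ m : INat M, m.val = z) ?_ ?_ ?_ n
  · refine Int.of_D (S := fun v => ∀ z : M, Mem z (v 0) → Mem z (dom M (INat M))) ?_ fun a => ?_
    · exact D.all (D.imp (D.memf (DF.var _) (DF.var _)) (D.memf (DF.var _) (DF.const _)))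
    · exact forall_congr' fun z => imp_congr Iff.rfl mem_dom
  · intro z hz
    exact absurd hz INat.not_mem_zero
  · intro n ih z hz
    rcases INat.mem_succ.1 hz with hz | rfl
    · exact ih z hz
    · exact ⟨n, rfl⟩

open Classical in
theorem exists_count {s : IPow M α} (hs : IFin s) : ∃ n : INat M, ∃ c : IFun M α (INat M),
    (∀ x, x ∈ s → c x < n) ∧ (∀ x y, x ∈ s → y ∈ s → c x = c y → x = y) ∧
      ∀ m, m < n → ∃ x, x ∈ s ∧ c x = m := by
  refine IFin.ind (p := fun s : IPow M α => ∃ n : INat M, ∃ c : IFun M α (INat M),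
    (∀ x, x ∈ s → c x < n) ∧ (∀ x y, x ∈ s → y ∈ s → c x = c y → x = y) ∧
      ∀ m, m < n → ∃ x, x ∈ s ∧ c x = m) (by (repeat' (first | with_reducible exact Int.const _ | with_reducible exact IntF.const _ | with_reducible exact IntF.id | with_reducible exact IntF.fst' | with_reducible exact IntF.snd' | with_reducible assumption | with_reducible apply Int.not | with_reducible apply Int.and | with_reducible apply Int.or | with_reducible apply Int.iff | with_reducible apply Int.ex | with_reducible apply Int.imp | with_reducible apply Int.all | with_reducible apply Int.eq | with_reducible apply Int.ne | with_reducible apply Int.mem | with_reducible apply Int.subset | with_reducible apply Int.ltN | with_reducible apply Int.leN | with_reducible apply Int.fin | with_reducible apply Int.sz | with_reducible apply Int.unique | with_reducible apply IntF.fst | with_reducible apply IntF.snd | with_reducible apply IntF.succ | with_reducible apply IntF.app | with_reducible apply IntF.sep | with_reducible apply IntF.lam |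 with_reducible apply IntF.the | with_reducible apply IntF.ite | with_reducible apply IntF.insert | with_reducible apply IntF.singleton | with_reducible apply IntF.union | with_reducible apply IntF.isUnion | with_reducible apply IntF.iimage | with_reducible_and_instances apply IntF.add | with_reducible_and_instances apply IntF.mul | with_reducible ((refine IntF.comp₂ ?_ ?_ ?_); assumption) | with_reducible ((refine Int.comp₂ ?_ ?_ ?_); assumption) | with_reducible ((refine IntF.comp ?_ ?_); assumption) | with_reducible ((refine Int.comp ?_ ?_); assumption) | with_reducible apply IntF.pair))) ?_ ?_ s hs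
  · exact ⟨0, ⟨fun _ => 0, IntF.const _⟩, fun x hx => absurd hx (by simp),
      fun x y hx => absurd hx (by simp), fun m hm => absurd hm INat.not_lt_zero⟩
  · rintro s a - ha ⟨n, f, h1, h2, h3⟩
    have hg : IntF M (fun x : α => if x = a then n else f x) := by (repeat' (first | with_reducible exact Int.const _ | with_reducible exact IntF.const _ | with_reducible exact IntF.id | with_reducible exact IntF.fst' | with_reducible exact IntF.snd' | with_reducible assumption | with_reducible apply Int.not | with_reducible apply Int.and | with_reducible apply Int.or | with_reducible apply Int.iff | with_reducible apply Int.ex | with_reducible apply Int.imp | with_reducible apply Int.all | with_reducible apply Int.eq | with_reducible apply Int.ne | with_reducible apply Int.mem | with_reducible apply Int.subset | with_reducible apply Int.ltN | with_reducible apply Int.leN | with_reducible apply Int.fin | with_reducible apply Int.sz | with_reducible apply Int.unique | with_reducible apply IntF.fst | with_reducible apply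 IntF.snd | with_reducible apply IntF.succ | with_reducible apply IntF.app | with_reducible apply IntF.sep | with_reducible apply IntF.lam | with_reducible apply IntF.the | with_reducible apply IntF.ite | with_reducible apply IntF.insert | with_reducible apply IntF.singleton | with_reducible apply IntF.union | with_reducible apply IntF.isUnion | with_reducible apply IntF.iimage | with_reducible_and_instances apply IntF.add | with_reducible_and_instances apply IntF.mul | with_reducible ((refine IntF.comp₂ ?_ ?_ ?_); assumption) | with_reducible ((refine Int.comp₂ ?_ ?_ ?_); assumption) | with_reducible ((refine IntF.comp ?_ ?_); assumption) | with_reducible ((refine Int.comp ?_ ?_); assumption) | with_reducible apply IntF.pair))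
    refine ⟨n.succ, ⟨_, hg⟩, fun x hx => ?_, fun x y hx hy h => ?_, fun m hm => ?_⟩
    · dsimp only
      by_cases h4 : x = a
      · rw [if_pos h4]
        exact INat.lt_succ_self n
      · rw [if_neg h4]
        exact (h1 x ((mem_insert.1 hx).resolve_left h4)).trans (INat.lt_succ_self n)
    · dsimp only at h
      by_cases h4 : x = a <;> by_cases h5 : y = a
      · rw [h4, h5]
      · rw [if_pos h4, if_neg h5] at h
        exact absurd h (h1 y ((mem_insert.1 hy).resolve_left h5)).ne'
      · rw [if_neg h4, if_pos h5] at h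
        exact absurd h (h1 x ((mem_insert.1 hx).resolve_left h4)).ne
      · rw [if_neg h4, if_neg h5] at h
        exact h2 x y ((mem_insert.1 hx).resolve_left h4) ((mem_insert.1 hy).resolve_left h5) h
    · rcases INat.lt_succ_iff'.1 hm with hm | rfl
      · obtain ⟨x, hx, h4⟩ := h3 m hm
        refine ⟨x, mem_insert.2 (Or.inr hx), ?_⟩
        dsimp only
        rw [if_neg fun h5 : x = a => ha (h5 ▸ hx), h4]
      · exact ⟨a, mem_insert.2 (Or.inl rfl), if_pos rfl⟩

end

open Pool.Agent.Helper672 Card

variable {M : Type u} [Plain.LSet.Structure M]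

attribute [local instance] Plain.toL

theorem ordPair_iff [IsModel M] {p x y : M} : Plain.IsOrdPair p x y ↔ p = op x y :=
  Plain.isOrdPair_toL.symm.trans isOrdPair_iff_op

theorem maps_iff [IsModel M] {f x y : M} : Maps f x y ↔ Mem (op x y) f :=
  ⟨fun ⟨_, h1, h2⟩ => ordPair_iff.1 h1 ▸ h2, fun h => ⟨_, ordPair_iff.2 rfl, h⟩⟩

theorem maps_code [IsModel M] {α β : Type u} [ITy M α] [ITy M β] {g : IFun M α β} {x y : M} :
    Maps (code (M := M) g) x y ↔ ∃ a, x = code a ∧ y = code (g a) := by
  rw [maps_iff, mem_code_fun]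
  exact ⟨fun ⟨a, h⟩ => ⟨a, op_inj h⟩, fun ⟨a, h1, h2⟩ => ⟨a, by rw [h1, h2]⟩⟩

theorem isInj_code [IsModel M] {α β : Type u} [ITy M α] [ITy M β] {g : IFun M α β} {a b : M}
    (ha : ∀ z, Plain.Mem z a ↔ ∃ x : α, code x = z) (hb : ∀ x, Plain.Mem (code (g x)) b)
    (hg : Function.Injective g) : IsInj (code (M := M) g) a b := by
  refine ⟨⟨fun p hp => ?_, fun z hz => ?_⟩, fun x x' y h1 h2 => ?_⟩
  · obtain ⟨x, rfl⟩ := (mem_code_fun (g := g) (z := p)).1 hp
    exact ⟨_, _, (ha _).2 ⟨x, rfl⟩, hb x, ordPair_iff.2 rfl⟩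
  · obtain ⟨x, rfl⟩ := (ha z).1 hz
    refine ⟨code (g x), maps_code.2 ⟨x, rfl, rfl⟩, fun y hy => ?_⟩
    obtain ⟨x', h1, rfl⟩ := maps_code.1 hy
    rw [ITy.inj h1]
  · obtain ⟨a, rfl, h3⟩ := maps_code.1 h1
    obtain ⟨a', rfl, h4⟩ := maps_code.1 h2
    rw [hg (ITy.inj (h3.symm.trans h4))]

/-- In a model of Zermelo set theory, if `a` is infinite and `Sym(a)` injects into `ω × a`, then
`ω × a` injects into `Sym(a)`. -/
theorem main [Plain.Zermelo M] {w a p s : M} (hw : IsOmega w) (hp : IsProd p w a)
    (hs : IsSym s a) (ha : IsInfinite w a) (h : CardLe s p) : CardLe p s := by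
  have hM : IsModel M := Plain.isModel_toL
  have hw' : ∀ z, Plain.Mem z w ↔ ∃ n : INat M, code n = z := by
    intro z
    rw [hw]
    constructor
    · intro h1
      refine ⟨⟨z, fun i hi => h1 i ⟨?_, fun n hn => ?_⟩⟩, rfl⟩
      · obtain ⟨e, h2, -, h3⟩ := hi.1
        exact ⟨e, h2, h3⟩
      · obtain ⟨t, h2, -, h3⟩ := hi.2 n hn
        exact ⟨t, h2, h3⟩
    · rintro ⟨n, rfl⟩ i hi
      refine n.prop i ⟨?_, fun n hn => ?_⟩
      · obtain ⟨e, h2, h3⟩ := hi.1
        exact ⟨e, h2, trivial, h3⟩
      · obtain ⟨t, h2, h3⟩ := hi.2 n hn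
        exact ⟨t, h2, trivial, h3⟩
  have ha' : ∀ z, Plain.Mem z a ↔ ∃ x : El a, code x = z :=
    fun z => ⟨fun h1 => ⟨⟨z, h1⟩, rfl⟩, fun ⟨x, h1⟩ => h1 ▸ x.2⟩
  have hp' : ∀ z, Plain.Mem z p ↔ ∃ q : INat M × El a, code q = z := by
    intro z
    rw [hp]
    constructor
    · rintro ⟨x, y, h1, h2, h3⟩
      obtain ⟨n, rfl⟩ := (hw' x).1 h1
      obtain ⟨b, rfl⟩ := (ha' y).1 h2
      exact ⟨(n, b), (ordPair_iff.1 h3).symm⟩
    · rintro ⟨⟨n, b⟩, rfl⟩
      exact ⟨_, _, (hw' _).2 ⟨n, rfl⟩, (ha' _).2 ⟨b, rfl⟩, ordPair_iff.2 rfl⟩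
  have hs' : ∀ g : IFun M (El a) (El a), Function.Bijective g → Plain.Mem (code g) s := by
    intro g hg
    rw [hs]
    refine ⟨isInj_code ha' (fun x => (ha' _).2 ⟨_, rfl⟩) hg.1, fun y hy => ?_⟩
    obtain ⟨b, rfl⟩ := (ha' y).1 hy
    obtain ⟨x, rfl⟩ := hg.2 b
    exact ⟨code x, maps_code.2 ⟨x, rfl, rfl⟩⟩
  have hI : ¬ IFin (iuniv M (El a)) := by
    intro h1
    obtain ⟨n, c, h2, h3, h4⟩ := exists_count h1
    refine ha ⟨n.val, code c, (hw' _).2 ⟨n, rfl⟩,
      isInj_code ha' (fun x => h2 x (by simp)) (fun x y => h3 x y (by simp) (by simp)),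
      fun y hy => ?_⟩
    obtain ⟨m, rfl⟩ := mem_nat n y hy
    obtain ⟨x, -, rfl⟩ := h4 m hy
    exact ⟨code x, maps_code.2 ⟨x, rfl, rfl⟩⟩
  obtain ⟨b, -⟩ : ∃ b : El a, True := by
    by_contra h1
    exact hI (IFin.empty.subset fun x _ => absurd ⟨x, trivial⟩ h1)
  obtain ⟨φ, hφ, hφi⟩ := h
  have hR : Int M (fun q : IFun M (El a) (El a) × (INat M × El a) =>
      Mem (op (code q.1) (code q.2)) φ) := ⟨φ, fun _ => Iff.rfl⟩
  have hu : ∀ g : IFun M (El a) (El a), Function.Bijective g →
      ∃! q : INat M × El a, Mem (op (code g) (code q)) φ := by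
    intro g hg
    obtain ⟨y, h1, h2⟩ := hφ.2 _ (hs' g hg)
    obtain ⟨x, y', -, h3, h4⟩ := hφ.1 _ (maps_iff.1 h1)
    obtain ⟨-, rfl⟩ := op_inj (ordPair_iff.1 h4)
    obtain ⟨q, rfl⟩ := (hp' _).1 h3
    exact ⟨q, maps_iff.1 h1, fun q' hq' => ITy.inj (h2 _ (maps_iff.2 hq'))⟩
  have hD : DInf M (El a) := by
    refine dinf_of_perm (F := fun g => the (fun q : INat M × El a =>
      Mem (op (code g) (code q)) φ) (0, b)) (IntF.the hR (IntF.const _)) ?_ hI
    intro f g hf hg h1
    have h2 := the_spec (d := (0, b)) (hu f hf)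
    have h3 := the_spec (d := (0, b)) (hu g hg)
    rw [h1] at h2
    exact ITy.inj (hφi _ _ _ (maps_iff.2 h2) (maps_iff.2 h3))
  obtain ⟨Ψ, h1, h2, h3⟩ := perm_of_dinf hD
  exact ⟨code (⟨Ψ, h1⟩ : IFun M (INat M × El a) (IFun M (El a) (El a))),
    isInj_code hp' (fun q => hs' _ (h3 q)) h2⟩

end Pool.Agent.H408Z.Fac
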