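import Pool.Agent.H408Z.Fac.Defs

/-!
# Power sets and finite-to-one functions inside a model of set theory
-/

namespace Pool.Agent.H408Z.Fac.Card

open Pool.Agent.Helper672.Plain

universe u

variable {M : Type u} [LSet.Structure M]

/-- `q` is the power set of `a`. -/
def IsPowerSet (q a : M) : Prop := ∀ z, Mem z q ↔ ∀ x, Mem x z → Mem x a

/-- `t` is finite: it is in bijection with a natural number (an element of `w = ω`). -/
def IsFinite (w t : M) : Prop := ∃ n f, Mem n w ∧ IsBij f t n

/-- `g` is a finite-to-one function from `s` to `a`: a function such that for every `y` in `a` the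
preimage `t = g⁻¹({y})` is finite. -/
def IsFinToOne (w g s a : M) : Prop :=
  IsFun g s a ∧ ∀ y t, Mem y a → (∀ x, Mem x t ↔ Maps g x y) → IsFinite w t

end Pool.Agent.H408Z.Fac.Card
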