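import Pool.Agent.H408Z.Fac.D

/-!
# Finite-to-one maps from the permutations
-/

namespace Pool.Agent.H408Z.Fac

open Pool.Agent.Helper672.ZFA
open FirstOrder FirstOrder.Language

universe u u₁ u₂ u₃

variable {M : Type u} [L.Structure M] [hM : IsModel M]
variable {α : Type u₁} {β : Type u₂} {γ : Type u₃} [ITy M α] [ITy M β] [ITy M γ]

open Classical in
theorem exists_pm (b : α) : ∃ (tg : α × α → INat M) (pm : α × α → IFun M α α),
    IntF M tg ∧ IntF M pm ∧ (∀ q, Function.Bijective (pm q)) ∧
      ∀ q q' : α × α, tg q = tg q' → pm q = pm q' → q = q' := by
  let tg : α × α → INat M := fun q =>
    if q.2 = b then 0 else if q.1 = q.2 then INat.succ 0 else INat.succ (INat.succ 0)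
  let pm : α × α → IFun M α α := fun q =>
    if q.2 = b ∨ q.1 = q.2 then sw b q.1
    else lam M fun z => (sw b q.1 : IFun M α α) ((sw b q.2 : IFun M α α) z)
  have htg : IntF M tg := by
    unfold tg
    (repeat' (first | with_reducible exact Int.const _ | with_reducible exact IntF.const _ | with_reducible exact IntF.id | with_reducible exact IntF.fst' | with_reducible exact IntF.snd' | with_reducible assumption | with_reducible apply Int.not | with_reducible apply Int.and | with_reducible apply Int.or | with_reducible apply Int.iff | with_reducible apply Int.ex | with_reducible apply Int.imp | with_reducible apply Int.all | with_reducible apply Int.eq | with_reducible apply Int.ne | with_reducible apply Int.mem | with_reducible apply Int.subset | with_reducible apply Int.ltN | with_reducible apply Int.leN | with_reducible apply Int.fin | with_reducible apply Int.sz | with_reducible apply Int.unique | with_reducible apply IntF.fst | with_reducible apply IntF.snd | with_reducible apply IntF.succ | with_reducible apply IntF.app | with_reducible apply IntF.sep | with_reducible apply IntF.lam | with_reducible apply IntF.the | with_reducible apply IntF.ite | with_reducible apply IntF.insert | with_reducible apply IntF.singleton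 | with_reducible apply IntF.union | with_reducible apply IntF.isUnion | with_reducible apply IntF.iimage | with_reducible_and_instances apply IntF.add | with_reducible_and_instances apply IntF.mul | with_reducible ((refine IntF.comp₂ ?_ ?_ ?_); assumption) | with_reducible ((refine Int.comp₂ ?_ ?_ ?_); assumption) | with_reducible ((refine IntF.comp ?_ ?_); assumption) | with_reducible ((refine Int.comp ?_ ?_); assumption) | with_reducible apply IntF.pair))
  have hpm : IntF M pm := by
    unfold pm
    (repeat' (first | with_reducible exact Int.const _ | with_reducible exact IntF.const _ | with_reducible exact IntF.id | with_reducible exact IntF.fst' | with_reducible exact IntF.snd' | with_reducible assumption | with_reducible apply IntF.sw | with_reducible apply Int.not | with_reducible apply Int.and | with_reducible apply Int.or | with_reducible apply Int.iff | with_reducible apply Int.ex | with_reducible apply Int.imp | with_reducible apply Int.all | with_reducible apply Int.eq | with_reducible apply Int.ne | with_reducible apply Int.mem | with_reducible apply Int.subset | with_reducible apply Int.ltN | with_reducible apply Int.leN | with_reducible apply Int.fin | with_reducible apply Int.sz | with_reducible apply Int.unique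 | with_reducible apply IntF.fst | with_reducible apply IntF.snd | with_reducible apply IntF.succ | with_reducible apply IntF.app | with_reducible apply IntF.sep | with_reducible apply IntF.lam | with_reducible apply IntF.the | with_reducible apply IntF.ite | with_reducible apply IntF.insert | with_reducible apply IntF.singleton | with_reducible apply IntF.union | with_reducible apply IntF.isUnion | with_reducible apply IntF.iimage | with_reducible_and_instances apply IntF.add | with_reducible_and_instances apply IntF.mul | with_reducible ((refine IntF.comp₂ ?_ ?_ ?_); assumption) | with_reducible ((refine Int.comp₂ ?_ ?_ ?_); assumption) | with_reducible ((refine IntF.comp ?_ ?_); assumption) | with_reducible ((refine Int.comp ?_ ?_); assumption) | with_reducible apply IntF.pair))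
  have hpm1 : ∀ q : α × α, q.2 = b ∨ q.1 = q.2 → pm q = sw b q.1 := fun q h => if_pos h
  have hpm2 : ∀ q : α × α, ¬ (q.2 = b ∨ q.1 = q.2) → ∀ z,
      pm q z = Equiv.swap b q.1 (Equiv.swap b q.2 z) := by
    intro q h z
    have : pm q = lam M fun z => (sw b q.1 : IFun M α α) ((sw b q.2 : IFun M α α) z) := if_neg h
    rw [this, lam_apply (by (repeat' (first | with_reducible exact Int.const _ | with_reducible exact IntF.const _ | with_reducible exact IntF.id | with_reducible exact IntF.fst' | with_reducible exact IntF.snd' | with_reducible assumption | with_reducible apply Int.not | with_reducible apply Int.and | with_reducible apply Int.or | with_reducible apply Int.iff | with_reducible apply Int.ex | with_reducible apply Int.imp | with_reducible apply Int.all | with_reducible apply Int.eq | with_reducible apply Int.ne | with_reducible apply Int.mem | with_reducible apply Int.subset | with_reducible apply Int.ltN | with_reducible apply Int.leN | with_reducible apply Int.fin | with_reducible apply Int.sz | with_reducible apply Int.unique | with_reducible apply IntF.fst | with_reducible apply IntF.snd | with_reducible apply IntF.succ | with_reducible apply IntF.app | with_reducible apply IntF.sep | with_reducible apply IntF.lam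 | with_reducible apply IntF.the | with_reducible apply IntF.ite | with_reducible apply IntF.insert | with_reducible apply IntF.singleton | with_reducible apply IntF.union | with_reducible apply IntF.isUnion | with_reducible apply IntF.iimage | with_reducible_and_instances apply IntF.add | with_reducible_and_instances apply IntF.mul | with_reducible ((refine IntF.comp₂ ?_ ?_ ?_); assumption) | with_reducible ((refine Int.comp₂ ?_ ?_ ?_); assumption) | with_reducible ((refine IntF.comp ?_ ?_); assumption) | with_reducible ((refine Int.comp ?_ ?_); assumption) | with_reducible apply IntF.pair))), sw_apply, sw_apply]
  have hbij : ∀ q, Function.Bijective (pm q) := by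
    intro q
    by_cases h : q.2 = b ∨ q.1 = q.2
    · rw [hpm1 q h]
      exact sw_bij _ _
    · have : (pm q : α → α) = (Equiv.swap b q.2).trans (Equiv.swap b q.1) := funext (hpm2 q h)
      rw [this]
      exact Equiv.bijective _
  have n01 : (0 : INat M) ≠ INat.succ 0 := (INat.succ_ne_zero _).symm
  have n02 : (0 : INat M) ≠ INat.succ (INat.succ 0) := (INat.succ_ne_zero _).symm
  have n12 : (INat.succ 0 : INat M) ≠ INat.succ (INat.succ 0) := fun h => n01 (INat.succ_inj h)
  have hkey : ∀ q q' : α × α, tg q = tg q' → pm q = pm q' → q = q' := by
    rintro ⟨x, y⟩ ⟨x', y'⟩ h1 h2
    have e1 : (y = b ∨ x = y) → (y' = b ∨ x' = y') → x = x' := by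
      intro h3 h4
      rw [hpm1 (x, y) h3, hpm1 (x', y') h4] at h2
      have h5 := congrArg (fun f : IFun M α α => f b) h2
      simpa only [sw_apply, Equiv.swap_apply_left] using h5
    unfold tg at h1
    dsimp only at h1
    by_cases a1 : y = b <;> by_cases a2 : y' = b
    · rw [e1 (Or.inl a1) (Or.inl a2), a1, a2]
    · rw [if_pos a1, if_neg a2] at h1
      split_ifs at h1
      · exact absurd h1 n01
      · exact absurd h1 n02
    · rw [if_neg a1, if_pos a2] at h1
      split_ifs at h1
      · exact absurd h1.symm n01
      · exact absurd h1.symm n02
    · rw [if_neg a1, if_neg a2] at h1
      by_cases a3 : x = y <;> by_cases a4 : x' = y'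
      · have := e1 (Or.inr a3) (Or.inr a4)
        rw [← a3, ← a4, this]
      · rw [if_pos a3, if_neg a4] at h1
        exact absurd h1 n12
      · rw [if_neg a3, if_pos a4] at h1
        exact absurd h1.symm n12
      · have c1 := hpm2 (x, y) (not_or.2 ⟨a1, a3⟩)
        have c2 := hpm2 (x', y') (not_or.2 ⟨a2, a4⟩)
        have d1 : pm (x, y) b = y := by
          rw [c1, Equiv.swap_apply_left, Equiv.swap_apply_of_ne_of_ne a1 (Ne.symm a3)]
        have d2 : pm (x', y') b = y' := by
          rw [c2, Equiv.swap_apply_left, Equiv.swap_apply_of_ne_of_ne a2 (Ne.symm a4)]
        have d3 : pm (x, y) y = x := by
          rw [c1, Equiv.swap_apply_right, Equiv.swap_apply_left]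
        have d4 : pm (x', y') y' = x' := by
          rw [c2, Equiv.swap_apply_right, Equiv.swap_apply_left]
        rw [h2] at d1 d3
        have d5 : y = y' := d1.symm.trans d2
        subst d5
        rw [← d3, d4]
  exact ⟨tg, pm, htg, hpm, hbij, hkey⟩

theorem Int.bij {f : γ → IFun M α β} (hf : IntF M f) :
    Int M (fun c => Function.Bijective (f c)) := by
  have h : Int M (fun c => (∀ x y, f c x = f c y → x = y) ∧ ∀ y, ∃ x, f c x = y) := by (repeat' (first | with_reducible exact Int.const _ | with_reducible exact IntF.const _ | with_reducible exact IntF.id | with_reducible exact IntF.fst' | with_reducible exact IntF.snd' | with_reducible assumption | with_reducible apply Int.not | with_reducible apply Int.and | with_reducible apply Int.or | with_reducible apply Int.iff | with_reducible apply Int.ex | with_reducible apply Int.imp | with_reducible apply Int.all | with_reducible apply Int.eq | with_reducible apply Int.ne | with_reducible apply Int.mem | with_reducible apply Int.subset | with_reducible apply Int.ltN | with_reducible apply Int.leN | with_reducible apply Int.fin | with_reducible apply Int.sz | with_reducible apply Int.unique | with_reducible apply IntF.fst | with_reducible apply IntF.snd | with_reducible apply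 IntF.succ | with_reducible apply IntF.app | with_reducible apply IntF.sep | with_reducible apply IntF.lam | with_reducible apply IntF.the | with_reducible apply IntF.ite | with_reducible apply IntF.insert | with_reducible apply IntF.singleton | with_reducible apply IntF.union | with_reducible apply IntF.isUnion | with_reducible apply IntF.iimage | with_reducible_and_instances apply IntF.add | with_reducible_and_instances apply IntF.mul | with_reducible ((refine IntF.comp₂ ?_ ?_ ?_); assumption) | with_reducible ((refine Int.comp₂ ?_ ?_ ?_); assumption) | with_reducible ((refine IntF.comp ?_ ?_); assumption) | with_reducible ((refine Int.comp ?_ ?_); assumption) | with_reducible apply IntF.pair))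
  exact h

theorem fin_of_inj {S : IPow M α} {T : IPow M β} (hT : IFin T) {φ : α → β} (hφ : IntF M φ)
    (h1 : ∀ x, x ∈ S → φ x ∈ T) (h2 : ∀ x y, x ∈ S → y ∈ S → φ x = φ y → x = y) : IFin S := by
  obtain ⟨n, f, h3, h4⟩ := hT.sz
  have hf : IntF M (fun x => f (φ x)) := by (repeat' (first | with_reducible exact Int.const _ | with_reducible exact IntF.const _ | with_reducible exact IntF.id | with_reducible exact IntF.fst' | with_reducible exact IntF.snd' | with_reducible assumption | with_reducible apply Int.not | with_reducible apply Int.and | with_reducible apply Int.or | with_reducible apply Int.iff | with_reducible apply Int.ex | with_reducible apply Int.imp | with_reducible apply Int.all | with_reducible apply Int.eq | with_reducible apply Int.ne | with_reducible apply Int.mem | with_reducible apply Int.subset | with_reducible apply Int.ltN | with_reducible apply Int.leN | with_reducible apply Int.fin | with_reducible apply Int.sz | with_reducible apply Int.unique | with_reducible apply IntF.fst | with_reducible apply IntF.snd | with_reducible apply IntF.succ | with_reducible apply IntF.app | with_reducible apply IntF.sep | with_reducible apply IntF.lam | with_reducible apply IntF.the | with_reducible apply IntF.ite | with_reducible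 apply IntF.insert | with_reducible apply IntF.singleton | with_reducible apply IntF.union | with_reducible apply IntF.isUnion | with_reducible apply IntF.iimage | with_reducible_and_instances apply IntF.add | with_reducible_and_instances apply IntF.mul | with_reducible ((refine IntF.comp₂ ?_ ?_ ?_); assumption) | with_reducible ((refine Int.comp₂ ?_ ?_ ?_); assumption) | with_reducible ((refine IntF.comp ?_ ?_); assumption) | with_reducible ((refine Int.comp ?_ ?_); assumption) | with_reducible apply IntF.pair))
  exact Sz.fin (n := n) ⟨⟨_, hf⟩, fun x hx => h3 _ (h1 x hx),
    fun x y hx hy h => h2 x y hx hy (h4 _ _ (h1 x hx) (h1 y hy) h)⟩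

theorem not_fin_nat : ¬ IFin (iuniv M (INat M)) := by
  intro h
  obtain ⟨b, hb⟩ := IFin.exists_bound (r := fun a b : INat M => a < b) (by (repeat' (first | with_reducible exact Int.const _ | with_reducible exact IntF.const _ | with_reducible exact IntF.id | with_reducible exact IntF.fst' | with_reducible exact IntF.snd' | with_reducible assumption | with_reducible apply Int.not | with_reducible apply Int.and | with_reducible apply Int.or | with_reducible apply Int.iff | with_reducible apply Int.ex | with_reducible apply Int.imp | with_reducible apply Int.all | with_reducible apply Int.eq | with_reducible apply Int.ne | with_reducible apply Int.mem | with_reducible apply Int.subset | with_reducible apply Int.ltN | with_reducible apply Int.leN | with_reducible apply Int.fin | with_reducible apply Int.sz | with_reducible apply Int.unique | with_reducible apply IntF.fst | with_reducible apply IntF.snd | with_reducible apply IntF.succ | with_reducible apply IntF.app | with_reducible apply IntF.sep | with_reducible apply IntF.lam | with_reducible apply IntF.the | with_reducible apply IntF.ite | with_reducible apply IntF.insert | with_reducible apply IntF.singleton | with_reducible apply IntF.union | with_reducible apply IntF.isUnion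 | with_reducible apply IntF.iimage | with_reducible_and_instances apply IntF.add | with_reducible_and_instances apply IntF.mul | with_reducible ((refine IntF.comp₂ ?_ ?_ ?_); assumption) | with_reducible ((refine Int.comp₂ ?_ ?_ ?_); assumption) | with_reducible ((refine IntF.comp ?_ ?_); assumption) | with_reducible ((refine Int.comp ?_ ?_); assumption) | with_reducible apply IntF.pair)))
    (fun b c => ⟨max b c, fun a ha => ha.elim (fun h => h.trans_le (le_max_left _ _))
      fun h => h.trans_le (le_max_right _ _)⟩) ⟨0⟩ h fun a _ => ⟨a.succ, INat.lt_succ_self a⟩
  exact lt_irrefl b (hb b (by simp))

theorem exists_not_mem {c : INat M → α} (hc : IntF M c) (hi : Function.Injective c)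
    {T : IPow M α} (hT : IFin T) : ∃ n, ¬ c n ∈ T := by
  by_contra h
  push Not at h
  exact not_fin_nat (fin_of_inj hT hc (fun x _ => h x) fun x y _ _ h1 => hi h1)

/-- A finite-to-one map on a linearly ordered type gives an injection. -/
theorem inj_of_fto {lt : β → β → Prop} (hlt : Int M (fun q : β × β => lt q.1 q.2))
    (ho : SLO (fun _ => True) lt) {h : β → α} (hh : IntF M h)
    (hfin : ∀ y, IFin (sep M fun x => h x = y)) :
    ∃ k : β → INat M × α, IntF M k ∧ Function.Injective k := by
  let S : β → IPow M β := fun x => sep M fun x' => h x' = h x ∧ lt x' x
  have hS : IntF M S := by
    unfold S
    (repeat' (first | with_reducible exact Int.const _ | with_reducible exact IntF.const _ | with_reducible exact IntF.id | with_reducible exact IntF.fst' | with_reducible exact IntF.snd' | with_reducible assumption | with_reducible apply Int.not | with_reducible apply Int.and | with_reducible apply Int.or | with_reducible apply Int.iff | with_reducible apply Int.ex | with_reducible apply Int.imp | with_reducible apply Int.all | with_reducible apply Int.eq | with_reducible apply Int.ne | with_reducible apply Int.mem | with_reducible apply Int.subset | with_reducible apply Int.ltN | with_reducible apply Int.leN | with_reducible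 apply Int.fin | with_reducible apply Int.sz | with_reducible apply Int.unique | with_reducible apply IntF.fst | with_reducible apply IntF.snd | with_reducible apply IntF.succ | with_reducible apply IntF.app | with_reducible apply IntF.sep | with_reducible apply IntF.lam | with_reducible apply IntF.the | with_reducible apply IntF.ite | with_reducible apply IntF.insert | with_reducible apply IntF.singleton | with_reducible apply IntF.union | with_reducible apply IntF.isUnion | with_reducible apply IntF.iimage | with_reducible_and_instances apply IntF.add | with_reducible_and_instances apply IntF.mul | with_reducible ((refine IntF.comp₂ ?_ ?_ ?_); assumption) | with_reducible ((refine Int.comp₂ ?_ ?_ ?_); assumption) | with_reducible ((refine IntF.comp ?_ ?_); assumption) | with_reducible ((refine Int.comp ?_ ?_); assumption) | with_reducible apply IntF.pair))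
  have hS' : ∀ x x', x' ∈ S x ↔ h x' = h x ∧ lt x' x := by
    intro x x'
    unfold S
    rw [mem_sep (by (repeat' (first | with_reducible exact Int.const _ | with_reducible exact IntF.const _ | with_reducible exact IntF.id | with_reducible exact IntF.fst' | with_reducible exact IntF.snd' | with_reducible assumption | with_reducible apply Int.not | with_reducible apply Int.and | with_reducible apply Int.or | with_reducible apply Int.iff | with_reducible apply Int.ex | with_reducible apply Int.imp | with_reducible apply Int.all | with_reducible apply Int.eq | with_reducible apply Int.ne | with_reducible apply Int.mem | with_reducible apply Int.subset | with_reducible apply Int.ltN | with_reducible apply Int.leN | with_reducible apply Int.fin | with_reducible apply Int.sz | with_reducible apply Int.unique | with_reducible apply IntF.fst | with_reducible apply IntF.snd | with_reducible apply IntF.succ | with_reducible apply IntF.app | with_reducible apply IntF.sep | with_reducible apply IntF.lam | with_reducible apply IntF.the | with_reducible apply IntF.ite | with_reducible apply IntF.insert | with_reducible apply IntF.singleton | with_reducible apply IntF.union | with_reducible apply IntF.isUnion | with_reducible apply IntF.iimage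 | with_reducible_and_instances apply IntF.add | with_reducible_and_instances apply IntF.mul | with_reducible ((refine IntF.comp₂ ?_ ?_ ?_); assumption) | with_reducible ((refine Int.comp₂ ?_ ?_ ?_); assumption) | with_reducible ((refine IntF.comp ?_ ?_); assumption) | with_reducible ((refine Int.comp ?_ ?_); assumption) | with_reducible apply IntF.pair)))]
  clear_value S
  have hSf : ∀ x, ∃ n, Sz n (S x) := fun x => ((hfin (h x)).subset fun x' hx' => by
    rw [mem_sep (by (repeat' (first | with_reducible exact Int.const _ | with_reducible exact IntF.const _ | with_reducible exact IntF.id | with_reducible exact IntF.fst' | with_reducible exact IntF.snd' | with_reducible assumption | with_reducible apply Int.not | with_reducible apply Int.and | with_reducible apply Int.or | with_reducible apply Int.iff | with_reducible apply Int.ex | with_reducible apply Int.imp | with_reducible apply Int.all | with_reducible apply Int.eq | with_reducible apply Int.ne | with_reducible apply Int.mem | with_reducible apply Int.subset | with_reducible apply Int.ltN | with_reducible apply Int.leN | with_reducible apply Int.fin | with_reducible apply Int.sz | with_reducible apply Int.unique | with_reducible apply IntF.fst | with_reducible apply IntF.snd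 | with_reducible apply IntF.succ | with_reducible apply IntF.app | with_reducible apply IntF.sep | with_reducible apply IntF.lam | with_reducible apply IntF.the | with_reducible apply IntF.ite | with_reducible apply IntF.insert | with_reducible apply IntF.singleton | with_reducible apply IntF.union | with_reducible apply IntF.isUnion | with_reducible apply IntF.iimage | with_reducible_and_instances apply IntF.add | with_reducible_and_instances apply IntF.mul | with_reducible ((refine IntF.comp₂ ?_ ?_ ?_); assumption) | with_reducible ((refine Int.comp₂ ?_ ?_ ?_); assumption) | with_reducible ((refine IntF.comp ?_ ?_); assumption) | with_reducible ((refine Int.comp ?_ ?_); assumption) | with_reducible apply IntF.pair)))]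
    exact ((hS' _ _).1 hx').1).sz
  have key : ∀ x x', h x = h x' → lt x x' →
      lst (fun n => Sz n (S x)) < lst (fun n => Sz n (S x')) := by
    intro x x' h1 h2
    have h3 := (lst_spec (p := fun n => Sz n (S x')) (by (repeat' (first | with_reducible exact Int.const _ | with_reducible exact IntF.const _ | with_reducible exact IntF.id | with_reducible exact IntF.fst' | with_reducible exact IntF.snd' | with_reducible assumption | with_reducible apply Int.not | with_reducible apply Int.and | with_reducible apply Int.or | with_reducible apply Int.iff | with_reducible apply Int.ex | with_reducible apply Int.imp | with_reducible apply Int.all | with_reducible apply Int.eq | with_reducible apply Int.ne | with_reducible apply Int.mem | with_reducible apply Int.subset | with_reducible apply Int.ltN | with_reducible apply Int.leN | with_reducible apply Int.fin | with_reducible apply Int.sz | with_reducible apply Int.unique | with_reducible apply IntF.fst | with_reducible apply IntF.snd | with_reducible apply IntF.succ | with_reducible apply IntF.app | with_reducible apply IntF.sep | with_reducible apply IntF.lam | with_reducible apply IntF.the | with_reducible apply IntF.ite | with_reducible apply IntF.insert | with_reducible apply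 IntF.singleton | with_reducible apply IntF.union | with_reducible apply IntF.isUnion | with_reducible apply IntF.iimage | with_reducible_and_instances apply IntF.add | with_reducible_and_instances apply IntF.mul | with_reducible ((refine IntF.comp₂ ?_ ?_ ?_); assumption) | with_reducible ((refine Int.comp₂ ?_ ?_ ?_); assumption) | with_reducible ((refine IntF.comp ?_ ?_); assumption) | with_reducible ((refine Int.comp ?_ ?_); assumption) | with_reducible apply IntF.pair))) (hSf x')).1
    have h4 := (lst_spec (p := fun n => Sz n (S x)) (by (repeat' (first | with_reducible exact Int.const _ | with_reducible exact IntF.const _ | with_reducible exact IntF.id | with_reducible exact IntF.fst' | with_reducible exact IntF.snd' | with_reducible assumption | with_reducible apply Int.not | with_reducible apply Int.and | with_reducible apply Int.or | with_reducible apply Int.iff | with_reducible apply Int.ex | with_reducible apply Int.imp | with_reducible apply Int.all | with_reducible apply Int.eq | with_reducible apply Int.ne | with_reducible apply Int.mem | with_reducible apply Int.subset | with_reducible apply Int.ltN | with_reducible apply Int.leN | with_reducible apply Int.fin | with_reducible apply Int.sz | with_reducible apply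 Int.unique | with_reducible apply IntF.fst | with_reducible apply IntF.snd | with_reducible apply IntF.succ | with_reducible apply IntF.app | with_reducible apply IntF.sep | with_reducible apply IntF.lam | with_reducible apply IntF.the | with_reducible apply IntF.ite | with_reducible apply IntF.insert | with_reducible apply IntF.singleton | with_reducible apply IntF.union | with_reducible apply IntF.isUnion | with_reducible apply IntF.iimage | with_reducible_and_instances apply IntF.add | with_reducible_and_instances apply IntF.mul | with_reducible ((refine IntF.comp₂ ?_ ?_ ?_); assumption) | with_reducible ((refine Int.comp₂ ?_ ?_ ?_); assumption) | with_reducible ((refine IntF.comp ?_ ?_); assumption) | with_reducible ((refine Int.comp ?_ ?_); assumption) | with_reducible apply IntF.pair))) (hSf x)).2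
    have h5 : x ∈ S x' := (hS' _ _).2 ⟨h1, h2⟩
    rcases INat.eq_zero_or_succ (lst (fun n => Sz n (S x'))) with h6 | ⟨m, h6⟩
    · rw [h6] at h3
      exact (h3.zero h5).elim
    · rw [h6] at h3 ⊢
      refine INat.lt_succ_iff.2 (h4 m ((h3.erase h5).subset fun z hz => ?_))
      rw [hS'] at hz
      rw [mem_sdiff, mem_singleton, hS']
      exact ⟨⟨hz.1.trans h1, ho.tr _ _ _ hz.2 h2⟩, fun h7 => ho.irr _ (h7 ▸ hz.2)⟩
  refine ⟨fun x => (lst (fun n => Sz n (S x)), h x), ?_, fun x x' h1 => ?_⟩
  · refine IntF.pair ?_ hh
    (repeat' (first | with_reducible exact Int.const _ | with_reducible exact IntF.const _ | with_reducible exact IntF.id | with_reducible exact IntF.fst' | with_reducible exact IntF.snd' | with_reducible assumption | with_reducible apply IntF.lst | with_reducible apply Int.not | with_reducible apply Int.and | with_reducible apply Int.or | with_reducible apply Int.iff | with_reducible apply Int.ex | with_reducible apply Int.imp | with_reducible apply Int.all | with_reducible apply Int.eq | with_reducible apply Int.ne | with_reducible apply Int.mem | with_reducible apply Int.subset | with_reducible apply Int.ltN | with_reducible apply Int.leN | with_reducible apply Int.fin | with_reducible apply Int.sz | with_reducible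 apply Int.unique | with_reducible apply IntF.fst | with_reducible apply IntF.snd | with_reducible apply IntF.succ | with_reducible apply IntF.app | with_reducible apply IntF.sep | with_reducible apply IntF.lam | with_reducible apply IntF.the | with_reducible apply IntF.ite | with_reducible apply IntF.insert | with_reducible apply IntF.singleton | with_reducible apply IntF.union | with_reducible apply IntF.isUnion | with_reducible apply IntF.iimage | with_reducible_and_instances apply IntF.add | with_reducible_and_instances apply IntF.mul | with_reducible ((refine IntF.comp₂ ?_ ?_ ?_); assumption) | with_reducible ((refine Int.comp₂ ?_ ?_ ?_); assumption) | with_reducible ((refine IntF.comp ?_ ?_); assumption) | with_reducible ((refine Int.comp ?_ ?_); assumption) | with_reducible apply IntF.pair))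
  · have h2 : h x = h x' := congrArg Prod.snd h1
    have h3 : lst (fun n => Sz n (S x)) = lst (fun n => Sz n (S x')) := congrArg Prod.fst h1
    rcases ho.tri x x' trivial trivial with h4 | h4 | h4
    · exact absurd h3 (key _ _ h2 h4).ne
    · exact h4
    · exact absurd h3 (key _ _ h2.symm h4).ne'

/-- The lexicographic order of the power set of the numbers. -/
def lexP (s t : IPow M (INat M)) : Prop := ∃ n, (¬ n ∈ s ∧ n ∈ t) ∧ ∀ m, m < n → (m ∈ s ↔ m ∈ t)

theorem Int.lexP {s t : γ → IPow M (INat M)} (hs : IntF M s) (ht : IntF M t) :
    Int M (fun c => lexP (s c) (t c)) := by
  unfold Fac.lexP
  (repeat' (first | with_reducible exact Int.const _ | with_reducible exact IntF.const _ | with_reducible exact IntF.id | with_reducible exact IntF.fst' | with_reducible exact IntF.snd' | with_reducible assumption | with_reducible apply Int.not | with_reducible apply Int.and | with_reducible apply Int.or | with_reducible apply Int.iff | with_reducible apply Int.ex | with_reducible apply Int.imp | with_reducible apply Int.all | with_reducible apply Int.eq | with_reducible apply Int.ne | with_reducible apply Int.mem | with_reducible apply Int.subset | with_reducible apply Int.ltN | with_reducible apply Int.leN | with_reducible apply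 Int.fin | with_reducible apply Int.sz | with_reducible apply Int.unique | with_reducible apply IntF.fst | with_reducible apply IntF.snd | with_reducible apply IntF.succ | with_reducible apply IntF.app | with_reducible apply IntF.sep | with_reducible apply IntF.lam | with_reducible apply IntF.the | with_reducible apply IntF.ite | with_reducible apply IntF.insert | with_reducible apply IntF.singleton | with_reducible apply IntF.union | with_reducible apply IntF.isUnion | with_reducible apply IntF.iimage | with_reducible_and_instances apply IntF.add | with_reducible_and_instances apply IntF.mul | with_reducible ((refine IntF.comp₂ ?_ ?_ ?_); assumption) | with_reducible ((refine Int.comp₂ ?_ ?_ ?_); assumption) | with_reducible ((refine IntF.comp ?_ ?_); assumption) | with_reducible ((refine Int.comp ?_ ?_); assumption) | with_reducible apply IntF.pair))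

theorem slo_lexP : SLO (fun _ => True) (lexP (M := M)) where
  irr := by
    rintro s ⟨n, h, -⟩
    exact h.1 h.2
  tr := by
    rintro r s t ⟨n, h1, h2⟩ ⟨m, h3, h4⟩
    rcases lt_trichotomy n m with h | rfl | h
    · exact ⟨n, ⟨h1.1, (h4 n h).1 h1.2⟩, fun k hk => (h2 k hk).trans (h4 k (hk.trans h))⟩
    · exact absurd h1.2 h3.1
    · exact ⟨m, ⟨fun h5 => h3.1 ((h2 m h).1 h5), h3.2⟩,
        fun k hk => (h2 k (hk.trans h)).trans (h4 k hk)⟩
  tri := by
    intro s t _ _
    by_cases h : ∃ n, ¬ (n ∈ s ↔ n ∈ t)
    · obtain ⟨n, h1, h2⟩ := INat.exists_least (p := fun n => ¬ (n ∈ s ↔ n ∈ t)) (by (repeat' (first | with_reducible exact Int.const _ | with_reducible exact IntF.const _ | with_reducible exact IntF.id | with_reducible exact IntF.fst' | with_reducible exact IntF.snd' | with_reducible assumption | with_reducible apply Int.not | with_reducible apply Int.and | with_reducible apply Int.or | with_reducible apply Int.iff | with_reducible apply Int.ex | with_reducible apply Int.imp | with_reducible apply Int.all | with_reducible apply Int.eq | with_reducible apply Int.ne | with_reducible apply Int.mem | with_reducible apply Int.subset | with_reducible apply Int.ltN | with_reducible apply Int.leN | with_reducible apply Int.fin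 | with_reducible apply Int.sz | with_reducible apply Int.unique | with_reducible apply IntF.fst | with_reducible apply IntF.snd | with_reducible apply IntF.succ | with_reducible apply IntF.app | with_reducible apply IntF.sep | with_reducible apply IntF.lam | with_reducible apply IntF.the | with_reducible apply IntF.ite | with_reducible apply IntF.insert | with_reducible apply IntF.singleton | with_reducible apply IntF.union | with_reducible apply IntF.isUnion | with_reducible apply IntF.iimage | with_reducible_and_instances apply IntF.add | with_reducible_and_instances apply IntF.mul | with_reducible ((refine IntF.comp₂ ?_ ?_ ?_); assumption) | with_reducible ((refine Int.comp₂ ?_ ?_ ?_); assumption) | with_reducible ((refine IntF.comp ?_ ?_); assumption) | with_reducible ((refine Int.comp ?_ ?_); assumption) | with_reducible apply IntF.pair))) h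
      have h3 : ∀ m, m < n → (m ∈ s ↔ m ∈ t) := fun m hm => by
        by_contra h4
        exact absurd (h2 m h4) (not_le.2 hm)
      by_cases h4 : n ∈ s
      · exact Or.inr (Or.inr ⟨n, ⟨fun h5 => h1 ⟨fun _ => h5, fun _ => h4⟩, h4⟩,
          fun m hm => (h3 m hm).symm⟩)
      · refine Or.inl ⟨n, ⟨h4, ?_⟩, h3⟩
        by_contra h5
        exact h1 ⟨fun h6 => absurd h6 h4, fun h6 => absurd h6 h5⟩
    · push Not at h
      exact Or.inr (Or.inl (IPow.ext' h))

/-- A set of reals with a finite-to-one map from its permutations is finite or Dedekind
infinite. -/
theorem dinf_of_fto {g : IFun M α α → α} (hg : IntF M g)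
    (hfin : ∀ y, IFin (sep M fun f : IFun M α α => Function.Bijective f ∧ g f = y))
    {c : α → IPow M (INat M)} (hc : IntF M c) (hci : Function.Injective c)
    (hI : ¬ IFin (iuniv M α)) : DInf M α := by
  by_contra hD
  obtain ⟨b, -⟩ : ∃ a : α, True := by
    by_contra h1
    exact hI (IFin.empty.subset fun x _ => absurd ⟨x, trivial⟩ h1)
  obtain ⟨tg, pm, htg, hpm, hbij, hkey⟩ := exists_pm (M := M) b
  have ho : SLO (fun _ => True) (fun x y : α => lexP (c x) (c y)) :=
    ⟨fun x => slo_lexP.irr _, fun x y z => slo_lexP.tr _ _ _, fun x y _ _ =>
      (slo_lexP.tri (c x) (c y) trivial trivial).imp id (Or.imp (fun h => hci h) id)⟩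
  have ho2 := ho.prod ho
  have hh : IntF M (fun q : α × α => (tg q, g (pm q))) := by
    refine IntF.pair htg ?_
    (repeat' (first | with_reducible exact Int.const _ | with_reducible exact IntF.const _ | with_reducible exact IntF.id | with_reducible exact IntF.fst' | with_reducible exact IntF.snd' | with_reducible assumption | with_reducible apply Int.not | with_reducible apply Int.and | with_reducible apply Int.or | with_reducible apply Int.iff | with_reducible apply Int.ex | with_reducible apply Int.imp | with_reducible apply Int.all | with_reducible apply Int.eq | with_reducible apply Int.ne | with_reducible apply Int.mem | with_reducible apply Int.subset | with_reducible apply Int.ltN | with_reducible apply Int.leN | with_reducible apply Int.fin | with_reducible apply Int.sz | with_reducible apply Int.unique | with_reducible apply IntF.fst | with_reducible apply IntF.snd | with_reducible apply IntF.succ | with_reducible apply IntF.app | with_reducible apply IntF.sep | with_reducible apply IntF.lam | with_reducible apply IntF.the | with_reducible apply IntF.ite | with_reducible apply IntF.insert | with_reducible apply IntF.singleton | with_reducible apply IntF.union | with_reducible apply IntF.isUnion | with_reducible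 apply IntF.iimage | with_reducible_and_instances apply IntF.add | with_reducible_and_instances apply IntF.mul | with_reducible ((refine IntF.comp₂ ?_ ?_ ?_); assumption) | with_reducible ((refine Int.comp₂ ?_ ?_ ?_); assumption) | with_reducible ((refine IntF.comp ?_ ?_); assumption) | with_reducible ((refine Int.comp ?_ ?_); assumption) | with_reducible apply IntF.pair))
  obtain ⟨k, hk, hki⟩ := inj_of_fto (M := M) (lt := prodLT (fun x y : α => lexP (c x) (c y))
    (fun x y : α => lexP (c x) (c y))) (by
      unfold prodLT
      (repeat' (first | with_reducible exact Int.const _ | with_reducible exact IntF.const _ | with_reducible exact IntF.id | with_reducible exact IntF.fst' | with_reducible exact IntF.snd' | with_reducible assumption | with_reducible apply Int.lexP | with_reducible apply Int.not | with_reducible apply Int.and | with_reducible apply Int.or | with_reducible apply Int.iff | with_reducible apply Int.ex | with_reducible apply Int.imp | with_reducible apply Int.all | with_reducible apply Int.eq | with_reducible apply Int.ne | with_reducible apply Int.mem | with_reducible apply Int.subset | with_reducible apply Int.ltN | with_reducible apply Int.leN | with_reducible apply Int.fin | with_reducible apply Int.sz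 | with_reducible apply Int.unique | with_reducible apply IntF.fst | with_reducible apply IntF.snd | with_reducible apply IntF.succ | with_reducible apply IntF.app | with_reducible apply IntF.sep | with_reducible apply IntF.lam | with_reducible apply IntF.the | with_reducible apply IntF.ite | with_reducible apply IntF.insert | with_reducible apply IntF.singleton | with_reducible apply IntF.union | with_reducible apply IntF.isUnion | with_reducible apply IntF.iimage | with_reducible_and_instances apply IntF.add | with_reducible_and_instances apply IntF.mul | with_reducible ((refine IntF.comp₂ ?_ ?_ ?_); assumption) | with_reducible ((refine Int.comp₂ ?_ ?_ ?_); assumption) | with_reducible ((refine IntF.comp ?_ ?_); assumption) | with_reducible ((refine Int.comp ?_ ?_); assumption) | with_reducible apply IntF.pair))) ⟨ho2.irr, ho2.tr, fun x y _ _ => ho2.tri x y ⟨trivial, trivial⟩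
        ⟨trivial, trivial⟩⟩ hh (fun y => by
      have hi : Int M (fun q : α × α => (tg q, g (pm q)) = y) := Int.eq hh (IntF.const _)
      refine fin_of_inj (hfin y.2) hpm (fun q hq => ?_) fun q q' hq hq' h => ?_
      · rw [mem_sep hi] at hq
        rw [mem_sep (by (repeat' (first | with_reducible exact Int.const _ | with_reducible exact IntF.const _ | with_reducible exact IntF.id | with_reducible exact IntF.fst' | with_reducible exact IntF.snd' | with_reducible assumption | with_reducible apply Int.bij | with_reducible apply Int.not | with_reducible apply Int.and | with_reducible apply Int.or | with_reducible apply Int.iff | with_reducible apply Int.ex | with_reducible apply Int.imp | with_reducible apply Int.all | with_reducible apply Int.eq | with_reducible apply Int.ne | with_reducible apply Int.mem | with_reducible apply Int.subset | with_reducible apply Int.ltN | with_reducible apply Int.leN | with_reducible apply Int.fin | with_reducible apply Int.sz | with_reducible apply Int.unique | with_reducible apply IntF.fst | with_reducible apply IntF.snd | with_reducible apply IntF.succ | with_reducible apply IntF.app | with_reducible apply IntF.sep | with_reducible apply IntF.lam | with_reducible apply IntF.the | with_reducible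 apply IntF.ite | with_reducible apply IntF.insert | with_reducible apply IntF.singleton | with_reducible apply IntF.union | with_reducible apply IntF.isUnion | with_reducible apply IntF.iimage | with_reducible_and_instances apply IntF.add | with_reducible_and_instances apply IntF.mul | with_reducible ((refine IntF.comp₂ ?_ ?_ ?_); assumption) | with_reducible ((refine Int.comp₂ ?_ ?_ ?_); assumption) | with_reducible ((refine IntF.comp ?_ ?_); assumption) | with_reducible ((refine Int.comp ?_ ?_); assumption) | with_reducible apply IntF.pair)))]
        exact ⟨hbij q, congrArg Prod.snd hq⟩
      · rw [mem_sep hi] at hq hq'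
        exact hkey q q' ((congrArg Prod.fst hq).trans (congrArg Prod.fst hq').symm) h)
  have hj0 : IntF M (fun q : α × α => (pr (k q).1 (k q).2.1, (k q).2.2)) := by
    refine IntF.pair ?_ ?_
    · (repeat' (first | with_reducible exact Int.const _ | with_reducible exact IntF.const _ | with_reducible exact IntF.id | with_reducible exact IntF.fst' | with_reducible exact IntF.snd' | with_reducible assumption | with_reducible apply IntF.pr | with_reducible apply Int.not | with_reducible apply Int.and | with_reducible apply Int.or | with_reducible apply Int.iff | with_reducible apply Int.ex | with_reducible apply Int.imp | with_reducible apply Int.all | with_reducible apply Int.eq | with_reducible apply Int.ne | with_reducible apply Int.mem | with_reducible apply Int.subset | with_reducible apply Int.ltN | with_reducible apply Int.leN | with_reducible apply Int.fin | with_reducible apply Int.sz | with_reducible apply Int.unique | with_reducible apply IntF.fst | with_reducible apply IntF.snd | with_reducible apply IntF.succ | with_reducible apply IntF.app | with_reducible apply IntF.sep | with_reducible apply IntF.lam | with_reducible apply IntF.the | with_reducible apply IntF.ite | with_reducible apply IntF.insert | with_reducible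 apply IntF.singleton | with_reducible apply IntF.union | with_reducible apply IntF.isUnion | with_reducible apply IntF.iimage | with_reducible_and_instances apply IntF.add | with_reducible_and_instances apply IntF.mul | with_reducible ((refine IntF.comp₂ ?_ ?_ ?_); assumption) | with_reducible ((refine Int.comp₂ ?_ ?_ ?_); assumption) | with_reducible ((refine IntF.comp ?_ ?_); assumption) | with_reducible ((refine Int.comp ?_ ?_); assumption) | with_reducible apply IntF.pair))
    · (repeat' (first | with_reducible exact Int.const _ | with_reducible exact IntF.const _ | with_reducible exact IntF.id | with_reducible exact IntF.fst' | with_reducible exact IntF.snd' | with_reducible assumption | with_reducible apply Int.not | with_reducible apply Int.and | with_reducible apply Int.or | with_reducible apply Int.iff | with_reducible apply Int.ex | with_reducible apply Int.imp | with_reducible apply Int.all | with_reducible apply Int.eq | with_reducible apply Int.ne | with_reducible apply Int.mem | with_reducible apply Int.subset | with_reducible apply Int.ltN | with_reducible apply Int.leN | with_reducible apply Int.fin | with_reducible apply Int.sz | with_reducible apply Int.unique | with_reducible apply IntF.fst | with_reducible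 apply IntF.snd | with_reducible apply IntF.succ | with_reducible apply IntF.app | with_reducible apply IntF.sep | with_reducible apply IntF.lam | with_reducible apply IntF.the | with_reducible apply IntF.ite | with_reducible apply IntF.insert | with_reducible apply IntF.singleton | with_reducible apply IntF.union | with_reducible apply IntF.isUnion | with_reducible apply IntF.iimage | with_reducible_and_instances apply IntF.add | with_reducible_and_instances apply IntF.mul | with_reducible ((refine IntF.comp₂ ?_ ?_ ?_); assumption) | with_reducible ((refine Int.comp₂ ?_ ?_ ?_); assumption) | with_reducible ((refine IntF.comp ?_ ?_); assumption) | with_reducible ((refine Int.comp ?_ ?_); assumption) | with_reducible apply IntF.pair))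
  let j : IFun M (α × α) (INat M × α) := ⟨_, hj0⟩
  have hj : Function.Injective j := by
    intro q q' h
    have h1 := pr_inj (congrArg Prod.fst h)
    have h2 : (j q).2 = (j q').2 := congrArg Prod.snd h
    exact hki (Prod.ext h1.1 (Prod.ext h1.2 h2))
  by_cases hc : ∀ e, ∃ m, ∀ x, ¬ Sz m (Dc j e x) → Triv j e x
  · exact hD (caseB hj hI hc)
  · push Not at hc
    obtain ⟨e, he⟩ := hc
    obtain ⟨P, hP, hPi, hPb⟩ := caseA hj hD e he
    obtain ⟨k', hk', hki'⟩ := inj_of_fto (M := M) (lt := lexP (M := M)) (by (repeat' (first | with_reducible exact Int.const _ | with_reducible exact IntF.const _ | with_reducible exact IntF.id | with_reducible exact IntF.fst' | with_reducible exact IntF.snd' | with_reducible assumption | with_reducible apply Int.lexP | with_reducible apply Int.not | with_reducible apply Int.and | with_reducible apply Int.or | with_reducible apply Int.iff | with_reducible apply Int.ex | with_reducible apply Int.imp | with_reducible apply Int.all | with_reducible apply Int.eq | with_reducible apply Int.ne | with_reducible apply Int.mem | with_reducible apply Int.subset | with_reducible apply Int.ltN | with_reducible apply Int.leN | with_reducible apply Int.fin | with_reducible apply Int.sz | with_reducible apply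 Int.unique | with_reducible apply IntF.fst | with_reducible apply IntF.snd | with_reducible apply IntF.succ | with_reducible apply IntF.app | with_reducible apply IntF.sep | with_reducible apply IntF.lam | with_reducible apply IntF.the | with_reducible apply IntF.ite | with_reducible apply IntF.insert | with_reducible apply IntF.singleton | with_reducible apply IntF.union | with_reducible apply IntF.isUnion | with_reducible apply IntF.iimage | with_reducible_and_instances apply IntF.add | with_reducible_and_instances apply IntF.mul | with_reducible ((refine IntF.comp₂ ?_ ?_ ?_); assumption) | with_reducible ((refine Int.comp₂ ?_ ?_ ?_); assumption) | with_reducible ((refine IntF.comp ?_ ?_); assumption) | with_reducible ((refine Int.comp ?_ ?_); assumption) | with_reducible apply IntF.pair)))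
      slo_lexP (h := fun Z => g (P Z)) (hg.comp hP) (fun y => by
        refine fin_of_inj (hfin y) hP (fun q hq => ?_) fun q q' _ _ h => hPi h
        rw [mem_sep (by (repeat' (first | with_reducible exact Int.const _ | with_reducible exact IntF.const _ | with_reducible exact IntF.id | with_reducible exact IntF.fst' | with_reducible exact IntF.snd' | with_reducible assumption | with_reducible apply Int.not | with_reducible apply Int.and | with_reducible apply Int.or | with_reducible apply Int.iff | with_reducible apply Int.ex | with_reducible apply Int.imp | with_reducible apply Int.all | with_reducible apply Int.eq | with_reducible apply Int.ne | with_reducible apply Int.mem | with_reducible apply Int.subset | with_reducible apply Int.ltN | with_reducible apply Int.leN | with_reducible apply Int.fin | with_reducible apply Int.sz | with_reducible apply Int.unique | with_reducible apply IntF.fst | with_reducible apply IntF.snd | with_reducible apply IntF.succ | with_reducible apply IntF.app | with_reducible apply IntF.sep | with_reducible apply IntF.lam | with_reducible apply IntF.the | with_reducible apply IntF.ite | with_reducible apply IntF.insert | with_reducible apply IntF.singleton | with_reducible apply IntF.union | with_reducible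 apply IntF.isUnion | with_reducible apply IntF.iimage | with_reducible_and_instances apply IntF.add | with_reducible_and_instances apply IntF.mul | with_reducible ((refine IntF.comp₂ ?_ ?_ ?_); assumption) | with_reducible ((refine Int.comp₂ ?_ ?_ ?_); assumption) | with_reducible ((refine IntF.comp ?_ ?_); assumption) | with_reducible ((refine Int.comp ?_ ?_); assumption) | with_reducible apply IntF.pair)))] at hq
        rw [mem_sep (by (repeat' (first | with_reducible exact Int.const _ | with_reducible exact IntF.const _ | with_reducible exact IntF.id | with_reducible exact IntF.fst' | with_reducible exact IntF.snd' | with_reducible assumption | with_reducible apply Int.bij | with_reducible apply Int.not | with_reducible apply Int.and | with_reducible apply Int.or | with_reducible apply Int.iff | with_reducible apply Int.ex | with_reducible apply Int.imp | with_reducible apply Int.all | with_reducible apply Int.eq | with_reducible apply Int.ne | with_reducible apply Int.mem | with_reducible apply Int.subset | with_reducible apply Int.ltN | with_reducible apply Int.leN | with_reducible apply Int.fin | with_reducible apply Int.sz | with_reducible apply Int.unique | with_reducible apply IntF.fst | with_reducible apply IntF.snd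 | with_reducible apply IntF.succ | with_reducible apply IntF.app | with_reducible apply IntF.sep | with_reducible apply IntF.lam | with_reducible apply IntF.the | with_reducible apply IntF.ite | with_reducible apply IntF.insert | with_reducible apply IntF.singleton | with_reducible apply IntF.union | with_reducible apply IntF.isUnion | with_reducible apply IntF.iimage | with_reducible_and_instances apply IntF.add | with_reducible_and_instances apply IntF.mul | with_reducible ((refine IntF.comp₂ ?_ ?_ ?_); assumption) | with_reducible ((refine Int.comp₂ ?_ ?_ ?_); assumption) | with_reducible ((refine IntF.comp ?_ ?_); assumption) | with_reducible ((refine Int.comp ?_ ?_); assumption) | with_reducible apply IntF.pair)))]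
        exact ⟨hPb q, hq⟩)
    exact hD (dinf_of_pow hk' hki')

/-! ### The Dedekind infinite case -/

section diag

variable (g : IFun M (IFun M α α) α)

/-- The least position in the block of `y` that is not hit. -/
noncomputable def nn (b : IFun M (INat M × α) α) (y : α) : INat M :=
  lst fun n => 0 < n ∧ ∀ f : IFun M α α, Function.Bijective f → g f = y → f (b (0, y)) ≠ b (n, y)

theorem IntF.nn {b : γ → IFun M (INat M × α) α} {y : γ → α} (hb : IntF M b) (hy : IntF M y) :
    IntF M (fun c => nn g (b c) (y c)) := by
  unfold Fac.nn
  (repeat' (first | with_reducible exact Int.const _ | with_reducible exact IntF.const _ | with_reducible exact IntF.id | with_reducible exact IntF.fst' | with_reducible exact IntF.snd' | with_reducible assumption | with_reducible apply IntF.lst | with_reducible apply Int.bij | with_reducible apply Int.not | with_reducible apply Int.and | with_reducible apply Int.or | with_reducible apply Int.iff | with_reducible apply Int.ex | with_reducible apply Int.imp | with_reducible apply Int.all | with_reducible apply Int.eq | with_reducible apply Int.ne | with_reducible apply Int.mem | with_reducible apply Int.subset | with_reducible apply Int.ltN | with_reducible apply Int.leN | with_reducible apply Int.fin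 | with_reducible apply Int.sz | with_reducible apply Int.unique | with_reducible apply IntF.fst | with_reducible apply IntF.snd | with_reducible apply IntF.succ | with_reducible apply IntF.app | with_reducible apply IntF.sep | with_reducible apply IntF.lam | with_reducible apply IntF.the | with_reducible apply IntF.ite | with_reducible apply IntF.insert | with_reducible apply IntF.singleton | with_reducible apply IntF.union | with_reducible apply IntF.isUnion | with_reducible apply IntF.iimage | with_reducible_and_instances apply IntF.add | with_reducible_and_instances apply IntF.mul | with_reducible ((refine IntF.comp₂ ?_ ?_ ?_); assumption) | with_reducible ((refine Int.comp₂ ?_ ?_ ?_); assumption) | with_reducible ((refine IntF.comp ?_ ?_); assumption) | with_reducible ((refine Int.comp ?_ ?_); assumption) | with_reducible apply IntF.pair))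

/-- The pairs that are exchanged. -/
def Rl (b : IFun M (INat M × α) α) (S : IPow M α) (z w : α) : Prop :=
  ∃ y, y ∈ S ∧ ((z = b (0, y) ∧ w = b (nn g b y, y)) ∨ (z = b (nn g b y, y) ∧ w = b (0, y)))

theorem Int.Rl {b : γ → IFun M (INat M × α) α} {S : γ → IPow M α} {z w : γ → α} (hb : IntF M b)
    (hS : IntF M S) (hz : IntF M z) (hw : IntF M w) :
    Int M (fun c => Rl g (b c) (S c) (z c) (w c)) := by
  unfold Fac.Rl
  (repeat' (first | with_reducible exact Int.const _ | with_reducible exact IntF.const _ | with_reducible exact IntF.id | with_reducible exact IntF.fst' | with_reducible exact IntF.snd' | with_reducible assumption | with_reducible apply IntF.nn | with_reducible apply Int.not | with_reducible apply Int.and | with_reducible apply Int.or | with_reducible apply Int.iff | with_reducible apply Int.ex | with_reducible apply Int.imp | with_reducible apply Int.all | with_reducible apply Int.eq | with_reducible apply Int.ne | with_reducible apply Int.mem | with_reducible apply Int.subset | with_reducible apply Int.ltN | with_reducible apply Int.leN | with_reducible apply Int.fin | with_reducible apply Int.sz | with_reducible apply Int.unique | with_reducible apply IntF.fst | with_reducible apply IntF.snd | with_reducible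 apply IntF.succ | with_reducible apply IntF.app | with_reducible apply IntF.sep | with_reducible apply IntF.lam | with_reducible apply IntF.the | with_reducible apply IntF.ite | with_reducible apply IntF.insert | with_reducible apply IntF.singleton | with_reducible apply IntF.union | with_reducible apply IntF.isUnion | with_reducible apply IntF.iimage | with_reducible_and_instances apply IntF.add | with_reducible_and_instances apply IntF.mul | with_reducible ((refine IntF.comp₂ ?_ ?_ ?_); assumption) | with_reducible ((refine Int.comp₂ ?_ ?_ ?_); assumption) | with_reducible ((refine IntF.comp ?_ ?_); assumption) | with_reducible ((refine Int.comp ?_ ?_); assumption) | with_reducible apply IntF.pair))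

/-- The diagonal permutation. -/
noncomputable def dp (b : IFun M (INat M × α) α) (S : IPow M α) : IFun M α α :=
  lam M fun z => the (Rl g b S z) z

theorem IntF.dp {b : γ → IFun M (INat M × α) α} {S : γ → IPow M α} (hb : IntF M b)
    (hS : IntF M S) : IntF M (fun c => dp g (b c) (S c)) := by
  unfold Fac.dp
  (repeat' (first | with_reducible exact Int.const _ | with_reducible exact IntF.const _ | with_reducible exact IntF.id | with_reducible exact IntF.fst' | with_reducible exact IntF.snd' | with_reducible assumption | with_reducible apply Int.Rl | with_reducible apply Int.not | with_reducible apply Int.and | with_reducible apply Int.or | with_reducible apply Int.iff | with_reducible apply Int.ex | with_reducible apply Int.imp | with_reducible apply Int.all | with_reducible apply Int.eq | with_reducible apply Int.ne | with_reducible apply Int.mem | with_reducible apply Int.subset | with_reducible apply Int.ltN | with_reducible apply Int.leN | with_reducible apply Int.fin | with_reducible apply Int.sz | with_reducible apply Int.unique | with_reducible apply IntF.fst | with_reducible apply IntF.snd | with_reducible apply IntF.succ | with_reducible apply IntF.app | with_reducible apply IntF.sep | with_reducible apply IntF.lam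 | with_reducible apply IntF.the | with_reducible apply IntF.ite | with_reducible apply IntF.insert | with_reducible apply IntF.singleton | with_reducible apply IntF.union | with_reducible apply IntF.isUnion | with_reducible apply IntF.iimage | with_reducible_and_instances apply IntF.add | with_reducible_and_instances apply IntF.mul | with_reducible ((refine IntF.comp₂ ?_ ?_ ?_); assumption) | with_reducible ((refine Int.comp₂ ?_ ?_ ?_); assumption) | with_reducible ((refine IntF.comp ?_ ?_); assumption) | with_reducible ((refine Int.comp ?_ ?_); assumption) | with_reducible apply IntF.pair))

theorem dp_avoid
    (hfin : ∀ y, IFin (sep M fun f : IFun M α α => Function.Bijective f ∧ g f = y))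
    {b : IFun M (INat M × α) α} {S : IPow M α}
    (hb : ∀ n y n' y', y ∈ S → y' ∈ S → b (n, y) = b (n', y') → n = n' ∧ y = y') :
    ¬ g (dp g b S) ∈ S := by
  have hnn : ∀ y, y ∈ S → 0 < nn g b y ∧ ∀ f : IFun M α α, Function.Bijective f → g f = y →
      f (b (0, y)) ≠ b (nn g b y, y) := by
    intro y hy
    refine (lst_spec (p := fun n => 0 < n ∧ ∀ f : IFun M α α, Function.Bijective f → g f = y →
      f (b (0, y)) ≠ b (n, y)) (by (repeat' (first | with_reducible exact Int.const _ | with_reducible exact IntF.const _ | with_reducible exact IntF.id | with_reducible exact IntF.fst' | with_reducible exact IntF.snd' | with_reducible assumption | with_reducible apply Int.bij | with_reducible apply Int.not | with_reducible apply Int.and | with_reducible apply Int.or | with_reducible apply Int.iff | with_reducible apply Int.ex | with_reducible apply Int.imp | with_reducible apply Int.all | with_reducible apply Int.eq | with_reducible apply Int.ne | with_reducible apply Int.mem | with_reducible apply Int.subset | with_reducible apply Int.ltN | with_reducible apply Int.leN | with_reducible apply Int.fin | with_reducible apply Int.sz | with_reducible apply Int.unique | with_reducible apply IntF.fst | with_reducible apply IntF.snd |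 with_reducible apply IntF.succ | with_reducible apply IntF.app | with_reducible apply IntF.sep | with_reducible apply IntF.lam | with_reducible apply IntF.the | with_reducible apply IntF.ite | with_reducible apply IntF.insert | with_reducible apply IntF.singleton | with_reducible apply IntF.union | with_reducible apply IntF.isUnion | with_reducible apply IntF.iimage | with_reducible_and_instances apply IntF.add | with_reducible_and_instances apply IntF.mul | with_reducible ((refine IntF.comp₂ ?_ ?_ ?_); assumption) | with_reducible ((refine Int.comp₂ ?_ ?_ ?_); assumption) | with_reducible ((refine IntF.comp ?_ ?_); assumption) | with_reducible ((refine Int.comp ?_ ?_); assumption) | with_reducible apply IntF.pair))) ?_).1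
    have h1 : IntF M (fun f : IFun M α α => f (b (0, y))) := by (repeat' (first | with_reducible exact Int.const _ | with_reducible exact IntF.const _ | with_reducible exact IntF.id | with_reducible exact IntF.fst' | with_reducible exact IntF.snd' | with_reducible assumption | with_reducible apply Int.not | with_reducible apply Int.and | with_reducible apply Int.or | with_reducible apply Int.iff | with_reducible apply Int.ex | with_reducible apply Int.imp | with_reducible apply Int.all | with_reducible apply Int.eq | with_reducible apply Int.ne | with_reducible apply Int.mem | with_reducible apply Int.subset | with_reducible apply Int.ltN | with_reducible apply Int.leN | with_reducible apply Int.fin | with_reducible apply Int.sz | with_reducible apply Int.unique | with_reducible apply IntF.fst | with_reducible apply IntF.snd | with_reducible apply IntF.succ | with_reducible apply IntF.app | with_reducible apply IntF.sep | with_reducible apply IntF.lam | with_reducible apply IntF.the | with_reducible apply IntF.ite | with_reducible apply IntF.insert | with_reducible apply IntF.singleton | with_reducible apply IntF.union | with_reducible apply IntF.isUnion | with_reducible apply IntF.iimage | with_reducible_and_instances apply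 IntF.add | with_reducible_and_instances apply IntF.mul | with_reducible ((refine IntF.comp₂ ?_ ?_ ?_); assumption) | with_reducible ((refine Int.comp₂ ?_ ?_ ?_); assumption) | with_reducible ((refine IntF.comp ?_ ?_); assumption) | with_reducible ((refine Int.comp ?_ ?_); assumption) | with_reducible apply IntF.pair))
    obtain ⟨n, hn⟩ := exists_not_mem (c := fun n => b (n, y)) (by (repeat' (first | with_reducible exact Int.const _ | with_reducible exact IntF.const _ | with_reducible exact IntF.id | with_reducible exact IntF.fst' | with_reducible exact IntF.snd' | with_reducible assumption | with_reducible apply Int.not | with_reducible apply Int.and | with_reducible apply Int.or | with_reducible apply Int.iff | with_reducible apply Int.ex | with_reducible apply Int.imp | with_reducible apply Int.all | with_reducible apply Int.eq | with_reducible apply Int.ne | with_reducible apply Int.mem | with_reducible apply Int.subset | with_reducible apply Int.ltN | with_reducible apply Int.leN | with_reducible apply Int.fin | with_reducible apply Int.sz | with_reducible apply Int.unique | with_reducible apply IntF.fst | with_reducible apply IntF.snd | with_reducible apply IntF.succ | with_reducible apply IntF.app | with_reducible apply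 IntF.sep | with_reducible apply IntF.lam | with_reducible apply IntF.the | with_reducible apply IntF.ite | with_reducible apply IntF.insert | with_reducible apply IntF.singleton | with_reducible apply IntF.union | with_reducible apply IntF.isUnion | with_reducible apply IntF.iimage | with_reducible_and_instances apply IntF.add | with_reducible_and_instances apply IntF.mul | with_reducible ((refine IntF.comp₂ ?_ ?_ ?_); assumption) | with_reducible ((refine Int.comp₂ ?_ ?_ ?_); assumption) | with_reducible ((refine IntF.comp ?_ ?_); assumption) | with_reducible ((refine Int.comp ?_ ?_); assumption) | with_reducible apply IntF.pair)))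
      (fun n n' h => (hb _ _ _ _ hy hy h).1) (((hfin y).image h1).insert (b (0, y)))
    rw [mem_insert, mem_iimage h1, not_or] at hn
    refine ⟨n, lt_of_le_of_ne (INat.zero_le n) fun h => hn.1 (by rw [h]), fun f h2 h3 h4 =>
      hn.2 ⟨f, ?_, h4⟩⟩
    rw [mem_sep (by (repeat' (first | with_reducible exact Int.const _ | with_reducible exact IntF.const _ | with_reducible exact IntF.id | with_reducible exact IntF.fst' | with_reducible exact IntF.snd' | with_reducible assumption | with_reducible apply Int.bij | with_reducible apply Int.not | with_reducible apply Int.and | with_reducible apply Int.or | with_reducible apply Int.iff | with_reducible apply Int.ex | with_reducible apply Int.imp | with_reducible apply Int.all | with_reducible apply Int.eq | with_reducible apply Int.ne | with_reducible apply Int.mem | with_reducible apply Int.subset | with_reducible apply Int.ltN | with_reducible apply Int.leN | with_reducible apply Int.fin | with_reducible apply Int.sz | with_reducible apply Int.unique | with_reducible apply IntF.fst | with_reducible apply IntF.snd | with_reducible apply IntF.succ | with_reducible apply IntF.app | with_reducible apply IntF.sep | with_reducible apply IntF.lam | with_reducible apply IntF.the | with_reducible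 apply IntF.ite | with_reducible apply IntF.insert | with_reducible apply IntF.singleton | with_reducible apply IntF.union | with_reducible apply IntF.isUnion | with_reducible apply IntF.iimage | with_reducible_and_instances apply IntF.add | with_reducible_and_instances apply IntF.mul | with_reducible ((refine IntF.comp₂ ?_ ?_ ?_); assumption) | with_reducible ((refine Int.comp₂ ?_ ?_ ?_); assumption) | with_reducible ((refine IntF.comp ?_ ?_); assumption) | with_reducible ((refine Int.comp ?_ ?_); assumption) | with_reducible apply IntF.pair)))]
    exact ⟨h2, h3⟩
  have hsymm : ∀ z w, Rl g b S z w → Rl g b S w z := by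
    rintro z w ⟨y, hy, h | h⟩
    · exact ⟨y, hy, Or.inr ⟨h.2, h.1⟩⟩
    · exact ⟨y, hy, Or.inl ⟨h.2, h.1⟩⟩
  have hfun : ∀ z w w', Rl g b S z w → Rl g b S z w' → w' = w := by
    rintro z w w' ⟨y, hy, ⟨h1, h2⟩ | ⟨h1, h2⟩⟩ ⟨y', hy', ⟨h3, h4⟩ | ⟨h3, h4⟩⟩ <;>
      have h5 := hb _ _ _ _ hy hy' (h1.symm.trans h3)
    · rw [h2, h4, h5.2]
    · exact absurd h5.1 (hnn y' hy').1.ne
    · exact absurd h5.1 (hnn y hy).1.ne'
    · rw [h2, h4, h5.2]
  have happ : ∀ z, dp g b S z = the (Rl g b S z) z := by
    intro z
    unfold dp
    rw [lam_apply (by (repeat' (first | with_reducible exact Int.const _ | with_reducible exact IntF.const _ | with_reducible exact IntF.id | with_reducible exact IntF.fst' | with_reducible exact IntF.snd' | with_reducible assumption | with_reducible apply Int.Rl | with_reducible apply Int.not | with_reducible apply Int.and | with_reducible apply Int.or | with_reducible apply Int.iff | with_reducible apply Int.ex | with_reducible apply Int.imp | with_reducible apply Int.all | with_reducible apply Int.eq | with_reducible apply Int.ne | with_reducible apply Int.mem | with_reducible apply Int.subset | with_reducible apply Int.ltN | with_reducible apply Int.leN | with_reducible apply Int.fin | with_reducible apply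 Int.sz | with_reducible apply Int.unique | with_reducible apply IntF.fst | with_reducible apply IntF.snd | with_reducible apply IntF.succ | with_reducible apply IntF.app | with_reducible apply IntF.sep | with_reducible apply IntF.lam | with_reducible apply IntF.the | with_reducible apply IntF.ite | with_reducible apply IntF.insert | with_reducible apply IntF.singleton | with_reducible apply IntF.union | with_reducible apply IntF.isUnion | with_reducible apply IntF.iimage | with_reducible_and_instances apply IntF.add | with_reducible_and_instances apply IntF.mul | with_reducible ((refine IntF.comp₂ ?_ ?_ ?_); assumption) | with_reducible ((refine Int.comp₂ ?_ ?_ ?_); assumption) | with_reducible ((refine IntF.comp ?_ ?_); assumption) | with_reducible ((refine Int.comp ?_ ?_); assumption) | with_reducible apply IntF.pair)))]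
  have h1 : ∀ z w, Rl g b S z w → dp g b S z = w := fun z w h => by
    rw [happ]
    exact the_eq ⟨w, h, fun w' h' => hfun z w w' h h'⟩ h
  have hinv : Function.Involutive (dp g b S) := by
    intro z
    by_cases h : ∃ w, Rl g b S z w
    · obtain ⟨w, hw⟩ := h
      rw [h1 z w hw, h1 w z (hsymm _ _ hw)]
    · have h2 : dp g b S z = z := by
        rw [happ]
        unfold the
        rw [dif_neg fun h3 => h h3.exists]
      rw [h2, h2]
  intro hS
  exact (hnn _ hS).2 _ hinv.bijective rfl (h1 _ _ ⟨_, hS, Or.inl ⟨rfl, rfl⟩⟩)

end diag

open Classical in
/-- The sequence given by a function that avoids the ranges of sequences. -/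
noncomputable def avSt (Φ : IFun M (IFun M (INat M) α) α) (a : α) (k : INat M) :
    IFun M (INat M) α :=
  irec (lam M fun _ => a) (fun k f => lam M (fun i => if i = k then Φ f else f i)) k

theorem IntF.avSt {Φ : γ → IFun M (IFun M (INat M) α) α} {a : γ → α} {k : γ → INat M}
    (hΦ : IntF M Φ) (ha : IntF M a) (hk : IntF M k) :
    IntF M (fun c => avSt (Φ c) (a c) (k c)) := by
  unfold Fac.avSt
  refine IntF.irec ?_ ?_ hk
  · (repeat' (first | with_reducible exact Int.const _ | with_reducible exact IntF.const _ | with_reducible exact IntF.id | with_reducible exact IntF.fst' | with_reducible exact IntF.snd' | with_reducible assumption | with_reducible apply Int.not | with_reducible apply Int.and | with_reducible apply Int.or | with_reducible apply Int.iff | with_reducible apply Int.ex | with_reducible apply Int.imp | with_reducible apply Int.all | with_reducible apply Int.eq | with_reducible apply Int.ne | with_reducible apply Int.mem | with_reducible apply Int.subset | with_reducible apply Int.ltN | with_reducible apply Int.leN | with_reducible apply Int.fin | with_reducible apply Int.sz | with_reducible apply Int.unique | with_reducible apply IntF.fst | with_reducible apply IntF.snd | with_reducible apply IntF.succ | with_reducible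 apply IntF.app | with_reducible apply IntF.sep | with_reducible apply IntF.lam | with_reducible apply IntF.the | with_reducible apply IntF.ite | with_reducible apply IntF.insert | with_reducible apply IntF.singleton | with_reducible apply IntF.union | with_reducible apply IntF.isUnion | with_reducible apply IntF.iimage | with_reducible_and_instances apply IntF.add | with_reducible_and_instances apply IntF.mul | with_reducible ((refine IntF.comp₂ ?_ ?_ ?_); assumption) | with_reducible ((refine Int.comp₂ ?_ ?_ ?_); assumption) | with_reducible ((refine IntF.comp ?_ ?_); assumption) | with_reducible ((refine Int.comp ?_ ?_); assumption) | with_reducible apply IntF.pair))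
  · (repeat' (first | with_reducible exact Int.const _ | with_reducible exact IntF.const _ | with_reducible exact IntF.id | with_reducible exact IntF.fst' | with_reducible exact IntF.snd' | with_reducible assumption | with_reducible apply Int.not | with_reducible apply Int.and | with_reducible apply Int.or | with_reducible apply Int.iff | with_reducible apply Int.ex | with_reducible apply Int.imp | with_reducible apply Int.all | with_reducible apply Int.eq | with_reducible apply Int.ne | with_reducible apply Int.mem | with_reducible apply Int.subset | with_reducible apply Int.ltN | with_reducible apply Int.leN | with_reducible apply Int.fin | with_reducible apply Int.sz | with_reducible apply Int.unique | with_reducible apply IntF.fst | with_reducible apply IntF.snd | with_reducible apply IntF.succ | with_reducible apply IntF.app | with_reducible apply IntF.sep | with_reducible apply IntF.lam | with_reducible apply IntF.the | with_reducible apply IntF.ite | with_reducible apply IntF.insert | with_reducible apply IntF.singleton | with_reducible apply IntF.union | with_reducible apply IntF.isUnion | with_reducible apply IntF.iimage | with_reducible_and_instances apply IntF.add | with_reducible_and_instances apply IntF.mul | with_reducible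 ((refine IntF.comp₂ ?_ ?_ ?_); assumption) | with_reducible ((refine Int.comp₂ ?_ ?_ ?_); assumption) | with_reducible ((refine IntF.comp ?_ ?_); assumption) | with_reducible ((refine Int.comp ?_ ?_); assumption) | with_reducible apply IntF.pair))

open Classical in
theorem avSt_inj {Φ : IFun M (IFun M (INat M) α) α} (hav : ∀ f i, Φ f ≠ f i) (a : α) :
    Function.Injective fun k => Φ (avSt Φ a k) := by
  have hs : ∀ k i, avSt Φ a k.succ i = if i = k then Φ (avSt Φ a k) else avSt Φ a k i := by
    intro k i
    have : avSt Φ a k.succ = lam M (fun i => if i = k then Φ (avSt Φ a k) else avSt Φ a k i) :=
      irec_succ (f := fun k (f : IFun M (INat M) α) =>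
        lam M (fun i => if i = k then Φ f else f i)) (by (repeat' (first | with_reducible exact Int.const _ | with_reducible exact IntF.const _ | with_reducible exact IntF.id | with_reducible exact IntF.fst' | with_reducible exact IntF.snd' | with_reducible assumption | with_reducible apply Int.not | with_reducible apply Int.and | with_reducible apply Int.or | with_reducible apply Int.iff | with_reducible apply Int.ex | with_reducible apply Int.imp | with_reducible apply Int.all | with_reducible apply Int.eq | with_reducible apply Int.ne | with_reducible apply Int.mem | with_reducible apply Int.subset | with_reducible apply Int.ltN | with_reducible apply Int.leN | with_reducible apply Int.fin | with_reducible apply Int.sz | with_reducible apply Int.unique | with_reducible apply IntF.fst | with_reducible apply IntF.snd | with_reducible apply IntF.succ | with_reducible apply IntF.app | with_reducible apply IntF.sep | with_reducible apply IntF.lam | with_reducible apply IntF.the | with_reducible apply IntF.ite | with_reducible apply IntF.insert | with_reducible apply IntF.singleton | with_reducible apply IntF.union | with_reducible apply IntF.isUnion | with_reducible apply IntF.iimage | with_reducible_and_instances apply IntF.add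 | with_reducible_and_instances apply IntF.mul | with_reducible ((refine IntF.comp₂ ?_ ?_ ?_); assumption) | with_reducible ((refine Int.comp₂ ?_ ?_ ?_); assumption) | with_reducible ((refine IntF.comp ?_ ?_); assumption) | with_reducible ((refine Int.comp ?_ ?_); assumption) | with_reducible apply IntF.pair))) k
    rw [this, lam_apply (by (repeat' (first | with_reducible exact Int.const _ | with_reducible exact IntF.const _ | with_reducible exact IntF.id | with_reducible exact IntF.fst' | with_reducible exact IntF.snd' | with_reducible assumption | with_reducible apply Int.not | with_reducible apply Int.and | with_reducible apply Int.or | with_reducible apply Int.iff | with_reducible apply Int.ex | with_reducible apply Int.imp | with_reducible apply Int.all | with_reducible apply Int.eq | with_reducible apply Int.ne | with_reducible apply Int.mem | with_reducible apply Int.subset | with_reducible apply Int.ltN | with_reducible apply Int.leN | with_reducible apply Int.fin | with_reducible apply Int.sz | with_reducible apply Int.unique | with_reducible apply IntF.fst | with_reducible apply IntF.snd | with_reducible apply IntF.succ | with_reducible apply IntF.app | with_reducible apply IntF.sep | with_reducible apply IntF.lam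 | with_reducible apply IntF.the | with_reducible apply IntF.ite | with_reducible apply IntF.insert | with_reducible apply IntF.singleton | with_reducible apply IntF.union | with_reducible apply IntF.isUnion | with_reducible apply IntF.iimage | with_reducible_and_instances apply IntF.add | with_reducible_and_instances apply IntF.mul | with_reducible ((refine IntF.comp₂ ?_ ?_ ?_); assumption) | with_reducible ((refine Int.comp₂ ?_ ?_ ?_); assumption) | with_reducible ((refine IntF.comp ?_ ?_); assumption) | with_reducible ((refine Int.comp ?_ ?_); assumption) | with_reducible apply IntF.pair)))]
  have key : ∀ k i, i < k → avSt Φ a k i = Φ (avSt Φ a i) := by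
    refine INat.ind (p := fun k : INat M => ∀ i, i < k → avSt Φ a k i = Φ (avSt Φ a i))
      (by (repeat' (first | with_reducible exact Int.const _ | with_reducible exact IntF.const _ | with_reducible exact IntF.id | with_reducible exact IntF.fst' | with_reducible exact IntF.snd' | with_reducible assumption | with_reducible apply IntF.avSt | with_reducible apply Int.not | with_reducible apply Int.and | with_reducible apply Int.or | with_reducible apply Int.iff | with_reducible apply Int.ex | with_reducible apply Int.imp | with_reducible apply Int.all | with_reducible apply Int.eq | with_reducible apply Int.ne | with_reducible apply Int.mem | with_reducible apply Int.subset | with_reducible apply Int.ltN | with_reducible apply Int.leN | with_reducible apply Int.fin | with_reducible apply Int.sz | with_reducible apply Int.unique | with_reducible apply IntF.fst | with_reducible apply IntF.snd | with_reducible apply IntF.succ | with_reducible apply IntF.app | with_reducible apply IntF.sep | with_reducible apply IntF.lam | with_reducible apply IntF.the | with_reducible apply IntF.ite | with_reducible apply IntF.insert | with_reducible apply IntF.singleton | with_reducible apply IntF.union | with_reducible apply IntF.isUnion | with_reducible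 apply IntF.iimage | with_reducible_and_instances apply IntF.add | with_reducible_and_instances apply IntF.mul | with_reducible ((refine IntF.comp₂ ?_ ?_ ?_); assumption) | with_reducible ((refine Int.comp₂ ?_ ?_ ?_); assumption) | with_reducible ((refine IntF.comp ?_ ?_); assumption) | with_reducible ((refine Int.comp ?_ ?_); assumption) | with_reducible apply IntF.pair))) ?_ ?_
    · intro i hi
      exact absurd hi INat.not_lt_zero
    · intro k ih i hi
      rw [hs]
      by_cases h : i = k
      · rw [if_pos h, h]
      · rw [if_neg h]
        exact ih i (lt_of_le_of_ne (INat.lt_succ_iff.1 hi) h)
  intro m n h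
  dsimp only at h
  rcases lt_trichotomy m n with h1 | h1 | h1
  · exact absurd ((key _ _ h1).trans h).symm (hav _ _)
  · exact h1
  · exact absurd ((key _ _ h1).trans h.symm).symm (hav _ _)

theorem bw_up {F : IPow M α → IPow M α} (hF : IntF M F) {Q : IPow M α → Prop}
    (hQ : Int M Q) {bot : IPow M α} (hbot : Q bot) (hFQ : ∀ s, Q s → Q (F s) ∧ s ⊆ F s)
    (hchain : ∀ C : IPow M (IPow M α), (∃ s, s ∈ C) → (∀ s, s ∈ C → Q s) → IsChn C →
      Q (isUnion C)) : ∃ s, Q s ∧ F s = s := by
  let cp : IPow M α → IPow M α := fun s => sep M fun x => ¬ x ∈ s
  have hcp : IntF M cp := by
    unfold cp
    (repeat' (first | with_reducible exact Int.const _ | with_reducible exact IntF.const _ | with_reducible exact IntF.id | with_reducible exact IntF.fst' | with_reducible exact IntF.snd' | with_reducible assumption | with_reducible apply Int.not | with_reducible apply Int.and | with_reducible apply Int.or | with_reducible apply Int.iff | with_reducible apply Int.ex | with_reducible apply Int.imp | with_reducible apply Int.all | with_reducible apply Int.eq | with_reducible apply Int.ne | with_reducible apply Int.mem | with_reducible apply Int.subset | with_reducible apply Int.ltN | with_reducible apply Int.leN | with_reducible apply Int.fin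 | with_reducible apply Int.sz | with_reducible apply Int.unique | with_reducible apply IntF.fst | with_reducible apply IntF.snd | with_reducible apply IntF.succ | with_reducible apply IntF.app | with_reducible apply IntF.sep | with_reducible apply IntF.lam | with_reducible apply IntF.the | with_reducible apply IntF.ite | with_reducible apply IntF.insert | with_reducible apply IntF.singleton | with_reducible apply IntF.union | with_reducible apply IntF.isUnion | with_reducible apply IntF.iimage | with_reducible_and_instances apply IntF.add | with_reducible_and_instances apply IntF.mul | with_reducible ((refine IntF.comp₂ ?_ ?_ ?_); assumption) | with_reducible ((refine Int.comp₂ ?_ ?_ ?_); assumption) | with_reducible ((refine IntF.comp ?_ ?_); assumption) | with_reducible ((refine Int.comp ?_ ?_); assumption) | with_reducible apply IntF.pair))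
  have hcp' : ∀ s x, x ∈ cp s ↔ ¬ x ∈ s := by
    intro s x
    unfold cp
    rw [mem_sep (by (repeat' (first | with_reducible exact Int.const _ | with_reducible exact IntF.const _ | with_reducible exact IntF.id | with_reducible exact IntF.fst' | with_reducible exact IntF.snd' | with_reducible assumption | with_reducible apply Int.not | with_reducible apply Int.and | with_reducible apply Int.or | with_reducible apply Int.iff | with_reducible apply Int.ex | with_reducible apply Int.imp | with_reducible apply Int.all | with_reducible apply Int.eq | with_reducible apply Int.ne | with_reducible apply Int.mem | with_reducible apply Int.subset | with_reducible apply Int.ltN | with_reducible apply Int.leN | with_reducible apply Int.fin | with_reducible apply Int.sz | with_reducible apply Int.unique | with_reducible apply IntF.fst | with_reducible apply IntF.snd | with_reducible apply IntF.succ | with_reducible apply IntF.app | with_reducible apply IntF.sep | with_reducible apply IntF.lam | with_reducible apply IntF.the | with_reducible apply IntF.ite | with_reducible apply IntF.insert | with_reducible apply IntF.singleton | with_reducible apply IntF.union | with_reducible apply IntF.isUnion | with_reducible apply IntF.iimage | with_reducible_and_instances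 apply IntF.add | with_reducible_and_instances apply IntF.mul | with_reducible ((refine IntF.comp₂ ?_ ?_ ?_); assumption) | with_reducible ((refine Int.comp₂ ?_ ?_ ?_); assumption) | with_reducible ((refine IntF.comp ?_ ?_); assumption) | with_reducible ((refine Int.comp ?_ ?_); assumption) | with_reducible apply IntF.pair)))]
  clear_value cp
  have hcc : ∀ s, cp (cp s) = s := fun s => IPow.ext' fun x => by rw [hcp', hcp', not_not]
  obtain ⟨s, h1, h2⟩ := bourbaki_witt (F := fun s => cp (F (cp s))) (hcp.comp (hF.comp hcp))
    (Q := fun s => Q (cp s)) (hQ.comp hcp) (top := cp bot) (by rwa [hcc]) (fun s hs => by
      rw [hcc]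
      refine ⟨(hFQ _ hs).1, fun x hx => ?_⟩
      by_contra h
      exact (hcp' _ _).1 hx ((hFQ _ hs).2 x ((hcp' _ _).2 h))) (fun C hne hC hch => by
      have h3 : cp (isInter C) = isUnion (iimage cp C) := IPow.ext' fun x => by
        rw [hcp', mem_isInter, mem_isUnion]
        constructor
        · intro h
          push Not at h
          obtain ⟨t, ht, hx⟩ := h
          exact ⟨cp t, (mem_iimage hcp).2 ⟨t, ht, rfl⟩, (hcp' _ _).2 hx⟩
        · rintro ⟨t0, ht0, hx⟩ h
          obtain ⟨t, ht, rfl⟩ := (mem_iimage hcp).1 ht0
          exact (hcp' _ _).1 hx (h t ht)
      rw [h3]
      refine hchain _ ?_ ?_ ?_
      · obtain ⟨t, ht⟩ := hne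
        exact ⟨cp t, (mem_iimage hcp).2 ⟨t, ht, rfl⟩⟩
      · intro t0 ht0
        obtain ⟨t, ht, rfl⟩ := (mem_iimage hcp).1 ht0
        exact hC t ht
      · intro t0 t1 ht0 ht1
        obtain ⟨t, ht, rfl⟩ := (mem_iimage hcp).1 ht0
        obtain ⟨t', ht', rfl⟩ := (mem_iimage hcp).1 ht1
        rcases hch t t' ht ht' with h | h
        · exact Or.inr fun x hx => (hcp' _ _).2 fun h4 => (hcp' _ _).1 hx (h x h4)
        · exact Or.inl fun x hx => (hcp' _ _).2 fun h4 => (hcp' _ _).1 hx (h x h4))
  refine ⟨cp s, h1, ?_⟩
  rw [← hcc (F (cp s)), h2]

/-- Systems of blocks. -/
def Blk (a : IFun M (INat M) α) (B : IPow M ((INat M × α) × α)) : Prop :=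
  (∀ p z z', (p, z) ∈ B → (p, z') ∈ B → z = z') ∧ (∀ p p' z, (p, z) ∈ B → (p', z) ∈ B → p = p') ∧
    (∀ m i z, ((m, i), z) ∈ B → ∀ m', ∃ z', ((m', i), z') ∈ B) ∧
      (∀ i z, ((0, i), z) ∈ B → z = i) ∧ ∀ n, ((n, a 0), a n) ∈ B

theorem Int.Blk (a : IFun M (INat M) α) {B : γ → IPow M ((INat M × α) × α)} (hB : IntF M B) :
    Int M (fun c => Blk a (B c)) := by
  unfold Fac.Blk
  (repeat' (first | with_reducible exact Int.const _ | with_reducible exact IntF.const _ | with_reducible exact IntF.id | with_reducible exact IntF.fst' | with_reducible exact IntF.snd' | with_reducible assumption | with_reducible apply Int.not | with_reducible apply Int.and | with_reducible apply Int.or | with_reducible apply Int.iff | with_reducible apply Int.ex | with_reducible apply Int.imp | with_reducible apply Int.all | with_reducible apply Int.eq | with_reducible apply Int.ne | with_reducible apply Int.mem | with_reducible apply Int.subset | with_reducible apply Int.ltN | with_reducible apply Int.leN | with_reducible apply Int.fin | with_reducible apply Int.sz | with_reducible apply Int.unique | with_reducible apply IntF.fst | with_reducible apply IntF.snd | with_reducible apply IntF.succ | with_reducible apply IntF.app | with_reducible apply IntF.sep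 | with_reducible apply IntF.lam | with_reducible apply IntF.the | with_reducible apply IntF.ite | with_reducible apply IntF.insert | with_reducible apply IntF.singleton | with_reducible apply IntF.union | with_reducible apply IntF.isUnion | with_reducible apply IntF.iimage | with_reducible_and_instances apply IntF.add | with_reducible_and_instances apply IntF.mul | with_reducible ((refine IntF.comp₂ ?_ ?_ ?_); assumption) | with_reducible ((refine Int.comp₂ ?_ ?_ ?_); assumption) | with_reducible ((refine IntF.comp ?_ ?_); assumption) | with_reducible ((refine Int.comp ?_ ?_); assumption) | with_reducible apply IntF.pair))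

open Classical in
/-- There is no finite-to-one map from the permutations of a Dedekind infinite type to the
type. -/
theorem not_fto_of_dinf {g : IFun M α α → α} (hg : IntF M g)
    (hfin : ∀ y, IFin (sep M fun f : IFun M α α => Function.Bijective f ∧ g f = y))
    (hD : DInf M α) : False := by
  obtain ⟨a₀, ha, hai⟩ := hD
  let a : IFun M (INat M) α := ⟨a₀, ha⟩
  have hai' : Function.Injective a := hai
  clear_value a
  let g' : IFun M (IFun M α α) α := ⟨g, hg⟩
  have hfin' : ∀ y, IFin (sep M fun f : IFun M α α => Function.Bijective f ∧ g' f = y) := hfin
  clear_value g'
  have n01 : (0 : INat M) ≠ INat.succ 0 := (INat.succ_ne_zero _).symm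
  let ky : IPow M ((INat M × α) × α) × IFun M (INat M) α → α → INat M × α := fun q y =>
    if ∃ p, (p, y) ∈ q.1 then (pr 0 (the (fun p => (p, y) ∈ q.1) (0, a 0)).1,
      (the (fun p => (p, y) ∈ q.1) (0, a 0)).2)
    else (pr (INat.succ 0) (lst fun k => q.2 k = y), a 0)
  have hky : IntF M (fun c : (IPow M ((INat M × α) × α) × IFun M (INat M) α) × α =>
      ky c.1 c.2) := by
    unfold ky
    (repeat' (first | with_reducible exact Int.const _ | with_reducible exact IntF.const _ | with_reducible exact IntF.id | with_reducible exact IntF.fst' | with_reducible exact IntF.snd' | with_reducible assumption | with_reducible apply IntF.pr | with_reducible apply IntF.lst | with_reducible apply Int.not | with_reducible apply Int.and | with_reducible apply Int.or | with_reducible apply Int.iff | with_reducible apply Int.ex | with_reducible apply Int.imp | with_reducible apply Int.all | with_reducible apply Int.eq | with_reducible apply Int.ne | with_reducible apply Int.mem | with_reducible apply Int.subset | with_reducible apply Int.ltN | with_reducible apply Int.leN | with_reducible apply Int.fin | with_reducible apply Int.sz | with_reducible apply Int.unique | with_reducible apply IntF.fst | with_reducible apply IntF.snd | with_reducible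 apply IntF.succ | with_reducible apply IntF.app | with_reducible apply IntF.sep | with_reducible apply IntF.lam | with_reducible apply IntF.the | with_reducible apply IntF.ite | with_reducible apply IntF.insert | with_reducible apply IntF.singleton | with_reducible apply IntF.union | with_reducible apply IntF.isUnion | with_reducible apply IntF.iimage | with_reducible_and_instances apply IntF.add | with_reducible_and_instances apply IntF.mul | with_reducible ((refine IntF.comp₂ ?_ ?_ ?_); assumption) | with_reducible ((refine Int.comp₂ ?_ ?_ ?_); assumption) | with_reducible ((refine IntF.comp ?_ ?_); assumption) | with_reducible ((refine Int.comp ?_ ?_); assumption) | with_reducible apply IntF.pair))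
  have hky1 : ∀ B f, Blk a B → ∀ m i y, ((m, i), y) ∈ B → ky (B, f) y = (pr 0 m, i) := by
    intro B f hB m i y h
    have h1 : the (fun p => (p, y) ∈ B) (0, a 0) = (m, i) :=
      the_eq ⟨(m, i), h, fun p hp => hB.2.1 _ _ _ hp h⟩ h
    unfold ky
    rw [if_pos ⟨_, h⟩]
    dsimp only
    rw [h1]
  have hky2 : ∀ B f y, (¬ ∃ p, (p, y) ∈ B) →
      ky (B, f) y = (pr (INat.succ 0) (lst fun k => f k = y), a 0) := fun B f y h => if_neg h
  clear_value ky
  let bb : IPow M ((INat M × α) × α) × IFun M (INat M) α → IFun M (INat M × α) α := fun q =>
    lam M fun c => the (fun z => ((pr c.1 (ky q c.2).1, (ky q c.2).2), z) ∈ q.1) (a 0)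
  have hbb : IntF M bb := by
    unfold bb
    (repeat' (first | with_reducible exact Int.const _ | with_reducible exact IntF.const _ | with_reducible exact IntF.id | with_reducible exact IntF.fst' | with_reducible exact IntF.snd' | with_reducible assumption | with_reducible apply IntF.pr | with_reducible apply Int.not | with_reducible apply Int.and | with_reducible apply Int.or | with_reducible apply Int.iff | with_reducible apply Int.ex | with_reducible apply Int.imp | with_reducible apply Int.all | with_reducible apply Int.eq | with_reducible apply Int.ne | with_reducible apply Int.mem | with_reducible apply Int.subset | with_reducible apply Int.ltN | with_reducible apply Int.leN | with_reducible apply Int.fin | with_reducible apply Int.sz | with_reducible apply Int.unique | with_reducible apply IntF.fst | with_reducible apply IntF.snd | with_reducible apply IntF.succ | with_reducible apply IntF.app | with_reducible apply IntF.sep | with_reducible apply IntF.lam | with_reducible apply IntF.the | with_reducible apply IntF.ite | with_reducible apply IntF.insert | with_reducible apply IntF.singleton | with_reducible apply IntF.union | with_reducible apply IntF.isUnion | with_reducible apply IntF.iimage | with_reducible_and_instances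 apply IntF.add | with_reducible_and_instances apply IntF.mul | with_reducible ((refine IntF.comp₂ ?_ ?_ ?_); assumption) | with_reducible ((refine Int.comp₂ ?_ ?_ ?_); assumption) | with_reducible ((refine IntF.comp ?_ ?_); assumption) | with_reducible ((refine Int.comp ?_ ?_); assumption) | with_reducible apply IntF.pair))
  have hbb' : ∀ B f, Blk a B → ∀ n y,
      ((pr n (ky (B, f) y).1, (ky (B, f) y).2), bb (B, f) (n, y)) ∈ B := by
    intro B f hB n y
    have h1 : ∃ z, ((pr n (ky (B, f) y).1, (ky (B, f) y).2), z) ∈ B := by
      by_cases h : ∃ p, (p, y) ∈ B
      · obtain ⟨⟨m, i⟩, h⟩ := h
        rw [hky1 B f hB m i y h]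
        exact hB.2.2.1 _ _ _ h _
      · rw [hky2 B f y h]
        exact ⟨_, hB.2.2.2.2 _⟩
    obtain ⟨z, hz⟩ := h1
    unfold bb
    rw [lam_apply (by (repeat' (first | with_reducible exact Int.const _ | with_reducible exact IntF.const _ | with_reducible exact IntF.id | with_reducible exact IntF.fst' | with_reducible exact IntF.snd' | with_reducible assumption | with_reducible apply IntF.pr | with_reducible apply Int.not | with_reducible apply Int.and | with_reducible apply Int.or | with_reducible apply Int.iff | with_reducible apply Int.ex | with_reducible apply Int.imp | with_reducible apply Int.all | with_reducible apply Int.eq | with_reducible apply Int.ne | with_reducible apply Int.mem | with_reducible apply Int.subset | with_reducible apply Int.ltN | with_reducible apply Int.leN | with_reducible apply Int.fin | with_reducible apply Int.sz | with_reducible apply Int.unique | with_reducible apply IntF.fst | with_reducible apply IntF.snd | with_reducible apply IntF.succ | with_reducible apply IntF.app | with_reducible apply IntF.sep | with_reducible apply IntF.lam | with_reducible apply IntF.the | with_reducible apply IntF.ite | with_reducible apply IntF.insert | with_reducible apply IntF.singleton | with_reducible apply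 IntF.union | with_reducible apply IntF.isUnion | with_reducible apply IntF.iimage | with_reducible_and_instances apply IntF.add | with_reducible_and_instances apply IntF.mul | with_reducible ((refine IntF.comp₂ ?_ ?_ ?_); assumption) | with_reducible ((refine Int.comp₂ ?_ ?_ ?_); assumption) | with_reducible ((refine IntF.comp ?_ ?_); assumption) | with_reducible ((refine Int.comp ?_ ?_); assumption) | with_reducible apply IntF.pair)))]
    exact the_spec (p := fun z => ((pr n (ky (B, f) y).1, (ky (B, f) y).2), z) ∈ B)
      ⟨z, hz, fun z' hz' => hB.1 _ _ _ hz' hz⟩
  clear_value bb
  let SS : IPow M ((INat M × α) × α) × IFun M (INat M) α → IPow M α := fun q =>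
    sep M fun y => (∃ p, (p, y) ∈ q.1) ∨ ∃ k, q.2 k = y
  have hSS : IntF M SS := by
    unfold SS
    (repeat' (first | with_reducible exact Int.const _ | with_reducible exact IntF.const _ | with_reducible exact IntF.id | with_reducible exact IntF.fst' | with_reducible exact IntF.snd' | with_reducible assumption | with_reducible apply Int.not | with_reducible apply Int.and | with_reducible apply Int.or | with_reducible apply Int.iff | with_reducible apply Int.ex | with_reducible apply Int.imp | with_reducible apply Int.all | with_reducible apply Int.eq | with_reducible apply Int.ne | with_reducible apply Int.mem | with_reducible apply Int.subset | with_reducible apply Int.ltN | with_reducible apply Int.leN | with_reducible apply Int.fin | with_reducible apply Int.sz | with_reducible apply Int.unique | with_reducible apply IntF.fst | with_reducible apply IntF.snd | with_reducible apply IntF.succ | with_reducible apply IntF.app | with_reducible apply IntF.sep | with_reducible apply IntF.lam | with_reducible apply IntF.the | with_reducible apply IntF.ite | with_reducible apply IntF.insert | with_reducible apply IntF.singleton | with_reducible apply IntF.union | with_reducible apply IntF.isUnion | with_reducible apply IntF.iimage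 | with_reducible_and_instances apply IntF.add | with_reducible_and_instances apply IntF.mul | with_reducible ((refine IntF.comp₂ ?_ ?_ ?_); assumption) | with_reducible ((refine Int.comp₂ ?_ ?_ ?_); assumption) | with_reducible ((refine IntF.comp ?_ ?_); assumption) | with_reducible ((refine Int.comp ?_ ?_); assumption) | with_reducible apply IntF.pair))
  have hSS' : ∀ B f y, y ∈ SS (B, f) ↔ (∃ p, (p, y) ∈ B) ∨ ∃ k, f k = y := by
    intro B f y
    unfold SS
    rw [mem_sep (by (repeat' (first | with_reducible exact Int.const _ | with_reducible exact IntF.const _ | with_reducible exact IntF.id | with_reducible exact IntF.fst' | with_reducible exact IntF.snd' | with_reducible assumption | with_reducible apply Int.not | with_reducible apply Int.and | with_reducible apply Int.or | with_reducible apply Int.iff | with_reducible apply Int.ex | with_reducible apply Int.imp | with_reducible apply Int.all | with_reducible apply Int.eq | with_reducible apply Int.ne | with_reducible apply Int.mem | with_reducible apply Int.subset | with_reducible apply Int.ltN | with_reducible apply Int.leN | with_reducible apply Int.fin | with_reducible apply Int.sz | with_reducible apply Int.unique | with_reducible apply IntF.fst | with_reducible apply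 IntF.snd | with_reducible apply IntF.succ | with_reducible apply IntF.app | with_reducible apply IntF.sep | with_reducible apply IntF.lam | with_reducible apply IntF.the | with_reducible apply IntF.ite | with_reducible apply IntF.insert | with_reducible apply IntF.singleton | with_reducible apply IntF.union | with_reducible apply IntF.isUnion | with_reducible apply IntF.iimage | with_reducible_and_instances apply IntF.add | with_reducible_and_instances apply IntF.mul | with_reducible ((refine IntF.comp₂ ?_ ?_ ?_); assumption) | with_reducible ((refine Int.comp₂ ?_ ?_ ?_); assumption) | with_reducible ((refine IntF.comp ?_ ?_); assumption) | with_reducible ((refine Int.comp ?_ ?_); assumption) | with_reducible apply IntF.pair)))]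
  clear_value SS
  have hav : ∀ B f, Blk a B → ¬ g' (dp g' (bb (B, f)) (SS (B, f))) ∈ SS (B, f) := by
    intro B f hB
    refine dp_avoid g' hfin' fun n y n' y' hy hy' h => ?_
    have h1 := hbb' B f hB n y
    have h2 := hbb' B f hB n' y'
    rw [← h] at h2
    have h3 := hB.2.1 _ _ _ h1 h2
    have h4 := pr_inj (congrArg Prod.fst h3)
    have h5 : (ky (B, f) y).2 = (ky (B, f) y').2 := (Prod.mk.inj h3).2
    have h6 : ky (B, f) y = ky (B, f) y' := Prod.ext h4.2 h5
    refine ⟨h4.1, ?_⟩
    by_cases c1 : ∃ p, (p, y) ∈ B <;> by_cases c2 : ∃ p, (p, y') ∈ B
    · obtain ⟨⟨m, i⟩, c1⟩ := c1
      obtain ⟨⟨m', i'⟩, c2⟩ := c2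
      rw [hky1 B f hB m i y c1, hky1 B f hB m' i' y' c2] at h6
      have h7 : m = m' := (pr_inj (congrArg Prod.fst h6)).2
      have h8 : i = i' := congrArg Prod.snd h6
      subst h7 h8
      exact hB.1 _ _ _ c1 c2
    · obtain ⟨⟨m, i⟩, c1⟩ := c1
      rw [hky1 B f hB m i y c1, hky2 B f y' c2] at h6
      exact absurd (pr_inj (congrArg Prod.fst h6)).1 n01
    · obtain ⟨⟨m, i⟩, c2⟩ := c2
      rw [hky1 B f hB m i y' c2, hky2 B f y c1] at h6
      exact absurd (pr_inj (congrArg Prod.fst h6)).1.symm n01
    · rw [hky2 B f y c1, hky2 B f y' c2] at h6
      have h7 := (pr_inj (congrArg Prod.fst h6)).2
      have h8 := (lst_spec (p := fun k => f k = y) (by (repeat' (first | with_reducible exact Int.const _ | with_reducible exact IntF.const _ | with_reducible exact IntF.id | with_reducible exact IntF.fst' | with_reducible exact IntF.snd' | with_reducible assumption | with_reducible apply Int.not | with_reducible apply Int.and | with_reducible apply Int.or | with_reducible apply Int.iff | with_reducible apply Int.ex | with_reducible apply Int.imp | with_reducible apply Int.all | with_reducible apply Int.eq | with_reducible apply Int.ne | with_reducible apply Int.mem | with_reducible apply Int.subset | with_reducible apply Int.ltN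 | with_reducible apply Int.leN | with_reducible apply Int.fin | with_reducible apply Int.sz | with_reducible apply Int.unique | with_reducible apply IntF.fst | with_reducible apply IntF.snd | with_reducible apply IntF.succ | with_reducible apply IntF.app | with_reducible apply IntF.sep | with_reducible apply IntF.lam | with_reducible apply IntF.the | with_reducible apply IntF.ite | with_reducible apply IntF.insert | with_reducible apply IntF.singleton | with_reducible apply IntF.union | with_reducible apply IntF.isUnion | with_reducible apply IntF.iimage | with_reducible_and_instances apply IntF.add | with_reducible_and_instances apply IntF.mul | with_reducible ((refine IntF.comp₂ ?_ ?_ ?_); assumption) | with_reducible ((refine Int.comp₂ ?_ ?_ ?_); assumption) | with_reducible ((refine IntF.comp ?_ ?_); assumption) | with_reducible ((refine Int.comp ?_ ?_); assumption) | with_reducible apply IntF.pair)))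
        (((hSS' _ _ _).1 hy).resolve_left c1)).1
      have h9 := (lst_spec (p := fun k => f k = y') (by (repeat' (first | with_reducible exact Int.const _ | with_reducible exact IntF.const _ | with_reducible exact IntF.id | with_reducible exact IntF.fst' | with_reducible exact IntF.snd' | with_reducible assumption | with_reducible apply Int.not | with_reducible apply Int.and | with_reducible apply Int.or | with_reducible apply Int.iff | with_reducible apply Int.ex | with_reducible apply Int.imp | with_reducible apply Int.all | with_reducible apply Int.eq | with_reducible apply Int.ne | with_reducible apply Int.mem | with_reducible apply Int.subset | with_reducible apply Int.ltN | with_reducible apply Int.leN | with_reducible apply Int.fin | with_reducible apply Int.sz | with_reducible apply Int.unique | with_reducible apply IntF.fst | with_reducible apply IntF.snd | with_reducible apply IntF.succ | with_reducible apply IntF.app | with_reducible apply IntF.sep | with_reducible apply IntF.lam | with_reducible apply IntF.the | with_reducible apply IntF.ite | with_reducible apply IntF.insert | with_reducible apply IntF.singleton | with_reducible apply IntF.union | with_reducible apply IntF.isUnion | with_reducible apply IntF.iimage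 | with_reducible_and_instances apply IntF.add | with_reducible_and_instances apply IntF.mul | with_reducible ((refine IntF.comp₂ ?_ ?_ ?_); assumption) | with_reducible ((refine Int.comp₂ ?_ ?_ ?_); assumption) | with_reducible ((refine IntF.comp ?_ ?_); assumption) | with_reducible ((refine Int.comp ?_ ?_); assumption) | with_reducible apply IntF.pair)))
        (((hSS' _ _ _).1 hy').resolve_left c2)).1
      rw [← h8, h7, h9]
  let Φ : IPow M ((INat M × α) × α) → IFun M (IFun M (INat M) α) α := fun B =>
    lam M fun f => g' (dp g' (bb (B, f)) (SS (B, f)))
  have hΦ : IntF M Φ := by
    unfold Φ
    (repeat' (first | with_reducible exact Int.const _ | with_reducible exact IntF.const _ | with_reducible exact IntF.id | with_reducible exact IntF.fst' | with_reducible exact IntF.snd' | with_reducible assumption | with_reducible apply IntF.dp | with_reducible apply Int.not | with_reducible apply Int.and | with_reducible apply Int.or | with_reducible apply Int.iff | with_reducible apply Int.ex | with_reducible apply Int.imp | with_reducible apply Int.all | with_reducible apply Int.eq | with_reducible apply Int.ne | with_reducible apply Int.mem | with_reducible apply Int.subset | with_reducible apply Int.ltN | with_reducible apply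 Int.leN | with_reducible apply Int.fin | with_reducible apply Int.sz | with_reducible apply Int.unique | with_reducible apply IntF.fst | with_reducible apply IntF.snd | with_reducible apply IntF.succ | with_reducible apply IntF.app | with_reducible apply IntF.sep | with_reducible apply IntF.lam | with_reducible apply IntF.the | with_reducible apply IntF.ite | with_reducible apply IntF.insert | with_reducible apply IntF.singleton | with_reducible apply IntF.union | with_reducible apply IntF.isUnion | with_reducible apply IntF.iimage | with_reducible_and_instances apply IntF.add | with_reducible_and_instances apply IntF.mul | with_reducible ((refine IntF.comp₂ ?_ ?_ ?_); assumption) | with_reducible ((refine Int.comp₂ ?_ ?_ ?_); assumption) | with_reducible ((refine IntF.comp ?_ ?_); assumption) | with_reducible ((refine Int.comp ?_ ?_); assumption) | with_reducible apply IntF.pair))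
  have hΦ' : ∀ B f, Blk a B → ¬ Φ B f ∈ SS (B, f) := by
    intro B f hB
    unfold Φ
    rw [lam_apply (by (repeat' (first | with_reducible exact Int.const _ | with_reducible exact IntF.const _ | with_reducible exact IntF.id | with_reducible exact IntF.fst' | with_reducible exact IntF.snd' | with_reducible assumption | with_reducible apply IntF.dp | with_reducible apply Int.not | with_reducible apply Int.and | with_reducible apply Int.or | with_reducible apply Int.iff | with_reducible apply Int.ex | with_reducible apply Int.imp | with_reducible apply Int.all | with_reducible apply Int.eq | with_reducible apply Int.ne | with_reducible apply Int.mem | with_reducible apply Int.subset | with_reducible apply Int.ltN | with_reducible apply Int.leN | with_reducible apply Int.fin | with_reducible apply Int.sz | with_reducible apply Int.unique | with_reducible apply IntF.fst | with_reducible apply IntF.snd | with_reducible apply IntF.succ | with_reducible apply IntF.app | with_reducible apply IntF.sep | with_reducible apply IntF.lam | with_reducible apply IntF.the | with_reducible apply IntF.ite | with_reducible apply IntF.insert | with_reducible apply IntF.singleton | with_reducible apply IntF.union | with_reducible apply IntF.isUnion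 | with_reducible apply IntF.iimage | with_reducible_and_instances apply IntF.add | with_reducible_and_instances apply IntF.mul | with_reducible ((refine IntF.comp₂ ?_ ?_ ?_); assumption) | with_reducible ((refine Int.comp₂ ?_ ?_ ?_); assumption) | with_reducible ((refine IntF.comp ?_ ?_); assumption) | with_reducible ((refine Int.comp ?_ ?_); assumption) | with_reducible apply IntF.pair)))]
    exact hav B f hB
  clear_value Φ
  let Y : IPow M ((INat M × α) × α) → INat M → α := fun B k => Φ B (avSt (Φ B) (a 0) k)
  have hY : IntF M (fun c : IPow M ((INat M × α) × α) × INat M => Y c.1 c.2) := by
    unfold Y
    (repeat' (first | with_reducible exact Int.const _ | with_reducible exact IntF.const _ | with_reducible exact IntF.id | with_reducible exact IntF.fst' | with_reducible exact IntF.snd' | with_reducible assumption | with_reducible apply IntF.avSt | with_reducible apply Int.not | with_reducible apply Int.and | with_reducible apply Int.or | with_reducible apply Int.iff | with_reducible apply Int.ex | with_reducible apply Int.imp | with_reducible apply Int.all | with_reducible apply Int.eq | with_reducible apply Int.ne | with_reducible apply Int.mem | with_reducible apply Int.subset | with_reducible apply Int.ltN | with_reducible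 apply Int.leN | with_reducible apply Int.fin | with_reducible apply Int.sz | with_reducible apply Int.unique | with_reducible apply IntF.fst | with_reducible apply IntF.snd | with_reducible apply IntF.succ | with_reducible apply IntF.app | with_reducible apply IntF.sep | with_reducible apply IntF.lam | with_reducible apply IntF.the | with_reducible apply IntF.ite | with_reducible apply IntF.insert | with_reducible apply IntF.singleton | with_reducible apply IntF.union | with_reducible apply IntF.isUnion | with_reducible apply IntF.iimage | with_reducible_and_instances apply IntF.add | with_reducible_and_instances apply IntF.mul | with_reducible ((refine IntF.comp₂ ?_ ?_ ?_); assumption) | with_reducible ((refine Int.comp₂ ?_ ?_ ?_); assumption) | with_reducible ((refine IntF.comp ?_ ?_); assumption) | with_reducible ((refine Int.comp ?_ ?_); assumption) | with_reducible apply IntF.pair))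
  have hY1 : ∀ B, Blk a B → Function.Injective (Y B) := fun B hB =>
    avSt_inj (fun f i h => hΦ' B f hB ((hSS' _ _ _).2 (Or.inr ⟨i, h.symm⟩))) _
  have hY2 : ∀ B, Blk a B → ∀ k p, ¬ (p, Y B k) ∈ B := fun B hB k p h =>
    hΦ' B _ hB ((hSS' _ _ _).2 (Or.inl ⟨p, h⟩))
  clear_value Y
  let F : IPow M ((INat M × α) × α) → IPow M ((INat M × α) × α) := fun B =>
    sep M fun q => q ∈ B ∨ ∃ k, q = ((k, Y B 0), Y B k)
  have hF : IntF M F := by
    unfold F
    (repeat' (first | with_reducible exact Int.const _ | with_reducible exact IntF.const _ | with_reducible exact IntF.id | with_reducible exact IntF.fst' | with_reducible exact IntF.snd' | with_reducible assumption | with_reducible apply Int.not | with_reducible apply Int.and | with_reducible apply Int.or | with_reducible apply Int.iff | with_reducible apply Int.ex | with_reducible apply Int.imp | with_reducible apply Int.all | with_reducible apply Int.eq | with_reducible apply Int.ne | with_reducible apply Int.mem | with_reducible apply Int.subset | with_reducible apply Int.ltN | with_reducible apply Int.leN | with_reducible apply Int.fin | with_reducible apply Int.sz | with_reducible apply Int.unique | with_reducible apply IntF.fst | with_reducible apply IntF.snd | with_reducible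 apply IntF.succ | with_reducible apply IntF.app | with_reducible apply IntF.sep | with_reducible apply IntF.lam | with_reducible apply IntF.the | with_reducible apply IntF.ite | with_reducible apply IntF.insert | with_reducible apply IntF.singleton | with_reducible apply IntF.union | with_reducible apply IntF.isUnion | with_reducible apply IntF.iimage | with_reducible_and_instances apply IntF.add | with_reducible_and_instances apply IntF.mul | with_reducible ((refine IntF.comp₂ ?_ ?_ ?_); assumption) | with_reducible ((refine Int.comp₂ ?_ ?_ ?_); assumption) | with_reducible ((refine IntF.comp ?_ ?_); assumption) | with_reducible ((refine Int.comp ?_ ?_); assumption) | with_reducible apply IntF.pair))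
  have hF' : ∀ B q, q ∈ F B ↔ q ∈ B ∨ ∃ k, q = ((k, Y B 0), Y B k) := by
    intro B q
    unfold F
    rw [mem_sep (by (repeat' (first | with_reducible exact Int.const _ | with_reducible exact IntF.const _ | with_reducible exact IntF.id | with_reducible exact IntF.fst' | with_reducible exact IntF.snd' | with_reducible assumption | with_reducible apply Int.not | with_reducible apply Int.and | with_reducible apply Int.or | with_reducible apply Int.iff | with_reducible apply Int.ex | with_reducible apply Int.imp | with_reducible apply Int.all | with_reducible apply Int.eq | with_reducible apply Int.ne | with_reducible apply Int.mem | with_reducible apply Int.subset | with_reducible apply Int.ltN | with_reducible apply Int.leN | with_reducible apply Int.fin | with_reducible apply Int.sz | with_reducible apply Int.unique | with_reducible apply IntF.fst | with_reducible apply IntF.snd | with_reducible apply IntF.succ | with_reducible apply IntF.app | with_reducible apply IntF.sep | with_reducible apply IntF.lam | with_reducible apply IntF.the | with_reducible apply IntF.ite | with_reducible apply IntF.insert | with_reducible apply IntF.singleton | with_reducible apply IntF.union | with_reducible apply IntF.isUnion | with_reducible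 apply IntF.iimage | with_reducible_and_instances apply IntF.add | with_reducible_and_instances apply IntF.mul | with_reducible ((refine IntF.comp₂ ?_ ?_ ?_); assumption) | with_reducible ((refine Int.comp₂ ?_ ?_ ?_); assumption) | with_reducible ((refine IntF.comp ?_ ?_); assumption) | with_reducible ((refine Int.comp ?_ ?_); assumption) | with_reducible apply IntF.pair)))]
  clear_value F
  have hb0 : Int M (fun q : (INat M × α) × α => q.1.2 = a 0 ∧ q.2 = a q.1.1) := by (repeat' (first | with_reducible exact Int.const _ | with_reducible exact IntF.const _ | with_reducible exact IntF.id | with_reducible exact IntF.fst' | with_reducible exact IntF.snd' | with_reducible assumption | with_reducible apply Int.not | with_reducible apply Int.and | with_reducible apply Int.or | with_reducible apply Int.iff | with_reducible apply Int.ex | with_reducible apply Int.imp | with_reducible apply Int.all | with_reducible apply Int.eq | with_reducible apply Int.ne | with_reducible apply Int.mem | with_reducible apply Int.subset | with_reducible apply Int.ltN | with_reducible apply Int.leN | with_reducible apply Int.fin | with_reducible apply Int.sz | with_reducible apply Int.unique | with_reducible apply IntF.fst | with_reducible apply IntF.snd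 | with_reducible apply IntF.succ | with_reducible apply IntF.app | with_reducible apply IntF.sep | with_reducible apply IntF.lam | with_reducible apply IntF.the | with_reducible apply IntF.ite | with_reducible apply IntF.insert | with_reducible apply IntF.singleton | with_reducible apply IntF.union | with_reducible apply IntF.isUnion | with_reducible apply IntF.iimage | with_reducible_and_instances apply IntF.add | with_reducible_and_instances apply IntF.mul | with_reducible ((refine IntF.comp₂ ?_ ?_ ?_); assumption) | with_reducible ((refine Int.comp₂ ?_ ?_ ?_); assumption) | with_reducible ((refine IntF.comp ?_ ?_); assumption) | with_reducible ((refine Int.comp ?_ ?_); assumption) | with_reducible apply IntF.pair))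
  obtain ⟨B, hB, hFB⟩ := bw_up hF (Q := Blk a) (Int.Blk a IntF.id)
    (bot := sep M fun q : (INat M × α) × α => q.1.2 = a 0 ∧ q.2 = a q.1.1) (by
      refine ⟨fun p z z' h1 h2 => ?_, fun p p' z h1 h2 => ?_, fun m i z h1 m' => ⟨a m', ?_⟩,
        fun i z h1 => ?_, fun n => ?_⟩
      · rw [mem_sep hb0] at h1 h2
        exact h1.2.trans h2.2.symm
      · rw [mem_sep hb0] at h1 h2
        exact Prod.ext (hai' (h1.2.symm.trans h2.2)) (h1.1.trans h2.1.symm)
      · rw [mem_sep hb0] at h1 ⊢
        exact ⟨h1.1, rfl⟩
      · rw [mem_sep hb0] at h1
        exact h1.2.trans h1.1.symm
      · rw [mem_sep hb0]
        exact ⟨rfl, rfl⟩) (fun B hB => by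
      have hnew : ∀ m z, ¬ ((m, Y B 0), z) ∈ B := by
        intro m z h
        obtain ⟨z', h1⟩ := hB.2.2.1 _ _ _ h 0
        have h2 := hB.2.2.2.1 _ _ h1
        rw [h2] at h1
        exact hY2 B hB _ _ h1
      refine ⟨⟨fun p z z' h1 h2 => ?_, fun p p' z h1 h2 => ?_, fun m i z h1 m' => ?_,
        fun i z h1 => ?_, fun n => (hF' _ _).2 (Or.inl (hB.2.2.2.2 n))⟩,
        fun q hq => (hF' _ _).2 (Or.inl hq)⟩
      · rw [hF'] at h1 h2
        rcases h1 with h1 | ⟨k, h1⟩ <;> rcases h2 with h2 | ⟨k', h2⟩
        · exact hB.1 _ _ _ h1 h2
        · obtain ⟨rfl, -⟩ := Prod.mk.inj h2
          exact absurd h1 (hnew _ _)
        · obtain ⟨rfl, -⟩ := Prod.mk.inj h1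
          exact absurd h2 (hnew _ _)
        · obtain ⟨rfl, rfl⟩ := Prod.mk.inj h1
          obtain ⟨h3, rfl⟩ := Prod.mk.inj h2
          rw [(Prod.mk.inj h3).1]
      · rw [hF'] at h1 h2
        rcases h1 with h1 | ⟨k, h1⟩ <;> rcases h2 with h2 | ⟨k', h2⟩
        · exact hB.2.1 _ _ _ h1 h2
        · obtain ⟨-, rfl⟩ := Prod.mk.inj h2
          exact absurd h1 (hY2 B hB _ _)
        · obtain ⟨-, rfl⟩ := Prod.mk.inj h1
          exact absurd h2 (hY2 B hB _ _)
        · obtain ⟨rfl, rfl⟩ := Prod.mk.inj h1
          obtain ⟨rfl, h3⟩ := Prod.mk.inj h2
          rw [hY1 B hB h3]
      · rw [hF'] at h1
        rcases h1 with h1 | ⟨k, h1⟩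
        · obtain ⟨z', h2⟩ := hB.2.2.1 _ _ _ h1 m'
          exact ⟨z', (hF' _ _).2 (Or.inl h2)⟩
        · obtain ⟨h2, -⟩ := Prod.mk.inj h1
          obtain ⟨-, rfl⟩ := Prod.mk.inj h2
          exact ⟨_, (hF' _ _).2 (Or.inr ⟨m', rfl⟩)⟩
      · rw [hF'] at h1
        rcases h1 with h1 | ⟨k, h1⟩
        · exact hB.2.2.2.1 _ _ h1
        · obtain ⟨h2, rfl⟩ := Prod.mk.inj h1
          obtain ⟨rfl, rfl⟩ := Prod.mk.inj h2
          rfl) (fun C hne hC hch => by
      refine ⟨fun p z z' h1 h2 => ?_, fun p p' z h1 h2 => ?_, fun m i z h1 m' => ?_,
        fun i z h1 => ?_, fun n => ?_⟩
      · obtain ⟨s, hs, h1⟩ := mem_isUnion.1 h1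
        obtain ⟨t, ht, h2⟩ := mem_isUnion.1 h2
        rcases hch s t hs ht with h | h
        · exact (hC t ht).1 _ _ _ (h _ h1) h2
        · exact (hC s hs).1 _ _ _ h1 (h _ h2)
      · obtain ⟨s, hs, h1⟩ := mem_isUnion.1 h1
        obtain ⟨t, ht, h2⟩ := mem_isUnion.1 h2
        rcases hch s t hs ht with h | h
        · exact (hC t ht).2.1 _ _ _ (h _ h1) h2
        · exact (hC s hs).2.1 _ _ _ h1 (h _ h2)
      · obtain ⟨s, hs, h1⟩ := mem_isUnion.1 h1
        obtain ⟨z', h2⟩ := (hC s hs).2.2.1 _ _ _ h1 m'
        exact ⟨z', mem_isUnion.2 ⟨s, hs, h2⟩⟩
      · obtain ⟨s, hs, h1⟩ := mem_isUnion.1 h1
        exact (hC s hs).2.2.2.1 _ _ h1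
      · obtain ⟨s, hs⟩ := hne
        exact mem_isUnion.2 ⟨s, hs, (hC s hs).2.2.2.2 n⟩)
  refine hY2 B hB 0 (0, Y B 0) ?_
  have h1 : ((0, Y B 0), Y B 0) ∈ F B := (hF' _ _).2 (Or.inr ⟨0, rfl⟩)
  rwa [hFB] at h1

end Pool.Agent.H408Z.Fac
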