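import Pool.Agent.H408Z.Fac.E
import Pool.Agent.H408Z.Fac.Defs2

/-!
# Finite-to-one maps from the permutations, for the elements of the model
-/

namespace Pool.Agent.H408Z.Fac

open Pool.Agent.Helper672.ZFA
open FirstOrder FirstOrder.Language

universe u

open Pool.Agent.Helper672 Card

variable {M : Type u} [Plain.LSet.Structure M]

attribute [local instance] Plain.toL

theorem omega_iff [IsModel M] {w : M} (hw : IsOmega w) (z : M) :
    Plain.Mem z w ↔ ∃ n : INat M, code n = z := by
  rw [hw]
  constructor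
  · intro h1
    refine ⟨⟨z, fun i hi => h1 i ⟨?_, fun n hn => ?_⟩⟩, rfl⟩
    · obtain ⟨e, h2, -, h3⟩ := hi.1
      exact ⟨e, h2, h3⟩
    · obtain ⟨t, h2, -, h3⟩ := hi.2 n hn
      exact ⟨t, h2, h3⟩
  · rintro ⟨n, rfl⟩ i hi
    refine n.prop i ⟨?_, fun n hn => ?_⟩
    · obtain ⟨e, h2, h3⟩ := hi.1
      exact ⟨e, h2, trivial, h3⟩
    · obtain ⟨t, h2, h3⟩ := hi.2 n hn
      exact ⟨t, h2, trivial, h3⟩

/-- A function in the model gives an internal function on the types. -/
theorem exists_lift [IsModel M] {α β : Type u} [ITy M α] [ITy M β] (b : β) {f s t : M}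
    (hf : IsFun f s t) (ht : ∀ z, Plain.Mem z t → ∃ y : β, code y = z) :
    ∃ F : α → β, IntF M F ∧ ∀ x : α, Plain.Mem (code x) s →
      Maps f (code x) (code (F x)) ∧ Plain.Mem (code (F x)) t := by
  have hR : Int M (fun q : α × β => Mem (op (code q.1) (code q.2)) f) := ⟨f, fun _ => Iff.rfl⟩
  refine ⟨fun x => the (fun y : β => Mem (op (code x) (code y)) f) b,
    IntF.the hR (IntF.const _), fun x hx => ?_⟩
  obtain ⟨y, h1, h2⟩ := hf.2 _ hx
  obtain ⟨x', y', -, h3, h4⟩ := hf.1 _ (maps_iff.1 h1)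
  obtain ⟨-, rfl⟩ := op_inj (ordPair_iff.1 h4)
  obtain ⟨q, rfl⟩ := ht _ h3
  have h5 : the (fun y : β => Mem (op (code x) (code y)) f) b = q :=
    the_eq ⟨q, maps_iff.1 h1, fun q' hq' => ITy.inj (h2 _ (maps_iff.2 hq'))⟩ (maps_iff.1 h1)
  dsimp only
  rw [h5]
  exact ⟨h1, h3⟩

/-- In a model of Zermelo set theory, no infinite set that injects into the power set of `ω` has a
finite-to-one function from its permutations. -/
theorem main_fto [Plain.Zermelo M] {w a q s g : M} (hw : IsOmega w) (hq : IsPowerSet q w)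
    (hs : IsSym s a) (ha : IsInfinite w a) (h : CardLe a q) : ¬ IsFinToOne w g s a := by
  intro hg
  have hM : IsModel M := Plain.isModel_toL
  have hw' := omega_iff hw
  have ha' : ∀ z, Plain.Mem z a ↔ ∃ x : El a, code x = z :=
    fun z => ⟨fun h1 => ⟨⟨z, h1⟩, rfl⟩, fun ⟨x, h1⟩ => h1 ▸ x.2⟩
  have hq' : ∀ z, Plain.Mem z q → ∃ Z : IPow M (INat M), code Z = z := by
    intro z hz
    refine ⟨⟨fun n => Mem (code n) z, ⟨z, fun _ => Iff.rfl⟩⟩, Plain.Zermelo.ext _ _ fun x => ?_⟩
    refine (mem_code_pow (M := M) (s := (⟨fun n => Mem (code n) z, ⟨z, fun _ => Iff.rfl⟩⟩ :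
      IPow M (INat M))) (z := x)).trans ⟨?_, fun hx => ?_⟩
    · rintro ⟨n, h1, rfl⟩
      exact h1
    · obtain ⟨n, rfl⟩ := (hw' x).1 ((hq z).1 hz x hx)
      exact ⟨n, hx, rfl⟩
  have hs' : ∀ g : IFun M (El a) (El a), Function.Bijective g → Plain.Mem (code g) s := by
    intro g hg
    rw [hs]
    refine ⟨isInj_code ha' (fun x => (ha' _).2 ⟨_, rfl⟩) hg.1, fun y hy => ?_⟩
    obtain ⟨b, rfl⟩ := (ha' y).1 hy
    obtain ⟨x, rfl⟩ := hg.2 b
    exact ⟨code x, maps_code.2 ⟨x, rfl, rfl⟩⟩
  have hI : ¬ IFin (iuniv M (El a)) := by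
    intro h1
    obtain ⟨n, c, h2, h3, h4⟩ := exists_count h1
    refine ha ⟨n.val, code c, (hw' _).2 ⟨n, rfl⟩,
      isInj_code ha' (fun x => h2 x (by simp)) (fun x y => h3 x y (by simp) (by simp)),
      fun y hy => ?_⟩
    obtain ⟨m, rfl⟩ := mem_nat n y hy
    obtain ⟨x, -, rfl⟩ := h4 m hy
    exact ⟨code x, maps_code.2 ⟨x, rfl, rfl⟩⟩
  obtain ⟨b, -⟩ : ∃ b : El a, True := by
    by_contra h1
    exact hI (IFin.empty.subset fun x _ => absurd ⟨x, trivial⟩ h1)
  obtain ⟨φ, hφ, hφi⟩ := h
  obtain ⟨c, hc, hc'⟩ := exists_lift (α := El a) (∅ : IPow M (INat M)) hφ hq'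
  have hci : Function.Injective c := by
    intro x y h1
    have h2 := (hc' x x.2).1
    rw [h1] at h2
    exact ITy.inj (hφi _ _ _ h2 (hc' y y.2).1)
  obtain ⟨G, hG, hG'⟩ := exists_lift (α := IFun M (El a) (El a)) b hg.1 fun z hz => (ha' z).1 hz
  have hfin : ∀ y, IFin (sep M fun f : IFun M (El a) (El a) => Function.Bijective f ∧ G f = y) := by
    intro y
    obtain ⟨t, ht⟩ : ∃ t : M, ∀ x, Plain.Mem x t ↔ Maps g x (code y) := by
      have hi : Int M (fun x : El s => Mem (op (code x) (code y)) g) :=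
        Int.comp (p := fun q : El s × El a => Mem (op (code q.1) (code q.2)) g)
          ⟨g, fun _ => Iff.rfl⟩ (IntF.id.pair (IntF.const y))
      refine ⟨code (⟨_, hi⟩ : IPow M (El s)), fun x => (mem_code_pow (M := M)
        (s := (⟨_, hi⟩ : IPow M (El s))) (z := x)).trans ⟨?_, fun hx => ?_⟩⟩
      · rintro ⟨x, h1, rfl⟩
        exact maps_iff.2 h1
      · obtain ⟨x', y', h1, -, h2⟩ := hg.1.1 _ (maps_iff.1 hx)
        obtain ⟨rfl, -⟩ := op_inj (ordPair_iff.1 h2)
        exact ⟨⟨x, h1⟩, maps_iff.1 hx, rfl⟩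
    obtain ⟨n, f, hn, hf⟩ := hg.2 _ t y.2 ht
    obtain ⟨n, rfl⟩ := (hw' n).1 hn
    obtain ⟨F, hF, hF'⟩ := exists_lift (α := IFun M (El a) (El a)) (0 : INat M) hf.1.1
      (mem_nat n)
    have hmem : ∀ x, x ∈ (sep M fun f : IFun M (El a) (El a) => Function.Bijective f ∧ G f = y) →
        Plain.Mem (code x) t := by
      intro x hx
      rw [mem_sep (by (repeat' (first | with_reducible exact Int.const _ | with_reducible exact IntF.const _ | with_reducible exact IntF.id | with_reducible exact IntF.fst' | with_reducible exact IntF.snd' | with_reducible assumption | with_reducible apply Int.bij | with_reducible apply Int.not | with_reducible apply Int.and | with_reducible apply Int.or | with_reducible apply Int.iff | with_reducible apply Int.ex | with_reducible apply Int.imp | with_reducible apply Int.all | with_reducible apply Int.eq | with_reducible apply Int.ne | with_reducible apply Int.mem | with_reducible apply Int.subset | with_reducible apply Int.ltN | with_reducible apply Int.leN | with_reducible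 apply Int.fin | with_reducible apply Int.sz | with_reducible apply Int.unique | with_reducible apply IntF.fst | with_reducible apply IntF.snd | with_reducible apply IntF.succ | with_reducible apply IntF.app | with_reducible apply IntF.sep | with_reducible apply IntF.lam | with_reducible apply IntF.the | with_reducible apply IntF.ite | with_reducible apply IntF.insert | with_reducible apply IntF.singleton | with_reducible apply IntF.union | with_reducible apply IntF.isUnion | with_reducible apply IntF.iimage | with_reducible_and_instances apply IntF.add | with_reducible_and_instances apply IntF.mul | with_reducible ((refine IntF.comp₂ ?_ ?_ ?_); assumption) | with_reducible ((refine Int.comp₂ ?_ ?_ ?_); assumption) | with_reducible ((refine IntF.comp ?_ ?_); assumption) | with_reducible ((refine Int.comp ?_ ?_); assumption) | with_reducible apply IntF.pair)))] at hx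
      rw [ht, ← hx.2]
      exact (hG' x (hs' x hx.1)).1
    refine Sz.fin (n := n) ⟨⟨F, hF⟩, fun x hx => (hF' x (hmem x hx)).2, fun x x' hx hx' h1 => ?_⟩
    have h2 := (hF' x (hmem x hx)).1
    have h3 : F x = F x' := h1
    rw [h3] at h2
    exact ITy.inj (hf.1.2 _ _ _ h2 (hF' x' (hmem x' hx')).1)
  exact not_fto_of_dinf hG hfin (dinf_of_fto hG hfin hc hci hI)

end Pool.Agent.H408Z.Fac
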